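import Mathlib

/-!
# MP_aa8fd2_nt: the affine action mod 9 (helper294)

`E/F` a field extension of characteristic 0, `s ∈ F` with `s² = 5`, `ζ ∈ E` a primitive 9th root of
unity and `y ∈ E` with `y⁹ = β = (1 + s(1+2ζ³))/4`.  Every `g ∈ Aut(E/F)` satisfies
`g y = (y ζ^t)^ε`, `g ζ = (ζ^a)^ε` with `ε = ±1`, `a ∈ {1,4,7}`, `t ∈ ZMod 9`.
-/

namespace MZ294

set_option linter.unusedSectionVars false
set_option linter.style.haveILetI false

variable {F E : Type} [Field F] [CharZero F] [Field E] [Algebra F E]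

/-- The data `(s, ζ, y)`. -/
structure Dat (F E : Type) [Field F] [Field E] [Algebra F E] where
  s : F
  hs : s ^ 2 = 5
  z : E
  hz : IsPrimitiveRoot z 9
  y : E
  hy : y ^ 9 = (1 + algebraMap F E s * (1 + 2 * z ^ 3)) / 4

namespace Dat

variable (D : Dat F E)

/-- `β`. -/
def be : E := (1 + algebraMap F E D.s * (1 + 2 * D.z ^ 3)) / 4
/-- the conjugate (= inverse) of `β`. -/
def be' : E := (1 - algebraMap F E D.s * (1 + 2 * D.z ^ 3)) / 4

lemma charZeroE (_ : Dat F E) : CharZero E := charZero_of_injective_algebraMap (algebraMap F E).injective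

lemma z_ne : D.z ≠ 0 := D.hz.ne_zero (by norm_num)

lemma z_cube : D.z ^ 6 + D.z ^ 3 + 1 = 0 := by
  have h9 : D.z ^ 9 = 1 := D.hz.pow_eq_one
  have h3 : D.z ^ 3 ≠ 1 := D.hz.pow_ne_one_of_pos_of_lt (by norm_num) (by norm_num)
  have : (D.z ^ 3 - 1) * (D.z ^ 6 + D.z ^ 3 + 1) = 0 := by linear_combination h9
  rcases mul_eq_zero.mp this with h | h
  · exact absurd (sub_eq_zero.mp h) h3
  · exact h

lemma be_mul : D.be * D.be' = 1 := by
  haveI := D.charZeroE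
  have h1 := D.z_cube
  have h2 : (algebraMap F E D.s) ^ 2 = 5 := by rw [← map_pow, D.hs]; exact map_ofNat _ 5
  unfold be be'
  have h9 : D.z ^ 9 = 1 := D.hz.pow_eq_one
  field_simp
  ring_nf
  have h6 : D.z ^ 6 = -1 - D.z ^ 3 := by linear_combination h1
  rw [h6, h2]
  ring

lemma be_add : D.be + D.be' = 1 / 2 := by
  haveI := D.charZeroE
  unfold be be'
  field_simp
  ring

lemma be_ne : D.be ≠ 0 := left_ne_zero_of_mul_eq_one D.be_mul

lemma be_inv : D.be⁻¹ = D.be' := inv_eq_of_mul_eq_one_right D.be_mul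

lemma y9 : D.y ^ 9 = D.be := D.hy

lemma y_ne : D.y ≠ 0 := by
  intro h
  have := D.y9
  rw [h] at this
  exact D.be_ne (by rw [← this]; norm_num)

lemma be_sq : 2 * D.be ^ 2 - D.be + 2 = 0 := by
  haveI := D.charZeroE
  have h1 := D.be_mul
  have h2 := D.be_add
  have h3 : D.be' = 1 / 2 - D.be := by linear_combination h2
  rw [h3] at h1
  linear_combination -2 * h1

lemma be6 : D.be ^ 6 ≠ 1 := by
  haveI := D.charZeroE
  intro h
  have h1 := D.be_sq
  have h2 : 33 * D.be - 42 = 0 := by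
    linear_combination 32 * h - (16 * D.be ^ 4 + 8 * D.be ^ 3 - 12 * D.be ^ 2 - 14 * D.be + 5) * h1
  have h3 : D.be = 14 / 11 := by
    field_simp
    linear_combination h2 / 3
  rw [h3] at h1
  norm_num at h1

lemma y54 : D.y ^ 54 ≠ 1 := by
  intro h
  apply D.be6
  rw [← D.y9, ← pow_mul]; exact h

/-- The basic shape of the action. -/
lemma act (g : E ≃ₐ[F] E) : ∃ (a t : ℕ) (e : ℤ), (a = 1 ∨ a = 4 ∨ a = 7) ∧ t < 9 ∧
    (e = 1 ∨ e = -1) ∧ g D.z = (D.z ^ a) ^ e ∧ g D.y = (D.y * D.z ^ t) ^ e := by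
  haveI := D.charZeroE
  have h9 : D.z ^ 9 = 1 := D.hz.pow_eq_one
  have hz0 := D.z_ne
  have hy0 := D.y_ne
  have h1 : (g D.z) ^ 9 = 1 := by rw [← map_pow, h9, map_one]
  obtain ⟨i, hi, hi'⟩ := D.hz.eq_pow_of_pow_eq_one h1
  have hprim : IsPrimitiveRoot (D.z ^ i) 9 := by
    rw [hi']; exact D.hz.map_of_injective g.injective
  have hcop : i.Coprime 9 := (D.hz.pow_iff_coprime (by norm_num) i).mp hprim
  have hz3 : ∀ j : ℕ, D.z ^ (9 + j) = D.z ^ j := fun j => by rw [pow_add, h9, one_mul]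
  have hgs : g (algebraMap F E D.s) = algebraMap F E D.s := g.commutes _
  -- image of `β`
  have key : ∀ (a : ℕ), (a = 1 ∨ a = 4 ∨ a = 7) → (g D.z = D.z ^ a) →
      ∃ t : ℕ, t < 9 ∧ g D.y = D.y * D.z ^ t := by
    intro a ha hg
    have h3 : g (D.z ^ 3) = D.z ^ 3 := by
      rw [map_pow, hg, ← pow_mul]
      rcases ha with rfl | rfl | rfl
      · rfl
      · exact hz3 3
      · exact (hz3 12).trans (hz3 3)
    have h4 : (g D.y) ^ 9 = D.y ^ 9 := by
      rw [← map_pow, D.hy]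
      simp only [map_div₀, map_add, map_mul, map_one, hgs, h3, map_ofNat]
    have h5 : (g D.y / D.y) ^ 9 = 1 := by
      rw [div_pow, h4, div_self (pow_ne_zero _ hy0)]
    obtain ⟨t, ht, ht'⟩ := D.hz.eq_pow_of_pow_eq_one h5
    exact ⟨t, ht, by rw [ht']; field_simp⟩
  have key' : ∀ (a : ℕ), (a = 1 ∨ a = 4 ∨ a = 7) → (g D.z = (D.z ^ a)⁻¹) →
      ∃ t : ℕ, t < 9 ∧ g D.y = (D.y * D.z ^ t)⁻¹ := by
    intro a ha hg
    have h3 : g (D.z ^ 3) = D.z ^ 6 := by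
      rw [map_pow, hg, inv_pow, ← pow_mul]
      apply inv_eq_of_mul_eq_one_right
      rcases ha with rfl | rfl | rfl
      · rw [← pow_add]; exact h9
      · rw [← pow_add]; exact (hz3 9).trans h9
      · rw [← pow_add]; exact (hz3 18).trans ((hz3 9).trans h9)
    have h4 : (g D.y) ^ 9 = D.be' := by
      rw [← map_pow, D.hy]
      simp only [map_div₀, map_add, map_mul, map_one, hgs, h3, map_ofNat, be']
      have h6 : D.z ^ 6 = -1 - D.z ^ 3 := by linear_combination D.z_cube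
      rw [h6]; ring
    have h5 : (g D.y * D.y) ^ 9 = 1 := by
      rw [mul_pow, h4, D.y9, mul_comm, D.be_mul]
    obtain ⟨t, ht, ht'⟩ := D.hz.eq_pow_of_pow_eq_one h5
    have hgy : g D.y = D.z ^ t / D.y := by rw [ht']; field_simp
    rcases Nat.eq_zero_or_pos t with h0 | hpos
    · refine ⟨0, by norm_num, ?_⟩
      rw [hgy, h0]; simp
    · refine ⟨9 - t, by omega, ?_⟩
      rw [hgy]
      apply eq_inv_of_mul_eq_one_left
      have : D.z ^ t * D.z ^ (9 - t) = 1 := by rw [← pow_add, Nat.add_sub_cancel' ht.le, h9]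
      field_simp
      linear_combination this
  have hinv : ∀ j k : ℕ, j + k = 9 → D.z ^ j = (D.z ^ k)⁻¹ := by
    intro j k hjk
    apply eq_inv_of_mul_eq_one_left
    rw [← pow_add, hjk, h9]
  interval_cases i
  · simp at hcop
  · obtain ⟨t, ht, h⟩ := key 1 (by simp) hi'.symm
    exact ⟨1, t, 1, by simp, ht, by simp, by rw [zpow_one]; exact hi'.symm, by rw [zpow_one]; exact h⟩
  · obtain ⟨t, ht, h⟩ := key' 7 (by simp) (by rw [← hi']; exact hinv 2 7 rfl)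
    exact ⟨7, t, -1, by simp, ht, by simp, by rw [zpow_neg_one, ← hi']; exact hinv 2 7 rfl,
      by rw [zpow_neg_one]; exact h⟩
  · exact absurd hcop (by decide)
  · obtain ⟨t, ht, h⟩ := key 4 (by simp) hi'.symm
    exact ⟨4, t, 1, by simp, ht, by simp, by rw [zpow_one]; exact hi'.symm, by rw [zpow_one]; exact h⟩
  · obtain ⟨t, ht, h⟩ := key' 4 (by simp) (by rw [← hi']; exact hinv 5 4 rfl)
    exact ⟨4, t, -1, by simp, ht, by simp, by rw [zpow_neg_one, ← hi']; exact hinv 5 4 rfl,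
      by rw [zpow_neg_one]; exact h⟩
  · exact absurd hcop (by decide)
  · obtain ⟨t, ht, h⟩ := key 7 (by simp) hi'.symm
    exact ⟨7, t, 1, by simp, ht, by simp, by rw [zpow_one]; exact hi'.symm, by rw [zpow_one]; exact h⟩
  · obtain ⟨t, ht, h⟩ := key' 1 (by simp) (by rw [← hi']; exact hinv 8 1 rfl)
    exact ⟨1, t, -1, by simp, ht, by simp, by rw [zpow_neg_one, ← hi']; exact hinv 8 1 rfl,
      by rw [zpow_neg_one]; exact h⟩


/-- `g` acts by `(a,t)` with sign `e`. -/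
def Rp (g : E ≃ₐ[F] E) (a t : ℕ) (e : ℤ) : Prop :=
  g D.z = (D.z ^ a) ^ e ∧ g D.y = (D.y * D.z ^ t) ^ e

lemma zpow_eq_iff (a b : ℕ) : D.z ^ a = D.z ^ b ↔ (a : ZMod 9) = b := by
  have hz0 := D.z_ne
  rw [← zpow_natCast, ← zpow_natCast, ← div_eq_one_iff_eq (zpow_ne_zero _ hz0), ← zpow_sub₀ hz0,
    D.hz.zpow_eq_one_iff_dvd, ← sub_eq_zero, ← ZMod.intCast_zmod_eq_zero_iff_dvd]
  push_cast
  rfl

lemma rp_unique (g : E ≃ₐ[F] E) {a t a' t' : ℕ} {e e' : ℤ} (h : D.Rp g a t e) (h' : D.Rp g a' t' e')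
    (ha : (a : ZMod 9) = 1 ∨ (a : ZMod 9) = 4 ∨ (a : ZMod 9) = 7)
    (ha' : (a' : ZMod 9) = 1 ∨ (a' : ZMod 9) = 4 ∨ (a' : ZMod 9) = 7)
    (he : e = 1 ∨ e = -1) (he' : e' = 1 ∨ e' = -1) :
    (a : ZMod 9) = a' ∧ (t : ZMod 9) = t' := by
  obtain ⟨h1, h2⟩ := h
  obtain ⟨h1', h2'⟩ := h'
  have h9 : D.z ^ 9 = 1 := D.hz.pow_eq_one
  have hz0 := D.z_ne
  have hy0 := D.y_ne
  have hee : e = e' := by
    rcases he with rfl | rfl <;> rcases he' with rfl | rfl
    · rfl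
    · exfalso
      have : D.z ^ (a + a') = D.z ^ 0 := by
        rw [pow_add, pow_zero]
        rw [h1, zpow_one, zpow_neg_one] at h1'
        rw [h1']; exact inv_mul_cancel₀ (pow_ne_zero _ hz0)
      rw [zpow_eq_iff] at this
      push_cast at this
      rcases ha with ha | ha | ha <;> rcases ha' with ha' | ha' | ha' <;> rw [ha, ha'] at this <;>
        exact absurd this (by decide)
    · exfalso
      have : D.z ^ (a + a') = D.z ^ 0 := by
        rw [pow_add, pow_zero]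
        rw [h1, zpow_one, zpow_neg_one] at h1'
        rw [← h1']; exact mul_inv_cancel₀ (pow_ne_zero _ hz0)
      rw [zpow_eq_iff] at this
      push_cast at this
      rcases ha with ha | ha | ha <;> rcases ha' with ha' | ha' | ha' <;> rw [ha, ha'] at this <;>
        exact absurd this (by decide)
    · rfl
  subst hee
  constructor
  · rw [← D.zpow_eq_iff]
    rw [h1] at h1'
    rcases he with rfl | rfl
    · simpa using h1'
    · simpa using h1'
  · rw [← D.zpow_eq_iff]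
    rw [h2] at h2'
    have : D.y * D.z ^ t = D.y * D.z ^ t' := by
      rcases he with rfl | rfl
      · simpa using h2'
      · rw [zpow_neg_one, zpow_neg_one, inv_inj] at h2'; exact h2'
    exact mul_left_cancel₀ hy0 this

lemma exists_rp (g : E ≃ₐ[F] E) : ∃ (p : ℕ × ℕ × ℤ), D.Rp g p.1 p.2.1 p.2.2 ∧
    ((p.1 : ZMod 9) = 1 ∨ (p.1 : ZMod 9) = 4 ∨ (p.1 : ZMod 9) = 7) ∧ (p.2.2 = 1 ∨ p.2.2 = -1) := by
  obtain ⟨a, t, e, ha, _, he, h1, h2⟩ := D.act g
  refine ⟨(a, t, e), ⟨h1, h2⟩, ?_, he⟩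
  rcases ha with rfl | rfl | rfl <;> simp

/-- the linear part `a(g) ∈ {1,4,7}`. -/
noncomputable def pa (g : E ≃ₐ[F] E) : ZMod 9 := ((D.exists_rp g).choose.1 : ZMod 9)
/-- the translation part `t(g)`. -/
noncomputable def pt (g : E ≃ₐ[F] E) : ZMod 9 := ((D.exists_rp g).choose.2.1 : ZMod 9)

lemma pa_mem (g : E ≃ₐ[F] E) : D.pa g = 1 ∨ D.pa g = 4 ∨ D.pa g = 7 :=
  (D.exists_rp g).choose_spec.2.1

lemma pa_pt_eq (g : E ≃ₐ[F] E) {a t : ℕ} {e : ℤ} (h : D.Rp g a t e)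
    (ha : (a : ZMod 9) = 1 ∨ (a : ZMod 9) = 4 ∨ (a : ZMod 9) = 7) (he : e = 1 ∨ e = -1) :
    D.pa g = a ∧ D.pt g = t :=
  D.rp_unique g (D.exists_rp g).choose_spec.1 h (D.exists_rp g).choose_spec.2.1 ha
    (D.exists_rp g).choose_spec.2.2 he

lemma rp_mul (g h : E ≃ₐ[F] E) {a t a' t' : ℕ} {e e' : ℤ} (hg : D.Rp g a t e)
    (hh : D.Rp h a' t' e') : D.Rp (g * h) (a * a') (t + a * t') (e * e') := by
  obtain ⟨h1, h2⟩ := hg
  obtain ⟨h1', h2'⟩ := hh
  constructor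
  · rw [AlgEquiv.mul_apply, h1', map_zpow₀, map_pow, h1, ← zpow_natCast ((D.z ^ a) ^ e), ← zpow_mul,
      ← zpow_mul, ← zpow_natCast D.z a, ← zpow_natCast D.z (a * a'), ← zpow_mul, ← zpow_mul]
    congr 1
    push_cast; ring
  · rw [AlgEquiv.mul_apply, h2', map_zpow₀, map_mul, map_pow, h1, h2]
    rw [← zpow_natCast ((D.z ^ a) ^ e), ← zpow_mul, mul_comm e, zpow_mul, ← mul_zpow, ← zpow_mul]
    congr 1
    rw [mul_assoc, zpow_natCast, ← pow_mul, ← pow_add]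

lemma pa_pt_mul (g h : E ≃ₐ[F] E) :
    D.pa (g * h) = D.pa g * D.pa h ∧ D.pt (g * h) = D.pt g + D.pa g * D.pt h := by
  obtain ⟨⟨a, t, e⟩, h1, h2, h3⟩ := D.exists_rp g
  obtain ⟨⟨a', t', e'⟩, h1', h2', h3'⟩ := D.exists_rp h
  dsimp only at h1 h2 h3 h1' h2' h3'
  obtain ⟨ea, et⟩ := D.pa_pt_eq g h1 h2 h3
  obtain ⟨ea', et'⟩ := D.pa_pt_eq h h1' h2' h3'
  have := D.pa_pt_eq (g * h) (D.rp_mul g h h1 h1') (by
    push_cast
    rcases h2 with h2 | h2 | h2 <;> rcases h2' with h2' | h2' | h2' <;> rw [h2, h2'] <;> decide) (by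
    rcases h3 with h3 | h3 <;> rcases h3' with h3' | h3' <;> rw [h3, h3'] <;> simp)
  rw [this.1, this.2, ea, et, ea', et']
  push_cast
  exact ⟨rfl, rfl⟩

lemma pa_mul (g h : E ≃ₐ[F] E) : D.pa (g * h) = D.pa g * D.pa h := (D.pa_pt_mul g h).1
lemma pt_mul (g h : E ≃ₐ[F] E) : D.pt (g * h) = D.pt g + D.pa g * D.pt h := (D.pa_pt_mul g h).2

lemma pa_one : D.pa (1 : E ≃ₐ[F] E) = 1 := by
  have := (D.pa_pt_eq 1 (a := 1) (t := 0) (e := 1) ⟨by simp, by simp⟩ (by simp) (by simp)).1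
  simpa using this
lemma pt_one : D.pt (1 : E ≃ₐ[F] E) = 0 := by
  have := (D.pa_pt_eq 1 (a := 1) (t := 0) (e := 1) ⟨by simp, by simp⟩ (by simp) (by simp)).2
  simpa using this

/-- action on symmetrised monomials -/
lemma act_sym (g : E ≃ₐ[F] E) (i k : ℕ) : ∃ m : ℕ, (m : ZMod 9) = i * D.pt g + D.pa g * k ∧
    g (D.y ^ i * D.z ^ k + (D.y ^ i * D.z ^ k)⁻¹) = D.y ^ i * D.z ^ m + (D.y ^ i * D.z ^ m)⁻¹ := by
  obtain ⟨⟨a, t, e⟩, h1, h2, h3⟩ := D.exists_rp g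
  dsimp only at h1 h2 h3
  obtain ⟨ea, et⟩ := D.pa_pt_eq g h1 h2 h3
  refine ⟨i * t + a * k, by rw [ea, et]; push_cast; ring, ?_⟩
  have h : g (D.y ^ i * D.z ^ k) = (D.y ^ i * D.z ^ (i * t + a * k)) ^ e := by
    obtain ⟨h1a, h1b⟩ := h1
    rw [map_mul, map_pow, map_pow, h1a, h1b]
    have h4 : (D.y * D.z ^ t) ^ i * (D.z ^ a) ^ k = D.y ^ i * D.z ^ (i * t + a * k) := by
      rw [mul_pow, pow_add, pow_mul D.z a k, mul_comm i t, pow_mul D.z t i]; ring
    rcases h3 with rfl | rfl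
    · simp only [zpow_one]; exact h4
    · simp only [zpow_neg_one]
      rw [← h4, inv_pow, inv_pow, mul_inv]
  rw [map_add, map_inv₀, h]
  rcases h3 with rfl | rfl
  · simp
  · rw [zpow_neg_one, inv_inv, add_comm]

end Dat

end MZ294
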