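import Pool.Agent.W294.MZ.Aff

/-!
# MP_aa8fd2_nt: `F(ζ, y)` is unramified outside `6` (helper294)
-/

set_option linter.unusedSectionVars false

namespace MZ294

open NumberField IsDedekindDomain

/-- Two distinct 9th roots of unity congruent modulo an ideal: the ideal contains 9. -/
lemma nine_mem {A : Type} [CommRing A] [IsDomain A] (I : Ideal A) (a b : A) (ha : a ^ 9 = 1)
    (hb : b ^ 9 = 1) (hab : a ≠ b) (h : a - b ∈ I) : (9 : A) ∈ I := by
  -- `θ = a⁸ b`, `1 - θ = a⁸ (a - b)`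
  set t := a ^ 8 * b with ht
  have h1 : 1 - t = a ^ 8 * (a - b) := by rw [ht]; linear_combination -ha
  have h1I : 1 - t ∈ I := by rw [h1]; exact I.mul_mem_left _ h
  have ht1 : t ≠ 1 := by
    intro h2
    apply hab
    have : a ^ 8 * (a - b) = 0 := by rw [← h1, h2, sub_self]
    rcases mul_eq_zero.mp this with h3 | h3
    · exfalso
      have : (1 : A) = 0 := by
        rw [← ha, show (9 : ℕ) = 8 + 1 by norm_num, pow_succ, h3, zero_mul]
      exact one_ne_zero this
    · exact sub_eq_zero.mp h3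
  have ht9 : t ^ 9 = 1 := by
    rw [ht, mul_pow, ← pow_mul, mul_comm 8 9, pow_mul, ha, hb, one_pow, one_mul]
  have hs : 1 + t + t ^ 2 + t ^ 3 + t ^ 4 + t ^ 5 + t ^ 6 + t ^ 7 + t ^ 8 = 0 := by
    have : (t - 1) * (1 + t + t ^ 2 + t ^ 3 + t ^ 4 + t ^ 5 + t ^ 6 + t ^ 7 + t ^ 8) = 0 := by
      linear_combination ht9
    rcases mul_eq_zero.mp this with h3 | h3
    · exact absurd (sub_eq_zero.mp h3) ht1
    · exact h3
  have h9 : (9 : A) = (1 - t) * (8 + 7 * t + 6 * t ^ 2 + 5 * t ^ 3 + 4 * t ^ 4 + 3 * t ^ 5 +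
      2 * t ^ 6 + t ^ 7) := by
    linear_combination hs
  rw [h9]
  exact I.mul_mem_right _ h1I

variable {F W : Type} [Field F] [NumberField F] [Field W] [NumberField W] [Algebra F W]
  (D : Dat F W)

lemma z_int : IsIntegral ℤ D.z := D.hz.isIntegral (by norm_num)

lemma s_int : IsIntegral ℤ (algebraMap F W D.s) := by
  apply IsIntegral.of_pow (n := 2) (by norm_num)
  rw [← map_pow, D.hs]
  have : algebraMap F W 5 = ((5 : ℤ) : W) := by rw [map_ofNat]; norm_num
  rw [this]
  exact isIntegral_intCast 5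

lemma y_int : IsIntegral ℤ (2 * D.y) := by
  apply IsIntegral.of_pow (n := 9) (by norm_num)
  have : (2 * D.y) ^ 9 = ((128 : ℤ) : W) * (((1 : ℤ) : W) + algebraMap F W D.s *
      (((1 : ℤ) : W) + ((2 : ℤ) : W) * D.z ^ 3)) := by
    rw [mul_pow, D.hy]; push_cast; ring
  rw [this]
  exact (isIntegral_intCast 128).mul ((isIntegral_intCast 1).add ((s_int D).mul
    ((isIntegral_intCast 1).add ((isIntegral_intCast 2).mul ((z_int D).pow 3)))))

lemma y_int' : IsIntegral ℤ (2 * D.y⁻¹) := by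
  apply IsIntegral.of_pow (n := 9) (by norm_num)
  have : (2 * D.y⁻¹) ^ 9 = ((128 : ℤ) : W) * (((1 : ℤ) : W) - algebraMap F W D.s *
      (((1 : ℤ) : W) + ((2 : ℤ) : W) * D.z ^ 3)) := by
    rw [mul_pow, inv_pow, D.y9, D.be_inv, Dat.be']; push_cast; ring
  rw [this]
  exact (isIntegral_intCast 128).mul ((isIntegral_intCast 1).sub ((s_int D).mul
    ((isIntegral_intCast 1).add ((isIntegral_intCast 2).mul ((z_int D).pow 3)))))

/-- The inertia argument. -/
theorem unram_of_dat [IsGalois F W] (hgen : ∀ g : W ≃ₐ[F] W, g D.z = D.z → g D.y = D.y → g = 1)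
    (P : Ideal (𝓞 W)) [P.IsPrime] (h2 : (2 : 𝓞 W) ∉ P) (h3 : (3 : 𝓞 W) ∉ P) :
    Algebra.IsUnramifiedAt (𝓞 F) P := by
  classical
  letI : MulSemiringAction Gal(W/F) (𝓞 W) := IsIntegralClosure.MulSemiringAction (𝓞 F) F W (𝓞 W)
  haveI : IsGaloisGroup Gal(W/F) (𝓞 F) (𝓞 W) :=
    IsGaloisGroup.of_isFractionRing Gal(W/F) (𝓞 F) (𝓞 W) F W
  have hact : ∀ (g : Gal(W/F)) (x : 𝓞 W), ((g • x : 𝓞 W) : W) = g (x : W) := by
    intro g x
    exact algebraMap_galRestrict_apply (𝓞 F) g x
  have h9 : (9 : 𝓞 W) ∉ P := by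
    intro h
    have : (9 : 𝓞 W) = 3 * 3 := by norm_num
    rw [this] at h
    rcases (inferInstance : P.IsPrime).mem_or_mem h with h | h <;> exact h3 h
  let zO : 𝓞 W := ⟨D.z, z_int D⟩
  let yO : 𝓞 W := ⟨2 * D.y, y_int D⟩
  let yO' : 𝓞 W := ⟨2 * D.y⁻¹, y_int' D⟩
  have hzO : zO ^ 9 = 1 := by
    apply RingOfIntegers.ext; exact D.hz.pow_eq_one
  have hyy : yO * yO' = 4 := by
    apply RingOfIntegers.ext
    change 2 * D.y * (2 * D.y⁻¹) = 4
    have := D.y_ne
    field_simp; norm_num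
  have hyP : yO ∉ P := by
    intro h
    have h4 : (4 : 𝓞 W) ∈ P := by rw [← hyy]; exact P.mul_mem_right _ h
    have : (4 : 𝓞 W) = 2 * 2 := by norm_num
    rw [this] at h4
    rcases (inferInstance : P.IsPrime).mem_or_mem h4 with h | h <;> exact h2 h
  have hinert : ∀ g : Gal(W/F), g ∈ P.toAddSubgroup.inertia Gal(W/F) → g = 1 := by
    intro g hg
    rw [AddSubgroup.mem_inertia] at hg
    have e1 : g • zO = zO := by
      by_contra hne
      apply h9
      refine nine_mem P (g • zO) zO ?_ hzO hne (hg zO)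
      rw [← smul_pow', hzO, smul_one]
    have e1' : g D.z = D.z := by
      have := congrArg (fun x : 𝓞 W => (x : W)) e1
      rw [hact] at this
      exact this
    obtain ⟨a, t, e, ha, ht, he, hgz, hgy⟩ := D.act g
    -- `e = 1`, `a = 1`
    have hr1 : D.Rp g 1 0 1 → False ∨ True := fun _ => Or.inr trivial
    have hea : e = 1 := by
      rcases he with rfl | rfl
      · rfl
      · exfalso
        rw [e1', zpow_neg_one] at hgz
        have h5 : D.z ^ (a + 1) = D.z ^ 0 := by
          rw [pow_succ, pow_zero]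
          nth_rewrite 2 [hgz]
          exact mul_inv_cancel₀ (pow_ne_zero _ D.z_ne)
        rw [D.zpow_eq_iff] at h5
        rcases ha with rfl | rfl | rfl <;> exact absurd h5 (by decide)
    rw [hea, zpow_one] at hgy
    have e2 : g • yO = yO * zO ^ t := by
      apply RingOfIntegers.ext
      rw [hact]
      change g (2 * D.y) = 2 * D.y * D.z ^ t
      rw [map_mul, hgy, map_ofNat]; ring
    have e3 : yO * (zO ^ t - 1) ∈ P := by
      have := hg yO
      rw [e2] at this
      have h6 : yO * (zO ^ t - 1) = yO * zO ^ t - yO := by ring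
      rw [h6]; exact this
    have e4 : zO ^ t - 1 ∈ P := by
      rcases (inferInstance : P.IsPrime).mem_or_mem e3 with h | h
      · exact absurd h hyP
      · exact h
    have e5 : zO ^ t = 1 := by
      by_contra hne
      apply h9
      refine nine_mem P (zO ^ t) 1 ?_ (one_pow _) hne e4
      rw [← pow_mul, mul_comm, pow_mul, hzO, one_pow]
    have e5' : D.z ^ t = 1 := by
      have := congrArg (fun x : 𝓞 W => (x : W)) e5
      exact this
    apply hgen g e1'
    rw [hgy, e5', mul_one]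
  have hcard : Nat.card (P.toAddSubgroup.inertia Gal(W/F)) = 1 := by
    rw [Nat.card_eq_one_iff_unique]
    refine ⟨⟨fun a b => ?_⟩, ⟨1⟩⟩
    apply Subtype.ext
    rw [hinert a.1 a.2, hinert b.1 b.2]
  have key := Ideal.card_inertia_eq_ramificationIdxIn (G := Gal(W/F)) (P.under (𝓞 F)) P
  have key2 := Ideal.ramificationIdxIn_eq_ramificationIdx (P.under (𝓞 F)) P Gal(W/F)
  rw [hcard, key2] at key
  exact Ideal.ramificationIdx_eq_one_iff.mp key.symm

end MZ294
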