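import Mathlib

/-!
# MP_aa8fd2_nt, field part: statements (helper294)

The number field data over `F = ℚ(√5)`.  `L/F` is a `C₃ × C₃` extension whose four cubic
subextensions are `N, M, M₊, M₋` (sextic over `ℚ`).  `TwoRat X` says: every totally positive element
with even valuations outside `2` is a square or twice a square.
-/

namespace MZ294

open NumberField IsDedekindDomain

/-- All valuations of `a` at primes not above `2` are even. -/
def EvenOut2 (X : Type) [Field X] [NumberField X] (a : X) : Prop :=
  ∀ v : HeightOneSpectrum (𝓞 X), (2 : 𝓞 X) ∉ v.asIdeal → IsSquare (v.valuation X a)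

/-- For a totally real field: every totally positive element with even valuations outside `2`
is a square or twice a square (the field is 2-rational with a unique dyadic prime). -/
def TwoRat (X : Type) [Field X] [NumberField X] : Prop :=
  ∀ a : X, a ≠ 0 → (∀ f : X →+* ℝ, 0 < f a) → EvenOut2 X a → IsSquare a ∨ IsSquare (2 * a)

/-- FIELD-N : `N = ℚ(√5, 2cos(2π/9))`, discriminant 820125, Minkowski bound 13.98. -/
def StmN : Prop :=
  ∀ (X : Type) [Field X] [NumberField X], Module.finrank ℚ X = 6 →
    ∀ s e : X, s ^ 2 = 5 → e ^ 3 - 3 * e + 1 = 0 → TwoRat X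

/-- FIELD-M : `M = ℚ(√5, u)`, `2u³ - 6u - 1 = 0`, `M/ℚ` Galois with group `S₃`,
discriminant 13122000; cubic subfield of discriminant 1620. -/
def StmM : Prop :=
  ∀ (X : Type) [Field X] [NumberField X], Module.finrank ℚ X = 6 →
    ∀ s u : X, s ^ 2 = 5 → 2 * u ^ 3 - 6 * u - 1 = 0 → TwoRat X

/-- FIELD-P : `M₊ = ℚ(√5, u)`, `u³ - 3u + (1+3√5)/4 = 0`, discriminant 13122000. (`s` may be either
square root of 5, so this covers `M₋` too.) -/
def StmP : Prop :=
  ∀ (X : Type) [Field X] [NumberField X], Module.finrank ℚ X = 6 →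
    ∀ s u : X, s ^ 2 = 5 → 4 * (u ^ 3 - 3 * u) + (1 + 3 * s) = 0 → TwoRat X

end MZ294
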