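import Pool.Agent.W294.MZ.LF
import Pool.Agent.W294.MZ.Unr
import Pool.Agent.W566.MZ.Stmts

/-!
# MP_aa8fd2_nt: the concrete field `L` (helper294)
-/

set_option linter.unusedSectionVars false

namespace MZ294

open NumberField IsDedekindDomain MZ

lemma finrank_F5 : Module.finrank ℚ F5 = 2 := by
  have hirr : Irreducible (Polynomial.X ^ 2 - Polynomial.C 5 : Polynomial ℚ) := by
    have : ∀ b : ℚ, b ^ 2 ≠ 5 := by
      intro b hb
      have h5 : IsSquare (5 : ℚ) := ⟨b, by rw [← hb]; ring⟩
      rw [Rat.isSquare_iff] at h5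
      have h' := h5.1
      norm_num at h'
    exact X_pow_sub_C_irreducible_of_prime Nat.prime_two this
  have hmin : minpoly ℚ s5 = Polynomial.X ^ 2 - Polynomial.C 5 := by
    symm
    apply minpoly.eq_of_irreducible_of_monic hirr
    · simp [s5_sq]
    · exact Polynomial.monic_X_pow_sub_C 5 (by norm_num)
  unfold F5
  rw [IntermediateField.adjoin.finrank (Algebra.IsIntegral.isIntegral s5), hmin,
    Polynomial.natDegree_X_pow_sub_C]

/-- `√5 ∈ F5` -/
noncomputable def sF : F5 := ⟨s5, IntermediateField.mem_adjoin_simple_self ℚ s5⟩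

lemma sF_sq : sF ^ 2 = 5 := by
  apply Subtype.ext; exact s5_sq

/-- the data in `Om` -/
noncomputable def DOm : Dat F5 Om where
  s := sF
  hs := sF_sq
  z := ze
  hz := ze_prim
  y := yy
  hy := by
    rw [yy_pow, MZ.be]
    have : algebraMap F5 Om sF = s5 := rfl
    rw [this]; ring

instance : IsGalois F5 Om := by
  haveI : Normal F5 Om := IsAlgClosure.normal F5 Om
  exact { to_isSeparable := inferInstance, to_normal := inferInstance }

lemma K0_normal : Normal F5 DOm.K0 := by
  rw [IntermediateField.normal_iff_forall_map_le']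
  intro g
  rw [Dat.K0, IntermediateField.adjoin_map, IntermediateField.adjoin_le_iff]
  have hz : DOm.z ∈ IntermediateField.adjoin F5 {DOm.z, DOm.y} :=
    IntermediateField.subset_adjoin _ _ (by simp)
  have hy : DOm.y ∈ IntermediateField.adjoin F5 {DOm.z, DOm.y} :=
    IntermediateField.subset_adjoin _ _ (by simp)
  obtain ⟨a, t, e, -, -, -, h1, h2⟩ := DOm.act g
  rintro _ ⟨x, hx, rfl⟩
  simp only [Set.mem_insert_iff, Set.mem_singleton_iff] at hx
  rcases hx with rfl | rfl
  · change g DOm.z ∈ _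
    rw [h1]; exact zpow_mem (pow_mem hz _) _
  · change g DOm.y ∈ _
    rw [h2]; exact zpow_mem (mul_mem hy (pow_mem hz _)) _

instance : IsGalois F5 DOm.K0 := by
  haveI := K0_normal
  exact { to_isSeparable := inferInstance, to_normal := inferInstance }

instance : NumberField DOm.K0 := NumberField.of_module_finite F5 DOm.K0

/-- the data in `K0` -/
noncomputable def DK : Dat F5 DOm.K0 where
  s := sF
  hs := sF_sq
  z := ⟨DOm.z, IntermediateField.subset_adjoin _ _ (by simp)⟩
  hz := by
    have := DOm.hz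
    exact IsPrimitiveRoot.of_map_of_injective (f := (DOm.K0).val) this Subtype.val_injective
  y := ⟨DOm.y, IntermediateField.subset_adjoin _ _ (by simp)⟩
  hy := by
    apply Subtype.ext
    exact DOm.hy

lemma DK_gen (g : DOm.K0 ≃ₐ[F5] DOm.K0) (hz : g DK.z = DK.z) (hy : g DK.y = DK.y) : g = 1 := by
  have h : ∀ x : Om, ∀ hx : x ∈ DOm.K0, g ⟨x, hx⟩ = ⟨x, hx⟩ := by
    intro x hx
    induction hx using IntermediateField.adjoin_induction with
    | mem x hx =>
      simp only [Set.mem_insert_iff, Set.mem_singleton_iff] at hx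
      rcases hx with rfl | rfl
      · exact hz
      · exact hy
    | algebraMap x => exact g.commutes x
    | add x y hx hy h1 h2 =>
      have : (⟨x + y, add_mem hx hy⟩ : DOm.K0) = ⟨x, hx⟩ + ⟨y, hy⟩ := rfl
      exact (congrArg g this).trans ((map_add g _ _).trans (by rw [h1, h2]; rfl))
    | inv x hx h1 =>
      have : (⟨x⁻¹, inv_mem hx⟩ : DOm.K0) = (⟨x, hx⟩)⁻¹ := rfl
      exact (congrArg g this).trans ((map_inv₀ g _).trans (by rw [h1]; rfl))
    | mul x y hx hy h1 h2 =>
      have : (⟨x * y, mul_mem hx hy⟩ : DOm.K0) = ⟨x, hx⟩ * ⟨y, hy⟩ := rfl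
      exact (congrArg g this).trans ((map_mul g _ _).trans (by rw [h1, h2]; rfl))
  ext x
  exact congrArg Subtype.val (h x.1 x.2)

/-- a place not above `S30` does not contain `2`, `3`. -/
lemma not_mem_of_outside {W : IntermediateField F5 Om} [FiniteDimensional F5 W]
    (w : HeightOneSpectrum (𝓞 W))
    (hw : ∀ v ∈ S30, w.asIdeal.comap (algebraMap (𝓞 F5) (𝓞 W)) ≠ v.asIdeal) :
    (30 : 𝓞 W) ∉ w.asIdeal := by
  intro h
  haveI : NumberField W := NumberField.of_module_finite F5 W
  have hne : w.asIdeal.comap (algebraMap (𝓞 F5) (𝓞 W)) ≠ ⊥ := by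
    have := Ideal.comap_ne_bot_of_integral_mem (R := 𝓞 F5) (S := 𝓞 W) (I := w.asIdeal) (x := 30)
      (by norm_num) h (Algebra.IsIntegral.isIntegral _)
    exact this
  let v : HeightOneSpectrum (𝓞 F5) := ⟨w.asIdeal.comap (algebraMap (𝓞 F5) (𝓞 W)),
    Ideal.IsPrime.comap _, hne⟩
  refine hw v ?_ rfl
  change (30 : 𝓞 F5) ∈ w.asIdeal.comap (algebraMap (𝓞 F5) (𝓞 W))
  rw [Ideal.mem_comap, map_ofNat]
  exact h

lemma two_three {A : Type} [CommRing A] (I : Ideal A) (h : (30 : A) ∉ I) :
    (2 : A) ∉ I ∧ (3 : A) ∉ I := by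
  constructor
  · intro h2; apply h
    have : (30 : A) = 15 * 2 := by norm_num
    rw [this]; exact I.mul_mem_left _ h2
  · intro h2; apply h
    have : (30 : A) = 10 * 3 := by norm_num
    rw [this]; exact I.mul_mem_left _ h2

lemma K0_unram : UnramifiedOutside S30 DOm.K0 := by
  intro w hw
  obtain ⟨h2, h3⟩ := two_three _ (not_mem_of_outside w hw)
  haveI := w.isPrime
  exact unram_of_dat DK DK_gen w.asIdeal h2 h3

lemma K0_le_FS : DOm.K0 ≤ (FSmax S30 : IntermediateField F5 Om) :=
  le_iSup (fun K : {K : IntermediateField F5 Om // FiniteDimensional F5 K ∧ UnramifiedOutside S30 K}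
    => K.1) ⟨DOm.K0, inferInstance, K0_unram⟩

end MZ294
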