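import Pool.Agent.W294.MZ.ExSlice

/-!
# MP_aa8fd2_nt, part EX: existence of the slice data
-/

set_option autoImplicit false

namespace MZEX

open IsLocalRing MZ Matrix

lemma schur {k : Type} [Field k] {G : Type} [Group G] {n : ℕ} (ρbar : G →* GL (Fin n) k)
    (hρ : AbsIrred ρbar) (i0 : Fin n) (B : Matrix (Fin n) (Fin n) k)
    (hB : ∀ g, B * (ρbar g : Matrix (Fin n) (Fin n) k) = (ρbar g : Matrix (Fin n) (Fin n) k) * B) :
    B = B i0 i0 • (1 : Matrix (Fin n) (Fin n) k) := by
  haveI : Nonempty (Fin n) := ⟨i0⟩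
  haveI : Nontrivial (Fin n → AlgebraicClosure k) := inferInstance
  set ι := algebraMap k (AlgebraicClosure k) with hι
  set B' : Matrix (Fin n) (Fin n) (AlgebraicClosure k) := B.map ι with hB'
  obtain ⟨μ, hμ⟩ := Module.End.exists_eigenvalue (Matrix.toLin' B')
  obtain ⟨v, hv⟩ := hμ.exists_hasEigenvector
  have hV := hρ (LinearMap.ker (Matrix.toLin' B' - μ • LinearMap.id)) (by
    intro g x hx
    rw [LinearMap.mem_ker, LinearMap.sub_apply, Matrix.toLin'_apply, LinearMap.smul_apply,
      LinearMap.id_apply, sub_eq_zero] at hx ⊢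
    have hcomm : B' * (ρbar g : Matrix (Fin n) (Fin n) k).map ι =
        (ρbar g : Matrix (Fin n) (Fin n) k).map ι * B' := by
      rw [hB', ← Matrix.map_mul, hB g, Matrix.map_mul]
    rw [Matrix.mulVec_mulVec, hcomm, ← Matrix.mulVec_mulVec, hx, Matrix.mulVec_smul])
  have hne : LinearMap.ker (Matrix.toLin' B' - μ • LinearMap.id) ≠ ⊥ := by
    intro h0
    have h1 : v ∈ LinearMap.ker (Matrix.toLin' B' - μ • LinearMap.id) := by
      rw [LinearMap.mem_ker, LinearMap.sub_apply, LinearMap.smul_apply, LinearMap.id_apply,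
        hv.apply_eq_smul, sub_self]
    rw [h0, Submodule.mem_bot] at h1
    exact hv.2 h1
  have htop := hV.resolve_left hne
  have hBμ : B' = μ • (1 : Matrix (Fin n) (Fin n) (AlgebraicClosure k)) := by
    apply Matrix.toLin'.injective
    have h2 := LinearMap.ker_eq_top.1 htop
    rw [sub_eq_zero] at h2
    rw [h2]
    simp
  have hent : ∀ a b, ι (B a b) = μ * (1 : Matrix (Fin n) (Fin n) (AlgebraicClosure k)) a b := by
    intro a b
    have := congrFun (congrFun hBμ a) b
    simpa [hB'] using this
  have hinj : Function.Injective ι := ι.injective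
  have h00 := hent i0 i0
  rw [Matrix.one_apply_eq, mul_one] at h00
  ext a b
  apply hinj
  rw [hent a b, Matrix.smul_apply, smul_eq_mul, map_mul, h00]
  by_cases hab : a = b
  · subst hab; simp
  · simp [Matrix.one_apply_ne hab]

lemma exists_slice {p : ℕ} [Fact p.Prime] {k : Type} [Field k] [CharP k p] {n d : ℕ} (i0 : Fin n)
    (r : Fin d → Matrix (Fin n) (Fin n) k)
    (h : ∀ B : Matrix (Fin n) (Fin n) k, (∀ i, B * r i = r i * B) →
      B = B i0 i0 • (1 : Matrix (Fin n) (Fin n) k)) :
    Nonempty (Slice p k n d r) := by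
  classical
  let δ : Matrix (Fin n) (Fin n) k →ₗ[k] (Fin d → Matrix (Fin n) (Fin n) k) :=
    LinearMap.pi fun i => LinearMap.mulRight k (r i) - LinearMap.mulLeft k (r i)
  have hδ : ∀ B i, δ B i = B * r i - r i * B := fun B i => by simp [δ]
  let s : Matrix (Fin n) (Fin n) k →ₗ[k] Matrix (Fin n) (Fin n) k :=
    { toFun := fun B => B - B i0 i0 • (1 : Matrix (Fin n) (Fin n) k)
      map_add' := fun B B' => by
        simp only [Matrix.add_apply, add_smul]; abel
      map_smul' := fun c B => by
        simp only [Matrix.smul_apply, smul_eq_mul, RingHom.id_apply, smul_sub, smul_smul] }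
  have hs : ∀ B, s B = B - B i0 i0 • (1 : Matrix (Fin n) (Fin n) k) := fun B => rfl
  have hs0 : ∀ B, (s B) i0 i0 = 0 := fun B => by simp [hs]
  have hss : ∀ B, s (s B) = s B := fun B => by rw [hs (s B), hs0, zero_smul, sub_zero]
  have hker : LinearMap.ker δ ≤ LinearMap.ker s := by
    intro B hB
    rw [LinearMap.mem_ker] at hB ⊢
    have h1 : ∀ i, B * r i = r i * B := by
      intro i
      have := congrFun hB i
      rw [hδ] at this
      exact sub_eq_zero.1 this
    rw [hs, sub_eq_zero]
    exact h B h1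
  obtain ⟨g, hg⟩ : ∃ g : (Fin d → Matrix (Fin n) (Fin n) k) →ₗ[k] Matrix (Fin n) (Fin n) k,
      ∀ B, g (δ B) = s B := by
    obtain ⟨g, hg⟩ := LinearMap.exists_extend
      (((LinearMap.ker δ).liftQ s hker).comp (LinearEquiv.toLinearMap δ.quotKerEquivRange.symm))
    refine ⟨g, fun B => ?_⟩
    have h1 := congrArg (fun f => f ⟨δ B, LinearMap.mem_range_self δ B⟩) hg
    simp only [LinearMap.comp_apply, Submodule.subtype_apply] at h1
    rw [h1]
    have h2 : δ.quotKerEquivRange.symm ⟨δ B, LinearMap.mem_range_self δ B⟩ =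
        (LinearMap.ker δ).mkQ B := by
      rw [LinearEquiv.symm_apply_eq]
      apply Subtype.ext
      simp
    rw [LinearEquiv.coe_coe, h2]
    simp
  let γ : Fin n → Fin n → Fin d → Fin n → Fin n → k := fun a b i c e =>
    (s (g (Pi.single i (Matrix.single c e 1)))) a b
  have hγ : ∀ (Y : Fin d → Matrix (Fin n) (Fin n) k) (a b : Fin n),
      ∑ i, ∑ c, ∑ e, γ a b i c e * Y i c e = (s (g Y)) a b := by
    intro Y a b
    have hY : Y = ∑ i, ∑ c, ∑ e, Y i c e • (Pi.single i (Matrix.single c e 1) :
        Fin d → Matrix (Fin n) (Fin n) k) := by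
      funext j
      rw [Finset.sum_apply, Finset.sum_eq_single j]
      · conv_lhs => rw [Matrix.matrix_eq_sum_single (Y j)]
        rw [Finset.sum_apply]
        refine Finset.sum_congr rfl fun c _ => ?_
        rw [Finset.sum_apply]
        refine Finset.sum_congr rfl fun e _ => ?_
        rw [Pi.smul_apply, Pi.single_eq_same, Matrix.smul_single, smul_eq_mul, mul_one]
      · intro i _ hij
        rw [Finset.sum_apply]
        refine Finset.sum_eq_zero fun c _ => ?_
        rw [Finset.sum_apply]
        refine Finset.sum_eq_zero fun e _ => ?_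
        rw [Pi.smul_apply, Pi.single_eq_of_ne (Ne.symm hij), smul_zero]
      · simp
    conv_rhs => rw [hY]
    simp only [map_sum, map_smul, Matrix.sum_apply, Matrix.smul_apply, smul_eq_mul, γ]
    refine Finset.sum_congr rfl fun i _ => Finset.sum_congr rfl fun c _ =>
      Finset.sum_congr rfl fun e _ => mul_comm _ _
  refine ⟨⟨i0, fun i => Matrix.of fun a b => WittVector.teichmuller p (r i a b), ?_,
    fun a b i c e => WittVector.teichmuller p (γ a b i c e), ?_, ?_⟩⟩
  · intro i a b
    simp [WittVector.teichmuller_coeff_zero]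
  · intro i c e
    have : γ i0 i0 i c e = 0 := hs0 _
    rw [this, WittVector.teichmuller_zero]
  · intro B a b
    simp only [WittVector.teichmuller_coeff_zero]
    have h1 := hγ (δ B) a b
    rw [hg, hss] at h1
    rw [← hs, ← h1]
    refine Finset.sum_congr rfl fun i _ => Finset.sum_congr rfl fun c _ =>
      Finset.sum_congr rfl fun e _ => ?_
    rw [hδ]

end MZEX
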