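import Pool.Agent.W294.MZ.ExExt
import Pool.Agent.W294.MZ.ExSlice2

/-!
# MP_aa8fd2_nt, part EX: good ideals
-/

set_option autoImplicit false

namespace MZEX

open IsLocalRing MZ Matrix

section

variable {p : ℕ} [Fact p.Prime] {k : Type} [Field k] [CharP k p]

/-- `T` is a power series ring in the variables `X`. -/
structure PS (T : CNL p k) {σ : Type} (X : σ → T.A) : Prop where
  mem : ∀ s, X s ∈ maximalIdeal T.A
  ex : ∀ (A : CNL p k) (a : σ → A.A), (∀ s, a s ∈ maximalIdeal A.A) →
    ∃ f : T.A →ₐ[WittVector p k] A.A, (∀ s, f (X s) = a s) ∧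
      ∀ t ∈ maximalIdeal T.A, f t ∈ maximalIdeal A.A
  uniq : ∀ (A : CNL p k) (f g : T.A →ₐ[WittVector p k] A.A), (∀ s, f (X s) = g (X s)) →
    (∀ t ∈ maximalIdeal T.A, f t ∈ maximalIdeal A.A) →
    (∀ t ∈ maximalIdeal T.A, g t ∈ maximalIdeal A.A) → f = g

lemma exists_PS (hA : StmExA) (hC : StmExC) (hW : StmExW) [Finite k] (σ : Type) [Finite σ] :
    ∃ (T : CNL p k) (X : σ → T.A), PS T X := by
  obtain ⟨w1, w2, w3, w4⟩ := hW p k
  obtain ⟨a1, a2, a3⟩ := hA (WittVector p k) σ
  let T : CNL p k :=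
    { A := MvPowerSeries σ (WittVector p k)
      complete := a1
      res := (WittVector.constantCoeff : WittVector p k →+* k).comp MvPowerSeries.constantCoeff
      res_surj := by
        intro c
        refine ⟨MvPowerSeries.C (WittVector.teichmuller p c), ?_⟩
        rw [RingHom.comp_apply, MvPowerSeries.constantCoeff_C]
        exact WittVector.teichmuller_coeff_zero p c
      res_coeff := by
        intro x
        rw [RingHom.comp_apply]
        have : (algebraMap (WittVector p k) (MvPowerSeries σ (WittVector p k))) x =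
          MvPowerSeries.C x := rfl
        rw [this, MvPowerSeries.constantCoeff_C]
        rfl }
  refine ⟨T, fun s => (MvPowerSeries.X s : MvPowerSeries σ (WittVector p k)), ⟨?_, ?_, ?_⟩⟩
  · intro s
    refine (a2 _).2 ?_
    rw [MvPowerSeries.constantCoeff_X]
    exact Ideal.zero_mem _
  · intro A a ha
    exact hC (WittVector p k) A.A (by
      intro x hx
      rw [mem_max_iff, A.res_coeff]
      exact (w4 x).1 hx) σ a ha
  · intro A f g hfg hf hg
    apply AlgHom.ext
    intro t
    rw [← sub_eq_zero]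
    apply IsHausdorff.haus (I := maximalIdeal A.A) (M := A.A) inferInstance
    intro j
    rw [SModEq.zero]
    have hmem : f t - g t ∈ maximalIdeal A.A ^ j := by
      obtain ⟨q, hq⟩ := a3 j t
      have hq' : t - (q : MvPowerSeries σ (WittVector p k)) ∈ maximalIdeal T.A ^ j := hq
      have h1 : ∀ (h : T.A →ₐ[WittVector p k] A.A), (∀ t ∈ maximalIdeal T.A, h t ∈ maximalIdeal A.A) →
          ∀ t ∈ maximalIdeal T.A ^ j, h t ∈ maximalIdeal A.A ^ j := by
        intro h hh t ht
        have h2 : (maximalIdeal T.A ^ j).map (h : T.A →+* A.A) ≤ maximalIdeal A.A ^ j := by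
          rw [Ideal.map_pow]
          have h3 : maximalIdeal T.A ≤ (maximalIdeal A.A).comap (h : T.A →+* A.A) :=
            fun t ht => hh t ht
          exact Ideal.pow_right_mono (Ideal.map_le_iff_le_comap.2 h3) j
        exact h2 (Ideal.mem_map_of_mem _ ht)
      have hpoly : f (q : MvPowerSeries σ (WittVector p k)) =
          g (q : MvPowerSeries σ (WittVector p k)) := by
        let c : MvPolynomial σ (WittVector p k) →ₐ[WittVector p k]
            MvPowerSeries σ (WittVector p k) := MvPolynomial.coeToMvPowerSeries.algHom _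
        have hc : ∀ q, c q = (q : MvPowerSeries σ (WittVector p k)) := by
          intro q
          simp [c, MvPolynomial.coeToMvPowerSeries.algHom_apply]
        have h3 : (f.comp c : MvPolynomial σ (WittVector p k) →ₐ[WittVector p k] A.A) = g.comp c := by
          apply MvPolynomial.algHom_ext
          intro s
          rw [AlgHom.comp_apply, AlgHom.comp_apply, hc, MvPolynomial.coe_X]
          exact hfg s
        have h4 := congrArg (fun h => h q) h3
        simp only [AlgHom.comp_apply, hc] at h4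
        exact h4
      have h5 : f t - g t = f (t - (q : MvPowerSeries σ (WittVector p k))) -
          g (t - (q : MvPowerSeries σ (WittVector p k))) := by
        rw [map_sub f, map_sub g, hpoly]; ring
      rw [h5]
      exact Ideal.sub_mem _ (h1 f hf _ hq') (h1 g hg _ hq')
    simpa using hmem

lemma alg_local_res {T A : CNL p k} (f : T.A →ₐ[WittVector p k] A.A)
    (hf : ∀ t ∈ maximalIdeal T.A, f t ∈ maximalIdeal A.A) (t : T.A) : A.res (f t) = T.res t := by
  have h1 : t - algebraMap (WittVector p k) T.A (WittVector.teichmuller p (T.res t)) ∈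
      maximalIdeal T.A := by
    rw [mem_max_iff, map_sub, T.res_coeff, WittVector.teichmuller_coeff_zero, sub_self]
  have h2 := hf _ h1
  rw [mem_max_iff, map_sub, AlgHom.commutes, map_sub, A.res_coeff,
    WittVector.teichmuller_coeff_zero, sub_eq_zero] at h2
  exact h2

lemma alg_pow {T A : CNL p k} (f : T.A →ₐ[WittVector p k] A.A)
    (hf : ∀ t ∈ maximalIdeal T.A, f t ∈ maximalIdeal A.A) (j : ℕ) :
    ∀ t ∈ maximalIdeal T.A ^ j, f t ∈ maximalIdeal A.A ^ j := by
  intro t ht
  have h2 : (maximalIdeal T.A ^ j).map (f : T.A →+* A.A) ≤ maximalIdeal A.A ^ j := by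
    rw [Ideal.map_pow]
    have h3 : maximalIdeal T.A ≤ (maximalIdeal A.A).comap (f : T.A →+* A.A) :=
      fun t ht => hf t ht
    exact Ideal.pow_right_mono (Ideal.map_le_iff_le_comap.2 h3) j
  exact h2 (Ideal.mem_map_of_mem _ ht)

end

/-- the whole setup -/
structure SU (p : ℕ) [Fact p.Prime] (k : Type) [Field k] [CharP k p] (G : Type) [Group G]
    [TopologicalSpace G] (n d : ℕ) where
  ρbar : G →* GL (Fin n) k
  hopen : IsOpen (ρbar.ker : Set G)
  x : Fin d → G
  hx : Gens p ρbar.ker x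
  D : Slice p k n d (fun i => (ρbar (x i) : Matrix (Fin n) (Fin n) k))
  T : CNL p k
  X : Fin d × Fin n × Fin n → T.A
  hT : PS T X

namespace SU

variable {p : ℕ} [Fact p.Prime] {k : Type} [Field k] [CharP k p] {G : Type} [Group G]
  [TopologicalSpace G] {n d : ℕ} (S : SU p k G n d)

/-- the matrix of variables -/
def V (i : Fin d) : Matrix (Fin n) (Fin n) S.T.A := Matrix.of fun a b => S.X (i, a, b)

/-- the generic matrices -/
noncomputable def Xm (i : Fin d) : Matrix (Fin n) (Fin n) S.T.A :=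
  (S.D.A0 i).map (algebraMap (WittVector p k) S.T.A) + S.V i

lemma V_mem (i : Fin d) : InI (maximalIdeal S.T.A) (S.V i) := fun a b => S.hT.mem _

lemma Xm_res (i : Fin d) : (S.Xm i).map S.T.res = (S.ρbar (S.x i) : Matrix (Fin n) (Fin n) k) := by
  ext a b
  have h1 := (mem_max_iff S.T _).1 (S.V_mem i a b)
  simp only [Xm, Matrix.map_apply, Matrix.add_apply, map_add, h1, add_zero, S.T.res_coeff, S.D.hA0]

lemma isUnit_det (g : G) : IsUnit ((S.ρbar g : Matrix (Fin n) (Fin n) k)).det :=
  (Matrix.isUnit_iff_isUnit_det _).1 (S.ρbar g).isUnit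

/-- generic invertible matrices -/
noncomputable def XG (i : Fin d) : GL (Fin n) S.T.A :=
  toGL S.T (S.Xm i) (by rw [Xm_res]; exact S.isUnit_det _)

lemma XG_val (i : Fin d) : (S.XG i : Matrix (Fin n) (Fin n) S.T.A) = S.Xm i := rfl

/-- the generic representation of the free group -/
noncomputable def Phi : FreeGroup (Fin d) →* GL (Fin n) S.T.A := FreeGroup.lift S.XG

/-- the map of the free group to `G` -/
def th : FreeGroup (Fin d) →* G := FreeGroup.lift S.x

lemma Phi_res (w : FreeGroup (Fin d)) :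
    Matrix.GeneralLinearGroup.map S.T.res (S.Phi w) = S.ρbar (S.th w) := by
  have : (Matrix.GeneralLinearGroup.map S.T.res).comp S.Phi = S.ρbar.comp S.th := by
    apply FreeGroup.ext_hom
    intro i
    simp only [MonoidHom.comp_apply, Phi, th, FreeGroup.lift_apply_of]
    ext a b
    have := congrFun (congrFun (S.Xm_res i) a) b
    simpa [XG_val] using this
  exact DFunLike.congr_fun this w

/-- good ideals -/
structure Good (I : Ideal S.T.A) : Prop where
  le : I ≤ maximalIdeal S.T.A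
  op : ∃ N, maximalIdeal S.T.A ^ N ≤ I
  rep : ∃ U : Subgroup G, PSub p S.ρbar.ker U ∧ ∀ w, S.th w ∈ U →
    InI I ((S.Phi w : Matrix (Fin n) (Fin n) S.T.A) - 1)
  wp : InI I (S.D.pi S.T S.V)

lemma psub_ker : PSub p S.ρbar.ker S.ρbar.ker :=
  ⟨inferInstance, S.hopen, le_rfl, fun g hg => ⟨0, by simpa using hg⟩⟩

lemma good_max : S.Good (maximalIdeal S.T.A) := by
  refine ⟨le_rfl, ⟨1, by rw [pow_one]⟩, ⟨S.ρbar.ker, S.psub_ker, ?_⟩, S.D.pi_mem _ _ _ S.V_mem⟩
  intro w hw
  rw [MonoidHom.mem_ker, ← Phi_res] at hw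
  rw [InI_max_iff]
  ext a b
  have h2 := congrArg (fun M : GL (Fin n) k => (M : Matrix (Fin n) (Fin n) k) a b) hw
  simp only [Matrix.GeneralLinearGroup.map_apply, Units.val_one] at h2
  simp only [Matrix.map_apply, Matrix.sub_apply, map_sub, Matrix.zero_apply, h2]
  by_cases hab : a = b
  · subst hab; simp
  · simp [Matrix.one_apply_ne hab]

variable {S}

lemma Good.inf {I J : Ideal S.T.A} (hI : S.Good I) (hJ : S.Good J) : S.Good (I ⊓ J) := by
  obtain ⟨N, hN⟩ := hI.op
  obtain ⟨N', hN'⟩ := hJ.op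
  obtain ⟨U, hU, hUw⟩ := hI.rep
  obtain ⟨U', hU', hUw'⟩ := hJ.rep
  refine ⟨inf_le_left.trans hI.le, ⟨max N N', le_inf ((Ideal.pow_le_pow_right (le_max_left _ _)).trans hN)
    ((Ideal.pow_le_pow_right (le_max_right _ _)).trans hN')⟩, ⟨U ⊓ U', hU.inf hU', ?_⟩, ?_⟩
  · intro w hw a b
    exact ⟨hUw w hw.1 a b, hUw' w hw.2 a b⟩
  · intro a b
    exact ⟨hI.wp a b, hJ.wp a b⟩

lemma Good.mono {I J : Ideal S.T.A} (hI : S.Good I) (h : I ≤ J) (hJ : J ≤ maximalIdeal S.T.A) :
    S.Good J := by
  obtain ⟨N, hN⟩ := hI.op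
  obtain ⟨U, hU, hUw⟩ := hI.rep
  exact ⟨hJ, ⟨N, hN.trans h⟩, ⟨U, hU, fun w hw => (hUw w hw).mono h⟩, hI.wp.mono h⟩

variable (S)

lemma exists_least (hB : StmExB) (m : ℕ) : ∃ I, S.Good I ∧ maximalIdeal S.T.A ^ (m + 1) ≤ I ∧
    ∀ J, S.Good J → maximalIdeal S.T.A ^ (m + 1) ≤ J → I ≤ J := by
  set K := maximalIdeal S.T.A ^ (m + 1) with hK
  have hKm : K ≤ maximalIdeal S.T.A := Ideal.pow_le_self (by omega)
  have hKt : K ≠ ⊤ := by
    intro h
    exact (IsLocalRing.maximalIdeal.isMaximal S.T.A).ne_top (top_le_iff.1 (h ▸ hKm))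
  obtain ⟨h1, -, h3⟩ := hB S.T.A K hKt
  haveI : IsNoetherianRing (S.T.A ⧸ K) := inferInstance
  haveI hart : IsArtinianRing (S.T.A ⧸ K) := by
    rw [isArtinianRing_iff_isNilpotent_maximalIdeal]
    refine ⟨m + 1, ?_⟩
    rw [h3 (m + 1), ← hK, Ideal.map_quotient_self]
    rfl
  set q := Ideal.Quotient.mk K with hq
  have hcomap : ∀ I : Ideal S.T.A, K ≤ I → (I.map q).comap q = I := by
    intro I hI
    rw [Ideal.comap_map_of_surjective q Ideal.Quotient.mk_surjective, ← RingHom.ker_eq_comap_bot,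
      hq, Ideal.mk_ker, sup_eq_left.2 hI]
  obtain ⟨J0, hJ0, hmin⟩ := IsArtinian.set_has_minimal
    {J : Ideal (S.T.A ⧸ K) | S.Good (Ideal.comap q J)} ⟨(maximalIdeal S.T.A).map q, by
      change S.Good _
      rw [hcomap _ hKm]
      exact S.good_max⟩
  have hKJ : K ≤ Ideal.comap q J0 := by
    intro y hy
    rw [Ideal.mem_comap]
    have : q y = 0 := Ideal.Quotient.eq_zero_iff_mem.2 hy
    rw [this]
    exact J0.zero_mem
  refine ⟨Ideal.comap q J0, hJ0, hKJ, fun I hI hKI => ?_⟩
  have hc : Ideal.comap q (Ideal.map q (I ⊓ Ideal.comap q J0)) = I ⊓ Ideal.comap q J0 :=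
    hcomap _ (le_inf hKI hKJ)
  have h4 : S.Good (Ideal.comap q (Ideal.map q (I ⊓ Ideal.comap q J0))) := by
    rw [hc]
    exact hI.inf hJ0
  have h5 : Ideal.map q (I ⊓ Ideal.comap q J0) ≤ J0 := by
    rw [Ideal.map_le_iff_le_comap]
    exact inf_le_right
  have h6 : Ideal.map q (I ⊓ Ideal.comap q J0) = J0 := by
    rcases h5.lt_or_eq with h | h
    · exact absurd h (hmin _ h4)
    · exact h
  rw [h6] at hc
  rw [hc]
  exact inf_le_left

end SU

/-- Chevalley-type argument -/
lemma chev {p : ℕ} [Fact p.Prime] {k : Type} [Field k] [CharP k p] (A : CNL p k)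
    (I : ℕ → Ideal A.A) (h1 : ∀ m, maximalIdeal A.A ^ (m + 1) ≤ I m) (h2 : ∀ m, I (m + 1) ≤ I m)
    (h3 : ∀ m, I m ≤ I (m + 1) ⊔ maximalIdeal A.A ^ (m + 1)) (m : ℕ) :
    I m ≤ (⨅ j, I j) ⊔ maximalIdeal A.A ^ (m + 1) := by
  classical
  intro y hy
  have hstep : ∀ j (z : {z : A.A // z ∈ I (m + j)}), ∃ z' : {z : A.A // z ∈ I (m + (j + 1))},
      z'.1 - z.1 ∈ maximalIdeal A.A ^ (m + j + 1) := by
    rintro j ⟨z, hz⟩
    obtain ⟨u, hu, v, hv, huv⟩ := Submodule.mem_sup.1 (h3 (m + j) hz)
    refine ⟨⟨u, hu⟩, ?_⟩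
    have : u - z = -v := by rw [← huv]; ring
    rw [this]
    exact Ideal.neg_mem_iff _ |>.2 hv
  choose nxt hnxt using hstep
  let seq : (j : ℕ) → {z : A.A // z ∈ I (m + j)} := fun j =>
    Nat.rec (motive := fun j => {z : A.A // z ∈ I (m + j)}) ⟨y, hy⟩ (fun j z => nxt j z) j
  have hseq0 : (seq 0).1 = y := rfl
  have hseq : ∀ j, seq (j + 1) = nxt j (seq j) := fun j => rfl
  have hc : ∀ i j, i ≤ j → (seq j).1 - (seq i).1 ∈ maximalIdeal A.A ^ (m + i + 1) := by
    intro i j hij
    induction j, hij using Nat.le_induction with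
    | base => rw [sub_self]; exact Ideal.zero_mem _
    | succ j hij ih =>
      have : (seq (j + 1)).1 - (seq i).1 = ((seq (j + 1)).1 - (seq j).1) +
        ((seq j).1 - (seq i).1) := by ring
      rw [this]
      refine Ideal.add_mem _ ?_ ih
      rw [hseq]
      exact Ideal.pow_le_pow_right (by omega) (hnxt j (seq j))
  obtain ⟨l, hl⟩ := IsPrecomplete.prec (I := maximalIdeal A.A) (M := A.A) inferInstance
    (f := fun j => (seq j).1) (by
      intro i j hij
      rw [SModEq.sub_mem]
      have h5 := hc i j hij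
      have h6 : (seq i).1 - (seq j).1 = -((seq j).1 - (seq i).1) := by ring
      rw [h6]
      have h7 := (Ideal.neg_mem_iff _).2 (Ideal.pow_le_pow_right (show i ≤ m + i + 1 by omega) h5)
      simpa using h7)
  have hl' : ∀ j, l - (seq j).1 ∈ maximalIdeal A.A ^ (m + j + 1) := by
    intro j
    have h8 := hl (m + j + 1)
    rw [SModEq.sub_mem] at h8
    have h9 : (seq (m + j + 1)).1 - l ∈ maximalIdeal A.A ^ (m + j + 1) := by simpa using h8
    have h10 := hc j (m + j + 1) (by omega)
    have : l - (seq j).1 = ((seq (m + j + 1)).1 - (seq j).1) - ((seq (m + j + 1)).1 - l) := by ring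
    rw [this]
    exact Ideal.sub_mem _ h10 h9
  have hanti : ∀ i j, i ≤ j → I j ≤ I i := by
    intro i j hij
    induction j, hij using Nat.le_induction with
    | base => exact le_rfl
    | succ j _ ih => exact (h2 j).trans ih
  have hlI : l ∈ ⨅ j, I j := by
    rw [Submodule.mem_iInf]
    intro j
    have h11 : l = (seq j).1 + (l - (seq j).1) := by ring
    rw [h11]
    exact Ideal.add_mem _ (hanti j (m + j) (by omega) (seq j).2)
      (h1 j (Ideal.pow_le_pow_right (by omega) (hl' j)))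
  have h12 : y = l + (y - l) := by ring
  rw [h12]
  refine Submodule.add_mem_sup hlI ?_
  have h13 := hl' 0
  rw [hseq0, add_zero] at h13
  have h14 : y - l = -(l - y) := by ring
  rw [h14]
  exact Ideal.neg_mem_iff _ |>.2 h13

end MZEX
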