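import Pool.Agent.W294.MZ.ExSlice

/-!
# MP_aa8fd2_nt, part EX: lifts, `PSub`, and the extension lemma
-/

set_option autoImplicit false

namespace MZEX

open IsLocalRing MZ Matrix

section Groups

variable {G : Type} [Group G] [TopologicalSpace G] {p : ℕ} {H : Subgroup G}

lemma PSub.inf {N N' : Subgroup G} (h : PSub p H N) (h' : PSub p H N') : PSub p H (N ⊓ N') := by
  obtain ⟨h1, h2, h3, h4⟩ := h
  obtain ⟨h1', h2', h3', h4'⟩ := h'
  refine ⟨inferInstance, h2.inter h2', inf_le_left.trans h3, ?_⟩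
  intro g hg
  obtain ⟨e, he⟩ := h4 g hg
  obtain ⟨e', he'⟩ := h4' g hg
  refine ⟨e + e', ?_, ?_⟩
  · rw [pow_add, pow_mul]; exact N.pow_mem he _
  · rw [pow_add, mul_comm, pow_mul]; exact N'.pow_mem he' _

lemma exists_word {d : ℕ} {x : Fin d → G} (hx : Gens p H x) {N : Subgroup G} (hN : PSub p H N)
    (g : G) : ∃ w : FreeGroup (Fin d), (FreeGroup.lift x w)⁻¹ * g ∈ N := by
  haveI := hN.1
  have h1 : g ∈ Subgroup.closure (Set.range x) ⊔ N := by rw [hx N hN]; trivial
  rw [Subgroup.mem_sup_of_normal_right] at h1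
  obtain ⟨y, hy, z, hz, rfl⟩ := h1
  have h2 : y ∈ (FreeGroup.lift x).range := by
    refine (Subgroup.closure_le _).2 ?_ hy
    rintro _ ⟨i, rfl⟩
    exact ⟨FreeGroup.of i, by simp⟩
  obtain ⟨w, rfl⟩ := h2
  exact ⟨w, by simpa using hz⟩

end Groups

section Lifts

variable {p : ℕ} [Fact p.Prime] {k : Type} [Field k] [CharP k p]

/-- congruence to one -/
lemma InI_one_mul {A : Type} [CommRing A] {n : ℕ} {I : Ideal A} {M N : Matrix (Fin n) (Fin n) A}
    (hM : InI I (M - 1)) (hN : InI I (N - 1)) : InI I (M * N - 1) := by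
  have : M * N - 1 = (M - 1) * N + (N - 1) := by noncomm_ring
  rw [this]
  exact (hM.mul_right _).add hN

lemma InI_one_inv {A : Type} [CommRing A] {n : ℕ} {I : Ideal A} {M : GL (Fin n) A}
    (hM : InI I ((M : Matrix (Fin n) (Fin n) A) - 1)) :
    InI I (((M⁻¹ : GL (Fin n) A) : Matrix (Fin n) (Fin n) A) - 1) := by
  have h1 : (M : Matrix (Fin n) (Fin n) A) * ((M⁻¹ : GL (Fin n) A) : Matrix (Fin n) (Fin n) A) = 1 := by
    rw [← Units.val_mul, mul_inv_cancel, Units.val_one]
  have : ((M⁻¹ : GL (Fin n) A) : Matrix (Fin n) (Fin n) A) - 1 =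
      -(((M : Matrix (Fin n) (Fin n) A) - 1) * ((M⁻¹ : GL (Fin n) A) : Matrix (Fin n) (Fin n) A)) := by
    rw [sub_mul, h1, one_mul]; abel
  rw [this]
  exact (hM.mul_right _).neg

/-- the subgroup of elements acting trivially modulo `I` -/
def Nsub {A : Type} [CommRing A] {n : ℕ} {G : Type} [Group G] (ρ : G →* GL (Fin n) A) (I : Ideal A) :
    Subgroup G where
  carrier := {g | InI I ((ρ g : Matrix (Fin n) (Fin n) A) - 1)}
  one_mem' := by
    simp only [Set.mem_setOf_eq, map_one, Units.val_one, sub_self]; exact InI.zero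
  mul_mem' := by
    intro a b ha hb
    simp only [Set.mem_setOf_eq, map_mul, Units.val_mul] at ha hb ⊢
    exact InI_one_mul ha hb
  inv_mem' := by
    intro a ha
    simp only [Set.mem_setOf_eq, map_inv] at ha ⊢
    exact InI_one_inv ha

lemma mem_Nsub {A : Type} [CommRing A] {n : ℕ} {G : Type} [Group G] (ρ : G →* GL (Fin n) A)
    (I : Ideal A) (g : G) : g ∈ Nsub ρ I ↔ InI I ((ρ g : Matrix (Fin n) (Fin n) A) - 1) := Iff.rfl

instance {A : Type} [CommRing A] {n : ℕ} {G : Type} [Group G] (ρ : G →* GL (Fin n) A)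
    (I : Ideal A) : (Nsub ρ I).Normal := by
  constructor
  intro g hg h
  rw [mem_Nsub] at hg ⊢
  have h1 : (ρ h : Matrix (Fin n) (Fin n) A) * ((ρ h)⁻¹ : GL (Fin n) A) = 1 := by
    rw [← Units.val_mul, mul_inv_cancel, Units.val_one]
  rw [map_mul, map_mul, map_inv, Units.val_mul, Units.val_mul]
  have : (ρ h : Matrix (Fin n) (Fin n) A) * (ρ g : Matrix (Fin n) (Fin n) A) *
      (((ρ h)⁻¹ : GL (Fin n) A) : Matrix (Fin n) (Fin n) A) - 1 =
      (ρ h : Matrix (Fin n) (Fin n) A) * ((ρ g : Matrix (Fin n) (Fin n) A) - 1) *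
      (((ρ h)⁻¹ : GL (Fin n) A) : Matrix (Fin n) (Fin n) A) := by
    rw [mul_sub, sub_mul, mul_one, h1]
  rw [this]
  exact (hg.mul_left _).mul_right _

lemma p_mem (A : CNL p k) : (p : A.A) ∈ maximalIdeal A.A := by
  rw [mem_max_iff, map_natCast, CharP.cast_eq_zero]

lemma pow_p (A : CNL p k) {n : ℕ} (j : ℕ) (hj : 1 ≤ j) (M : Matrix (Fin n) (Fin n) A.A)
    (hM : InI (maximalIdeal A.A ^ j) (M - 1)) : InI (maximalIdeal A.A ^ (j + 1)) (M ^ p - 1) := by
  have hle : maximalIdeal A.A ^ j ≤ maximalIdeal A.A := Ideal.pow_le_self (by omega)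
  have h1 : ∀ i : ℕ, InI (maximalIdeal A.A) (M ^ i - 1) := by
    intro i
    induction i with
    | zero => rw [pow_zero, sub_self]; exact InI.zero
    | succ i ih => rw [pow_succ]; exact InI_one_mul ih (hM.mono hle)
  rw [← mul_geom_sum M p]
  refine (hM.mul (J := maximalIdeal A.A) ?_).mono (le_of_eq (pow_succ _ _).symm)
  have h2 : ∑ i ∈ Finset.range p, M ^ i = (p : Matrix (Fin n) (Fin n) A.A) +
      ∑ i ∈ Finset.range p, (M ^ i - 1) := by
    rw [Finset.sum_sub_distrib]; simp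
  rw [h2]
  refine InI.add ?_ ?_
  · intro a b
    have : (p : Matrix (Fin n) (Fin n) A.A) = (p : A.A) • (1 : Matrix (Fin n) (Fin n) A.A) := by
      rw [Nat.cast_smul_eq_nsmul, nsmul_one]
    rw [this, Matrix.smul_apply, smul_eq_mul]
    exact Ideal.mul_mem_right _ _ (p_mem A)
  · intro a b
    rw [Matrix.sum_apply]
    exact Ideal.sum_mem _ fun i _ => h1 i a b

variable {G : Type} [Group G] [TopologicalSpace G] {n : ℕ} {ρbar : G →* GL (Fin n) k}

lemma lift_psub [IsTopologicalGroup G] {A : CNL p k} {ρ : G →* GL (Fin n) A.A}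
    (h : IsLift ρbar A ρ) (j : ℕ) : PSub p ρbar.ker (Nsub ρ (maximalIdeal A.A ^ (j + 1))) := by
  refine ⟨inferInstance, h.2 (j + 1), ?_, ?_⟩
  · intro g hg
    rw [mem_Nsub] at hg
    rw [MonoidHom.mem_ker, ← h.1 g]
    have h1 := (InI_max_iff A _).1 (hg.mono (Ideal.pow_le_self (by omega)))
    ext a b
    have h2 := congrFun (congrFun h1 a) b
    simp only [Matrix.map_apply, Matrix.sub_apply, map_sub, Matrix.zero_apply, sub_eq_zero] at h2
    simp only [Matrix.GeneralLinearGroup.map_apply, h2, Units.val_one]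
    by_cases hab : a = b
    · subst hab; simp
    · simp [Matrix.one_apply_ne hab]
  · intro g hg
    refine ⟨j, ?_⟩
    rw [mem_Nsub]
    have h0 : InI (maximalIdeal A.A ^ 1) ((ρ g : Matrix (Fin n) (Fin n) A.A) - 1) := by
      rw [pow_one, InI_max_iff]
      rw [MonoidHom.mem_ker, ← h.1 g] at hg
      ext a b
      have h2 := congrArg (fun M : GL (Fin n) k => (M : Matrix (Fin n) (Fin n) k) a b) hg
      simp only [Matrix.GeneralLinearGroup.map_apply, Units.val_one] at h2
      simp only [Matrix.map_apply, Matrix.sub_apply, map_sub, Matrix.zero_apply, h2]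
      by_cases hab : a = b
      · subst hab; simp
      · simp [Matrix.one_apply_ne hab]
    induction j with
    | zero => simpa using h0
    | succ j ih =>
      have := pow_p A (j + 1) (by omega) _ ih
      rw [map_pow, Units.val_pow_eq_pow_val] at this ⊢
      rwa [pow_succ p j, pow_mul]

/-- The extension lemma. -/
lemma extension {d : ℕ} {x : Fin d → G} (hx : Gens p ρbar.ker x) (A : CNL p k)
    (Φ : FreeGroup (Fin d) →* GL (Fin n) A.A)
    (hΦ : ∀ j : ℕ, ∃ U : Subgroup G, PSub p ρbar.ker U ∧ ∀ w, FreeGroup.lift x w ∈ U →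
      InI (maximalIdeal A.A ^ j) ((Φ w : Matrix (Fin n) (Fin n) A.A) - 1)) :
    ∃ ρ : G →* GL (Fin n) A.A, (∀ w, ρ (FreeGroup.lift x w) = Φ w) ∧
      ∀ j : ℕ, ∃ U : Subgroup G, PSub p ρbar.ker U ∧ ∀ g ∈ U,
        InI (maximalIdeal A.A ^ j) ((ρ g : Matrix (Fin n) (Fin n) A.A) - 1) := by
  classical
  set θ := FreeGroup.lift x with hθ
  choose U hU hUw using hΦ
  -- decreasing
  let V : ℕ → Subgroup G := fun j => Nat.rec (U 0) (fun j V => V ⊓ U (j + 1)) j
  have hV0 : V 0 = U 0 := rfl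
  have hVs : ∀ j, V (j + 1) = V j ⊓ U (j + 1) := fun j => rfl
  have hVP : ∀ j, PSub p ρbar.ker (V j) := by
    intro j
    induction j with
    | zero => exact hU 0
    | succ j ih => rw [hVs]; exact ih.inf (hU _)
  have hVU : ∀ j, V j ≤ U j := by
    intro j
    cases j with
    | zero => exact le_rfl
    | succ j => rw [hVs]; exact inf_le_right
  have hVle : ∀ j, V (j + 1) ≤ V j := fun j => by rw [hVs]; exact inf_le_left
  haveI hVn : ∀ j, (V j).Normal := fun j => (hVP j).1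
  -- two words with the same image
  have hword : ∀ j w w', (θ w)⁻¹ * θ w' ∈ V j →
      InI (maximalIdeal A.A ^ j) ((Φ w' : Matrix (Fin n) (Fin n) A.A) -
        (Φ w : Matrix (Fin n) (Fin n) A.A)) := by
    intro j w w' h
    have h1 := hUw j (w⁻¹ * w') (by rw [map_mul, map_inv]; exact hVU j h)
    rw [map_mul, map_inv, Units.val_mul] at h1
    have h2 : (Φ w : Matrix (Fin n) (Fin n) A.A) *
        (((Φ w)⁻¹ : GL (Fin n) A.A) : Matrix (Fin n) (Fin n) A.A) = 1 := by
      rw [← Units.val_mul, mul_inv_cancel, Units.val_one]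
    have h3 : (Φ w' : Matrix (Fin n) (Fin n) A.A) - (Φ w : Matrix (Fin n) (Fin n) A.A) =
        (Φ w : Matrix (Fin n) (Fin n) A.A) *
          ((((Φ w)⁻¹ : GL (Fin n) A.A) : Matrix (Fin n) (Fin n) A.A) *
            (Φ w' : Matrix (Fin n) (Fin n) A.A) - 1) := by
      rw [mul_sub, ← mul_assoc, h2, one_mul, mul_one]
    rw [h3]
    exact h1.mul_left _
  choose wd hwd using fun (j : ℕ) (g : G) => exists_word hx (hVP j) g
  have hlim : ∀ g, ∃ L : Matrix (Fin n) (Fin n) A.A, ∀ j,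
      InI (maximalIdeal A.A ^ j) (L - (Φ (wd j g) : Matrix (Fin n) (Fin n) A.A)) := by
    intro g
    apply exists_lim A (fun j => (Φ (wd j g) : Matrix (Fin n) (Fin n) A.A))
    intro j
    apply hword
    have h1 := hwd j g
    have h2 := hVle j (hwd (j + 1) g)
    have h3 := (V j).mul_mem h1 ((V j).inv_mem h2)
    have h4 : (FreeGroup.lift x (wd j g))⁻¹ * g * ((FreeGroup.lift x (wd (j + 1) g))⁻¹ * g)⁻¹ =
        (θ (wd j g))⁻¹ * θ (wd (j + 1) g) := by rw [hθ]; group
    rwa [h4] at h3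
  choose L hL using hlim
  have hstar : ∀ g w j, (θ w)⁻¹ * g ∈ V j →
      InI (maximalIdeal A.A ^ j) (L g - (Φ w : Matrix (Fin n) (Fin n) A.A)) := by
    intro g w j h
    have h1 := (V j).mul_mem h ((V j).inv_mem (hwd j g))
    have h2 : (θ w)⁻¹ * g * ((FreeGroup.lift x (wd j g))⁻¹ * g)⁻¹ = (θ w)⁻¹ * θ (wd j g) := by
      rw [hθ]; group
    rw [h2] at h1
    have h3 := (hL g j).add (hword j w (wd j g) h1)
    have h4 : L g - (Φ w : Matrix (Fin n) (Fin n) A.A) =
        (L g - (Φ (wd j g) : Matrix (Fin n) (Fin n) A.A)) +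
        ((Φ (wd j g) : Matrix (Fin n) (Fin n) A.A) - (Φ w : Matrix (Fin n) (Fin n) A.A)) := by abel
    rwa [h4]
  have hL1 : L 1 = 1 := by
    rw [← sub_eq_zero]
    apply hausdorff_of
    intro j
    have := hstar 1 1 j (by simp)
    simpa using this
  have hLm : ∀ g h, L (g * h) = L g * L h := by
    intro g h
    rw [← sub_eq_zero]
    apply hausdorff_of
    intro j
    have e1 := hwd j g
    have e2 := hwd j h
    have e3 : (θ (wd j g * wd j h))⁻¹ * (g * h) ∈ V j := by
      have e4 := (V j).mul_mem e2 ((hVn j).conj_mem _ e1 h⁻¹)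
      have e5 : (FreeGroup.lift x (wd j h))⁻¹ * h * (h⁻¹ * ((FreeGroup.lift x (wd j g))⁻¹ * g) * h⁻¹⁻¹)
          = (θ (wd j g * wd j h))⁻¹ * (g * h) := by rw [hθ, map_mul]; group
      rwa [e5] at e4
    have e6 := hstar (g * h) _ j e3
    rw [map_mul, Units.val_mul] at e6
    have e7 : L (g * h) - L g * L h =
        (L (g * h) - (Φ (wd j g) : Matrix (Fin n) (Fin n) A.A) *
          (Φ (wd j h) : Matrix (Fin n) (Fin n) A.A)) -
        ((L g - (Φ (wd j g) : Matrix (Fin n) (Fin n) A.A)) * L h +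
          (Φ (wd j g) : Matrix (Fin n) (Fin n) A.A) *
            (L h - (Φ (wd j h) : Matrix (Fin n) (Fin n) A.A))) := by noncomm_ring
    rw [e7]
    exact e6.sub (((hL g j).mul_right _).add ((hL h j).mul_left _))
  let L' : G →* Matrix (Fin n) (Fin n) A.A := ⟨⟨L, hL1⟩, hLm⟩
  refine ⟨L'.toHomUnits, ?_, ?_⟩
  · intro w
    apply Units.ext
    change L (θ w) = _
    rw [← sub_eq_zero]
    apply hausdorff_of
    intro j
    exact hstar _ w j (by simp)
  · intro j
    refine ⟨V j, hVP j, fun g hg => ?_⟩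
    have h5 : InI (maximalIdeal A.A ^ j) (L g - 1) := by
      have := hstar g 1 j (by simpa using hg)
      simpa using this
    exact h5

end Lifts

end MZEX
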