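import Pool.Agent.W294.MZ.ExM
import Pool.Agent.W505.MZ.ExB
import Pool.Agent.W505.MZ.ExC
import Pool.Agent.W505.MZ.ExW
import Pool.Agent.W505.MZ.ExG
import Pool.Agent.W21.MZ.ExA
import Pool.Agent.W978.MZ.H2
import Pool.Agent.W880.MZ.H3
import Pool.Agent.W413.MZ.H1
import Pool.Agent.W178.MZ.K6

/-!
# MP_aa8fd2_nt, part EX: existence of the universal deformation ring for `p = 2`
-/

set_option autoImplicit false

namespace MZEX

open NumberField IsDedekindDomain MZ

theorem mazur_existence : StmExM :=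
  stmExM Pool.Agent.W21.MZ.exA Pool.Agent.W505.MZ.ExB.main Pool.Agent.W505.MZ.ExC.main
    Pool.Agent.W505.MZ.ExW.main

theorem stmExH : StmExH := Pool.Agent.W880.MZH3.exH MZ413.stmExH1 Pool.Agent.W978.MZH2.stmExH2

theorem stmEx : StmEx := by
  intro F Ω _ _ _ _ _ S hS h2 k _ _ _ n hn ρbar hopen hirr
  haveI : IsGalois F (FSmax S : IntermediateField F Ω) := Pool.Agent.W178.MZK.K7 F Ω S
  exact mazur_existence 2 k (GFS Ω S) n hn ρbar hopen hirr
    (Pool.Agent.W505.MZ.ExG.main (GFS Ω S) ρbar.ker inferInstance hopen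
      (stmExH F Ω S hS h2 ρbar.ker hopen))

end MZEX
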