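import Pool.Agent.W294.MZ.ExCore

/-!
# MP_aa8fd2_nt, part EX: existence of the universal deformation ring
-/

set_option autoImplicit false

namespace MZEX

open IsLocalRing MZ Matrix

section

variable {p : ℕ} [Fact p.Prime] {k : Type} [Field k] [CharP k p] {G : Type} [Group G]
  [TopologicalSpace G] [IsTopologicalGroup G] {n d : ℕ}

lemma map_one_iff (A : CNL p k) (M : GL (Fin n) A.A) :
    InI (maximalIdeal A.A) ((M : Matrix (Fin n) (Fin n) A.A) - 1) ↔
      Matrix.GeneralLinearGroup.map A.res M = 1 := by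
  rw [InI_max_iff]
  constructor
  · intro h
    ext a b
    have h2 := congrFun (congrFun h a) b
    simp only [Matrix.map_apply, Matrix.sub_apply, map_sub, Matrix.zero_apply, sub_eq_zero] at h2
    simp only [Matrix.GeneralLinearGroup.map_apply, h2, Units.val_one]
    by_cases hab : a = b
    · subst hab; simp
    · simp [Matrix.one_apply_ne hab]
  · intro h
    ext a b
    have h2 := congrArg (fun M : GL (Fin n) k => (M : Matrix (Fin n) (Fin n) k) a b) h
    simp only [Matrix.GeneralLinearGroup.map_apply, Units.val_one] at h2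
    simp only [Matrix.map_apply, Matrix.sub_apply, map_sub, Matrix.zero_apply, h2]
    by_cases hab : a = b
    · subst hab; simp
    · simp [Matrix.one_apply_ne hab]

lemma isLift_of {ρbar : G →* GL (Fin n) k} {x : Fin d → G} (hx : Gens p ρbar.ker x) (A : CNL p k)
    (ρ : G →* GL (Fin n) A.A)
    (h : ∀ j : ℕ, ∃ U : Subgroup G, PSub p ρbar.ker U ∧ ∀ g ∈ U,
        InI (maximalIdeal A.A ^ j) ((ρ g : Matrix (Fin n) (Fin n) A.A) - 1))
    (hgen : ∀ w, Matrix.GeneralLinearGroup.map A.res (ρ (FreeGroup.lift x w)) =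
      ρbar (FreeGroup.lift x w)) : IsLift ρbar A ρ := by
  constructor
  · intro g
    obtain ⟨U, hU, hUg⟩ := h 1
    obtain ⟨w, hw⟩ := exists_word hx hU g
    have h1 : g = FreeGroup.lift x w * ((FreeGroup.lift x w)⁻¹ * g) := by group
    have h2 := hUg _ hw
    rw [pow_one, map_one_iff] at h2
    have h3 : ρbar ((FreeGroup.lift x w)⁻¹ * g) = 1 := hU.2.2.1 hw
    rw [h1, map_mul, map_mul, hgen, map_mul ρbar, h3, h2]
  · intro j
    obtain ⟨U, hU, hUg⟩ := h j
    have h1 : U ≤ Nsub ρ (maximalIdeal A.A ^ j) := hUg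
    exact Subgroup.isOpen_mono h1 hU.2.1

lemma Slice.pi_map {r : Fin d → Matrix (Fin n) (Fin n) k} (D : Slice p k n d r) (T A : CNL p k)
    (f : T.A →ₐ[WittVector p k] A.A) (Y : Fin d → Matrix (Fin n) (Fin n) T.A) :
    (D.pi T Y).map f = D.pi A (fun i => (Y i).map f) := by
  ext a b
  simp only [Slice.pi, Matrix.map_apply, Matrix.of_apply, map_sum, map_mul, AlgHom.commutes]

lemma strict_symm {A : CNL p k} {ρ ρ' : G →* GL (Fin n) A.A} (h : StrictEquiv A ρ ρ') :
    StrictEquiv A ρ' ρ := by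
  obtain ⟨M, hM, h⟩ := h
  refine ⟨M⁻¹, by rw [map_inv, hM, inv_one], fun g => ?_⟩
  rw [h g]; group

lemma strict_trans {A : CNL p k} {ρ ρ' ρ'' : G →* GL (Fin n) A.A} (h : StrictEquiv A ρ ρ')
    (h' : StrictEquiv A ρ' ρ'') : StrictEquiv A ρ ρ'' := by
  obtain ⟨M, hM, h⟩ := h
  obtain ⟨M', hM', h'⟩ := h'
  refine ⟨M' * M, by rw [map_mul, hM, hM', mul_one], fun g => ?_⟩
  rw [h' g, h g]; group

lemma isLift_strict {ρbar : G →* GL (Fin n) k} {A : CNL p k} {ρ ρ' : G →* GL (Fin n) A.A}
    (hρ : IsLift ρbar A ρ) (h : StrictEquiv A ρ ρ') : IsLift ρbar A ρ' := by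
  obtain ⟨M, hM, h⟩ := h
  constructor
  · intro g
    rw [h g, map_mul, map_mul, map_inv, hM, hρ.1 g]; simp
  · intro j
    have h1 : Nsub ρ (maximalIdeal A.A ^ j) ≤ Nsub ρ' (maximalIdeal A.A ^ j) := by
      intro g hg
      rw [mem_Nsub] at hg ⊢
      have h2 : (M : Matrix (Fin n) (Fin n) A.A) * ((M⁻¹ : GL (Fin n) A.A)) = 1 := by
        rw [← Units.val_mul, mul_inv_cancel, Units.val_one]
      have h3 : ((ρ' g : Matrix (Fin n) (Fin n) A.A)) - 1 =
          (M : Matrix (Fin n) (Fin n) A.A) * ((ρ g : Matrix (Fin n) (Fin n) A.A) - 1) *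
          ((M⁻¹ : GL (Fin n) A.A) : Matrix (Fin n) (Fin n) A.A) := by
        rw [h g, Units.val_mul, Units.val_mul, mul_sub, sub_mul, mul_one, h2]
      rw [h3]
      exact (hg.mul_left _).mul_right _
    exact Subgroup.isOpen_mono h1 (hρ.2 j)

end

namespace SU

variable {p : ℕ} [Fact p.Prime] {k : Type} [Field k] [CharP k p] {G : Type} [Group G]
  [TopologicalSpace G] [IsTopologicalGroup G] {n d : ℕ} (S : SU p k G n d)

lemma ev_Phi (A : CNL p k) (ρ : G →* GL (Fin n) A.A) (ev : S.T.A →ₐ[WittVector p k] A.A)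
    (hevX : ∀ i, (S.Xm i).map ev = (ρ (S.x i) : Matrix (Fin n) (Fin n) A.A))
    (w : FreeGroup (Fin d)) :
    Matrix.GeneralLinearGroup.map (ev : S.T.A →+* A.A) (S.Phi w) = ρ (S.th w) := by
  have : (Matrix.GeneralLinearGroup.map (ev : S.T.A →+* A.A)).comp S.Phi = ρ.comp S.th := by
    apply FreeGroup.ext_hom
    intro i
    simp only [MonoidHom.comp_apply, Phi, th, FreeGroup.lift_apply_of]
    ext a b
    have := congrFun (congrFun (hevX i) a) b
    simpa [XG_val] using this
  exact DFunLike.congr_fun this w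

lemma good_of_lift (A : CNL p k) (ρ : G →* GL (Fin n) A.A) (hρ : IsLift S.ρbar A ρ)
    (hwp : S.D.WP A (fun i => (ρ (S.x i) : Matrix (Fin n) (Fin n) A.A)))
    (ev : S.T.A →ₐ[WittVector p k] A.A)
    (hev : ∀ t ∈ maximalIdeal S.T.A, ev t ∈ maximalIdeal A.A)
    (hevX : ∀ i, (S.Xm i).map ev = (ρ (S.x i) : Matrix (Fin n) (Fin n) A.A)) (j : ℕ) :
    S.Good ((maximalIdeal A.A ^ (j + 1)).comap (ev : S.T.A →+* A.A)) := by
  have hle : maximalIdeal A.A ^ (j + 1) ≤ maximalIdeal A.A := Ideal.pow_le_self (by omega)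
  refine ⟨?_, ⟨j + 1, fun t ht => alg_pow ev hev (j + 1) t ht⟩,
    ⟨Nsub ρ (maximalIdeal A.A ^ (j + 1)), lift_psub hρ j, ?_⟩, ?_⟩
  · apply IsLocalRing.le_maximalIdeal
    intro h
    have h1 : (1 : S.T.A) ∈ (maximalIdeal A.A ^ (j + 1)).comap (ev : S.T.A →+* A.A) := by
      rw [h]; trivial
    rw [Ideal.mem_comap, map_one] at h1
    exact (IsLocalRing.maximalIdeal.isMaximal A.A).ne_top ((Ideal.eq_top_iff_one _).2 (hle h1))
  · intro w hw a b
    rw [mem_Nsub, ← S.ev_Phi A ρ ev hevX w] at hw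
    have h1 := hw a b
    rw [Ideal.mem_comap]
    have h2 : (ev : S.T.A →+* A.A) (((S.Phi w : Matrix (Fin n) (Fin n) S.T.A) - 1) a b) =
        ((Matrix.GeneralLinearGroup.map (ev : S.T.A →+* A.A) (S.Phi w) :
          Matrix (Fin n) (Fin n) A.A) - 1) a b := by
      rw [Matrix.sub_apply, map_sub, Matrix.sub_apply, Matrix.GeneralLinearGroup.map_apply]
      congr 1
      by_cases hab : a = b
      · subst hab; simp
      · simp [Matrix.one_apply_ne hab]
    rw [h2]
    exact h1
  · intro a b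
    rw [Ideal.mem_comap]
    have h1 : (S.D.pi S.T S.V).map ev = 0 := by
      rw [Slice.pi_map, ← hwp]
      congr 1
      funext i
      beta_reduce
      rw [← hevX i]
      ext a b
      simp [Xm]
    have h2 : (ev : S.T.A →+* A.A) (S.D.pi S.T S.V a b) = 0 := congrFun (congrFun h1 a) b
    rw [h2]
    exact Ideal.zero_mem _

theorem exists_universal (hB : StmExB) :
    ∃ (R : CNL p k) (ρu : G →* GL (Fin n) R.A), IsUniversal S.ρbar R ρu := by
  classical
  choose I hIgood hIle hImin using S.exists_least hB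
  have hI1 : ∀ m, I (m + 1) ≤ I m := fun m =>
    hImin (m + 1) (I m) (hIgood m) ((Ideal.pow_le_pow_right (by omega)).trans (hIle m))
  have hI2 : ∀ m, I m ≤ I (m + 1) ⊔ maximalIdeal S.T.A ^ (m + 1) := by
    intro m
    apply hImin m
    · exact (hIgood (m + 1)).mono le_sup_left
        (sup_le (hIgood (m + 1)).le (Ideal.pow_le_self (by omega)))
    · exact le_sup_right
  set K := ⨅ j, I j with hK
  have hKI : ∀ m, I m ≤ K ⊔ maximalIdeal S.T.A ^ (m + 1) := chev S.T I hIle hI1 hI2
  have hKm : K ≤ maximalIdeal S.T.A := (iInf_le I 0).trans (hIgood 0).le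
  have hKt : K ≠ ⊤ := by
    intro h
    exact (IsLocalRing.maximalIdeal.isMaximal S.T.A).ne_top (top_le_iff.1 (h ▸ hKm))
  obtain ⟨l1, l2, l3⟩ := hB S.T.A K hKt
  let resR : S.T.A ⧸ K →+* k := Ideal.Quotient.lift K S.T.res (fun a ha => (mem_max_iff S.T a).1 (hKm ha))
  let R : CNL p k :=
    { A := S.T.A ⧸ K
      isLocal := l1
      complete := l2
      res := resR
      res_surj := by
        intro c
        obtain ⟨t, ht⟩ := S.T.res_surj c
        exact ⟨Ideal.Quotient.mk K t, by simpa [resR] using ht⟩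
      res_coeff := by
        intro c
        change resR (Ideal.Quotient.mk K (algebraMap (WittVector p k) S.T.A c)) = _
        rw [Ideal.Quotient.lift_mk]
        exact S.T.res_coeff c }
  let q : S.T.A →ₐ[WittVector p k] R.A := Ideal.Quotient.mkₐ (WittVector p k) K
  have hq : ∀ t, q t = Ideal.Quotient.mk K t := fun t => rfl
  have hqsurj : Function.Surjective q := Ideal.Quotient.mk_surjective
  have hqres : ∀ t, R.res (q t) = S.T.res t := fun t => by
    change resR (Ideal.Quotient.mk K t) = _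
    simp [resR]
  have hqloc : ∀ t ∈ maximalIdeal S.T.A, q t ∈ maximalIdeal R.A := by
    intro t ht
    rw [mem_max_iff, hqres, ← mem_max_iff]; exact ht
  have hqI : ∀ m, ∀ t ∈ I m, q t ∈ maximalIdeal R.A ^ (m + 1) := by
    intro m t ht
    obtain ⟨u, hu, v, hv, rfl⟩ := Submodule.mem_sup.1 (hKI m ht)
    rw [map_add]
    have : q u = 0 := by rw [hq]; exact Ideal.Quotient.eq_zero_iff_mem.2 hu
    rw [this, zero_add]
    exact alg_pow q hqloc _ _ hv
  have hqmap : ∀ (J : Ideal S.T.A) (m : ℕ) (B : Matrix (Fin n) (Fin n) S.T.A), J ≤ I m → InI J B →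
      InI (maximalIdeal R.A ^ (m + 1)) (B.map q) := by
    intro J m B hJ hB a b
    rw [Matrix.map_apply]
    exact hqI m _ (hJ (hB a b))
  let PhiR : FreeGroup (Fin d) →* GL (Fin n) R.A :=
    (Matrix.GeneralLinearGroup.map (q : S.T.A →+* R.A)).comp S.Phi
  have hPhiR : ∀ w, ((PhiR w : Matrix (Fin n) (Fin n) R.A) - 1) =
      ((S.Phi w : Matrix (Fin n) (Fin n) S.T.A) - 1).map q := by
    intro w
    ext a b
    rw [Matrix.map_apply, Matrix.sub_apply, Matrix.sub_apply, map_sub]
    change q ((S.Phi w : Matrix (Fin n) (Fin n) S.T.A) a b) - _ = _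
    congr 1
    by_cases hab : a = b
    · subst hab; simp
    · simp [Matrix.one_apply_ne hab]
  obtain ⟨ρu, hρu1, hρu2⟩ := extension S.hx R PhiR (by
    intro j
    obtain ⟨U, hU, hUw⟩ := (hIgood j).rep
    refine ⟨U, hU, fun w hw => ?_⟩
    rw [hPhiR]
    exact (hqmap (I j) j _ le_rfl (hUw w hw)).mono (Ideal.pow_le_pow_right (by omega)))
  have hρuw : ∀ w, Matrix.GeneralLinearGroup.map R.res (ρu (FreeGroup.lift S.x w)) =
      S.ρbar (FreeGroup.lift S.x w) := by
    intro w
    rw [hρu1]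
    have h1 := S.Phi_res w
    rw [show FreeGroup.lift S.x w = S.th w from rfl, ← h1]
    ext a b
    change R.res (q ((S.Phi w : Matrix (Fin n) (Fin n) S.T.A) a b)) = _
    rw [hqres]
    rfl
  have hlift : IsLift S.ρbar R ρu := isLift_of S.hx R ρu hρu2 hρuw
  have hρux : ∀ i, (ρu (S.x i) : Matrix (Fin n) (Fin n) R.A) = (S.Xm i).map q := by
    intro i
    have h1 := hρu1 (FreeGroup.of i)
    rw [FreeGroup.lift_apply_of] at h1
    rw [h1]
    ext a b
    change q ((S.Phi (FreeGroup.of i) : Matrix (Fin n) (Fin n) S.T.A) a b) = _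
    rw [Phi, FreeGroup.lift_apply_of, XG_val]
    rfl
  have hVK : (S.D.pi S.T S.V).map q = 0 := by
    ext a b
    rw [Matrix.map_apply, hq, Matrix.zero_apply, Ideal.Quotient.eq_zero_iff_mem, hK,
      Submodule.mem_iInf]
    intro j
    exact (hIgood j).wp a b
  have hWPu : S.D.WP R (fun i => (ρu (S.x i) : Matrix (Fin n) (Fin n) R.A)) := by
    unfold Slice.WP
    rw [← hVK, Slice.pi_map]
    congr 1
    funext i
    beta_reduce
    rw [hρux i]
    ext a b
    simp [Xm]
  refine ⟨R, ρu, hlift, ?_⟩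
  intro A ρ hρ
  -- move `ρ` into the slice
  obtain ⟨M, hM, hMwp⟩ := S.D.exists_wp A (fun i => ρ (S.x i)) (by
    intro i
    have := hρ.1 (S.x i)
    ext a b
    have h2 := congrArg (fun M : GL (Fin n) k => (M : Matrix (Fin n) (Fin n) k) a b) this
    simpa using h2)
  let ρ' : G →* GL (Fin n) A.A := (MulAut.conj M).toMonoidHom.comp ρ
  have hρ'g : ∀ g, ρ' g = M * ρ g * M⁻¹ := fun g => rfl
  have hstr : StrictEquiv A ρ ρ' := ⟨M, hM, hρ'g⟩
  have hρ' : IsLift S.ρbar A ρ' := isLift_strict hρ hstr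
  have hwp' : S.D.WP A (fun i => (ρ' (S.x i) : Matrix (Fin n) (Fin n) A.A)) := hMwp
  have hres' : ∀ i, (ρ' (S.x i) : Matrix (Fin n) (Fin n) A.A).map A.res =
      (S.ρbar (S.x i) : Matrix (Fin n) (Fin n) k) := by
    intro i
    have := hρ'.1 (S.x i)
    ext a b
    have h2 := congrArg (fun M : GL (Fin n) k => (M : Matrix (Fin n) (Fin n) k) a b) this
    simpa using h2
  obtain ⟨ev, hevs, hevl⟩ := S.hT.ex A (fun s => ((ρ' (S.x s.1) : Matrix (Fin n) (Fin n) A.A) -
    (S.D.A0 s.1).map (algebraMap (WittVector p k) A.A)) s.2.1 s.2.2) (by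
      rintro ⟨i, a, b⟩
      rw [mem_max_iff, Matrix.sub_apply, map_sub, Matrix.map_apply, A.res_coeff, S.D.hA0]
      have h2 := congrFun (congrFun (hres' i) a) b
      rw [Matrix.map_apply] at h2
      rw [h2, sub_self])
  have hevX : ∀ i, (S.Xm i).map ev = (ρ' (S.x i) : Matrix (Fin n) (Fin n) A.A) := by
    intro i
    ext a b
    have h1 := hevs (i, a, b)
    simp only [Xm, Matrix.map_apply, Matrix.add_apply, map_add, AlgHom.commutes]
    have h2 : ev (S.V i a b) = ev (S.X (i, a, b)) := rfl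
    rw [h2, h1, Matrix.sub_apply, Matrix.map_apply]
    ring
  have hKev : ∀ t ∈ K, ev t = 0 := by
    intro t ht
    apply IsHausdorff.haus (I := maximalIdeal A.A) (M := A.A) inferInstance
    intro j
    rw [SModEq.zero]
    have h1 := hImin j _ (S.good_of_lift A ρ' hρ' hwp' ev hevl hevX j)
      (fun t ht => alg_pow ev hevl (j + 1) t ht)
    have h2 : t ∈ I j := (Submodule.mem_iInf _).1 ht j
    have h3 : ev t ∈ maximalIdeal A.A ^ (j + 1) := h1 h2
    have h4 := Ideal.pow_le_pow_right (show j ≤ j + 1 by omega) h3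
    simpa using h4
  let f : R.A →ₐ[WittVector p k] A.A := Ideal.Quotient.liftₐ K ev hKev
  have hfq : ∀ t, f (q t) = ev t := fun t => by
    change Ideal.Quotient.liftₐ K ev hKev (Ideal.Quotient.mk K t) = _
    simp
  have hfres : ∀ y, A.res (f y) = R.res y := by
    intro y
    obtain ⟨t, rfl⟩ := hqsurj y
    rw [hfq, hqres, alg_local_res ev hevl]
  have hfρ : (Matrix.GeneralLinearGroup.map (f : R.A →+* A.A)).comp ρu = ρ' := by
    apply MonoidHom.ext
    intro g
    apply Units.ext
    rw [← sub_eq_zero]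
    apply hausdorff_of
    intro j
    obtain ⟨U, hU, hUg⟩ := hρu2 j
    have hU' := lift_psub hρ' j
    obtain ⟨w, hw⟩ := exists_word S.hx (hU.inf hU') g
    have hf_loc : ∀ t ∈ maximalIdeal R.A, f t ∈ maximalIdeal A.A := by
      intro t ht
      rw [mem_max_iff, hfres, ← mem_max_iff]; exact ht
    set u := (FreeGroup.lift S.x w)⁻¹ * g with hu
    have hg : g = FreeGroup.lift S.x w * u := by rw [hu]; group
    have e1 : InI (maximalIdeal A.A ^ j)
        (((Matrix.GeneralLinearGroup.map (f : R.A →+* A.A)) (ρu u) :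
          Matrix (Fin n) (Fin n) A.A) - 1) := by
      intro a b
      have h1 := alg_pow f hf_loc j _ (hUg u hw.1 a b)
      rw [Matrix.sub_apply, map_sub] at h1
      rw [Matrix.sub_apply, Matrix.GeneralLinearGroup.map_apply]
      have h2 : f ((1 : Matrix (Fin n) (Fin n) R.A) a b) = (1 : Matrix (Fin n) (Fin n) A.A) a b := by
        by_cases hab : a = b
        · subst hab; simp
        · simp [Matrix.one_apply_ne hab]
      rw [h2] at h1
      exact h1
    have e2 : InI (maximalIdeal A.A ^ j) ((ρ' u : Matrix (Fin n) (Fin n) A.A) - 1) :=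
      InI.mono hw.2 (Ideal.pow_le_pow_right (by omega))
    have e3 : (Matrix.GeneralLinearGroup.map (f : R.A →+* A.A)) (ρu (FreeGroup.lift S.x w)) =
        ρ' (FreeGroup.lift S.x w) := by
      rw [hρu1]
      have h1 := S.ev_Phi A ρ' ev hevX w
      rw [show FreeGroup.lift S.x w = S.th w from rfl, ← h1]
      ext a b
      change f (q ((S.Phi w : Matrix (Fin n) (Fin n) S.T.A) a b)) = _
      rw [hfq]
      rfl
    rw [MonoidHom.comp_apply, hg, map_mul, map_mul, map_mul ρ', e3, Units.val_mul, Units.val_mul,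
      ← mul_sub]
    apply InI.mul_left
    have e4 : (((Matrix.GeneralLinearGroup.map (f : R.A →+* A.A)) (ρu u) :
          Matrix (Fin n) (Fin n) A.A)) - (ρ' u : Matrix (Fin n) (Fin n) A.A) =
        (((Matrix.GeneralLinearGroup.map (f : R.A →+* A.A)) (ρu u) :
          Matrix (Fin n) (Fin n) A.A) - 1) - ((ρ' u : Matrix (Fin n) (Fin n) A.A) - 1) := by abel
    rw [e4]
    exact e1.sub e2
  refine ⟨f, ⟨hfres, ?_⟩, ?_⟩
  · change StrictEquiv A ((Matrix.GeneralLinearGroup.map (f : R.A →+* A.A)).comp ρu) ρ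
    rw [hfρ]
    exact strict_symm hstr
  · rintro f2 ⟨hf2res, hf2str⟩
    have hf2loc : ∀ t ∈ maximalIdeal R.A, f2 t ∈ maximalIdeal A.A := by
      intro t ht
      rw [mem_max_iff, hf2res, ← mem_max_iff]; exact ht
    have hf_loc : ∀ t ∈ maximalIdeal R.A, f t ∈ maximalIdeal A.A := by
      intro t ht
      rw [mem_max_iff, hfres, ← mem_max_iff]; exact ht
    set ρ2 : G →* GL (Fin n) A.A := (Matrix.GeneralLinearGroup.map (f2 : R.A →+* A.A)).comp ρu
      with hρ2
    obtain ⟨N, hN, hNg⟩ := strict_trans hf2str hstr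
    -- `ρ2` is in the slice
    have hρ2x : ∀ i, (ρ2 (S.x i) : Matrix (Fin n) (Fin n) A.A) =
        ((ρu (S.x i) : Matrix (Fin n) (Fin n) R.A)).map f2 := fun i => rfl
    have hwp2 : S.D.WP A (fun i => (ρ2 (S.x i) : Matrix (Fin n) (Fin n) A.A)) := by
      have h1 : (S.D.pi R (fun i => (ρu (S.x i) : Matrix (Fin n) (Fin n) R.A) -
          (S.D.A0 i).map (algebraMap (WittVector p k) R.A))).map f2 = 0 := by
        unfold Slice.WP at hWPu
        rw [hWPu]
        ext a b; simp
      unfold Slice.WP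
      rw [← h1, Slice.pi_map]
      congr 1
      funext i
      beta_reduce
      rw [hρ2x i]
      ext a b
      simp
    have hres2 : ∀ i, (ρ2 (S.x i) : Matrix (Fin n) (Fin n) A.A).map A.res =
        (S.ρbar (S.x i) : Matrix (Fin n) (Fin n) k) := by
      intro i
      rw [hρ2x i, hρux i]
      ext a b
      rw [Matrix.map_apply, Matrix.map_apply, Matrix.map_apply, hf2res, hqres]
      exact congrFun (congrFun (S.Xm_res i) a) b
    have hNm : (N : Matrix (Fin n) (Fin n) A.A).map A.res = 1 := by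
      ext a b
      have h2 := congrArg (fun M : GL (Fin n) k => (M : Matrix (Fin n) (Fin n) k) a b) hN
      simpa using h2
    obtain ⟨c, hc, hNc⟩ := S.D.unique_wp A (fun i => (ρ2 (S.x i) : Matrix (Fin n) (Fin n) A.A))
      (fun i => (ρ' (S.x i) : Matrix (Fin n) (Fin n) A.A)) hres2 N hNm (by
        intro i
        have h1 := hNg (S.x i)
        have h2 : ρ' (S.x i) * N = N * ρ2 (S.x i) := by rw [h1]; group
        have h3 := congrArg (fun M : GL (Fin n) A.A => (M : Matrix (Fin n) (Fin n) A.A)) h2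
        simp only [Units.val_mul] at h3
        exact h3.symm) hwp2 hwp'
    have heq : ∀ i, (ρ2 (S.x i) : Matrix (Fin n) (Fin n) A.A) =
        (ρ' (S.x i) : Matrix (Fin n) (Fin n) A.A) := by
      intro i
      have h1 := hNg (S.x i)
      have h2 : ρ' (S.x i) * N = N * ρ2 (S.x i) := by rw [h1]; group
      have h3 := congrArg (fun M : GL (Fin n) A.A => (M : Matrix (Fin n) (Fin n) A.A)) h2
      simp only [Units.val_mul, hNc] at h3
      rw [Matrix.mul_smul, Matrix.smul_mul, mul_one, one_mul] at h3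
      obtain ⟨u, hu⟩ := hc
      have h4 := congrArg (fun B => ((u⁻¹ : A.Aˣ) : A.A) • B) h3
      simp only [smul_smul, ← hu, Units.inv_mul, one_smul] at h4
      exact h4.symm
    have hcomp : f2.comp q = f.comp q := by
      apply S.hT.uniq A
      · rintro ⟨i, a, b⟩
        have h1 := congrFun (congrFun (heq i) a) b
        have h2 : (ρ' (S.x i) : Matrix (Fin n) (Fin n) A.A) a b =
            (((Matrix.GeneralLinearGroup.map (f : R.A →+* A.A)).comp ρu) (S.x i) :
              Matrix (Fin n) (Fin n) A.A) a b := by rw [hfρ]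
        rw [h2] at h1
        have h3 : f2 ((ρu (S.x i) : Matrix (Fin n) (Fin n) R.A) a b) =
            f ((ρu (S.x i) : Matrix (Fin n) (Fin n) R.A) a b) := h1
        rw [hρux i] at h3
        simp only [Xm, Matrix.map_apply, Matrix.add_apply, map_add, AlgHom.commutes] at h3
        exact add_left_cancel h3
      · intro t ht
        exact hf2loc _ (hqloc t ht)
      · intro t ht
        exact hf_loc _ (hqloc t ht)
    apply AlgHom.ext
    intro y
    obtain ⟨t, rfl⟩ := hqsurj y
    exact DFunLike.congr_fun hcomp t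

end SU

/-- EX-M, Mazur's existence theorem. -/
theorem stmExM (hA : StmExA) (hB : StmExB) (hC : StmExC) (hW : StmExW) : StmExM := by
  intro p _ k _ _ _ G _ _ _ n hn ρbar hopen hρ hgen
  obtain ⟨d, x, hx⟩ := hgen
  let i0 : Fin n := ⟨0, hn⟩
  have hker : PSub p ρbar.ker ρbar.ker :=
    ⟨inferInstance, hopen, le_rfl, fun g hg => ⟨0, by simpa using hg⟩⟩
  obtain ⟨D⟩ := exists_slice (p := p) i0 (fun i => (ρbar (x i) : Matrix (Fin n) (Fin n) k)) (by
    intro B hB
    apply schur ρbar hρ
    intro g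
    obtain ⟨w, hw⟩ := exists_word hx hker g
    have h1 : ρbar g = ρbar (FreeGroup.lift x w) := by
      have : g = FreeGroup.lift x w * ((FreeGroup.lift x w)⁻¹ * g) := by group
      rw [this, map_mul, hw, mul_one]
    rw [h1]
    -- the centraliser of `B`
    have h2 : ∀ w : FreeGroup (Fin d), B * (ρbar (FreeGroup.lift x w) : Matrix (Fin n) (Fin n) k) =
        (ρbar (FreeGroup.lift x w) : Matrix (Fin n) (Fin n) k) * B := by
      intro w
      induction w using FreeGroup.induction_on with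
      | C1 => simp
      | of i => rw [FreeGroup.lift_apply_of]; exact hB i
      | inv_of i _ =>
        rw [map_inv, map_inv, FreeGroup.lift_apply_of]
        have h3 := hB i
        have h4 : (ρbar (x i) : Matrix (Fin n) (Fin n) k) *
          (((ρbar (x i))⁻¹ : GL (Fin n) k) : Matrix (Fin n) (Fin n) k) = 1 := by
          rw [← Units.val_mul, mul_inv_cancel, Units.val_one]
        have h5 : (((ρbar (x i))⁻¹ : GL (Fin n) k) : Matrix (Fin n) (Fin n) k) *
          (ρbar (x i) : Matrix (Fin n) (Fin n) k) = 1 := by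
          rw [← Units.val_mul, inv_mul_cancel, Units.val_one]
        calc B * (((ρbar (x i))⁻¹ : GL (Fin n) k) : Matrix (Fin n) (Fin n) k)
            = (((ρbar (x i))⁻¹ : GL (Fin n) k) : Matrix (Fin n) (Fin n) k) *
              ((ρbar (x i) : Matrix (Fin n) (Fin n) k) * B) *
              (((ρbar (x i))⁻¹ : GL (Fin n) k) : Matrix (Fin n) (Fin n) k) := by
              rw [← mul_assoc, h5, one_mul]
          _ = (((ρbar (x i))⁻¹ : GL (Fin n) k) : Matrix (Fin n) (Fin n) k) * B := by
              rw [← h3, mul_assoc, mul_assoc, h4, mul_one]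
      | mul a b ha hb =>
        rw [map_mul, map_mul, Units.val_mul, ← mul_assoc, ha, mul_assoc, hb, mul_assoc]
    exact h2 w)
  obtain ⟨T, X, hT⟩ := exists_PS (p := p) (k := k) hA hC hW (Fin d × Fin n × Fin n)
  exact SU.exists_universal ⟨ρbar, hopen, x, hx, D, T, X, hT⟩ hB

end MZEX
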