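import Pool.Agent.W294.MZ.ExStmts

/-!
# MP_aa8fd2_nt, part EX: the slice
-/

set_option autoImplicit false

namespace MZEX

open IsLocalRing MZ Matrix

/-- all entries in an ideal -/
def InI {A : Type} [CommRing A] {n : ℕ} (I : Ideal A) (B : Matrix (Fin n) (Fin n) A) : Prop :=
  ∀ a b, B a b ∈ I

section InI
variable {A : Type} [CommRing A] {n : ℕ} {I J : Ideal A} {B B' : Matrix (Fin n) (Fin n) A}

lemma InI.add (h : InI I B) (h' : InI I B') : InI I (B + B') := fun a b => I.add_mem (h a b) (h' a b)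
lemma InI.sub (h : InI I B) (h' : InI I B') : InI I (B - B') := fun a b => I.sub_mem (h a b) (h' a b)
lemma InI.neg (h : InI I B) : InI I (-B) := fun a b => I.neg_mem (h a b)
lemma InI.mul_right (h : InI I B) (M : Matrix (Fin n) (Fin n) A) : InI I (B * M) := fun a b => by
  rw [Matrix.mul_apply]
  exact I.sum_mem fun c _ => I.mul_mem_right _ (h a c)
lemma InI.mul_left (h : InI I B) (M : Matrix (Fin n) (Fin n) A) : InI I (M * B) := fun a b => by
  rw [Matrix.mul_apply]
  exact I.sum_mem fun c _ => I.mul_mem_left _ (h c b)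
lemma InI.mul (h : InI I B) (h' : InI J B') : InI (I * J) (B * B') := fun a b => by
  rw [Matrix.mul_apply]
  exact (I * J).sum_mem fun c _ => Ideal.mul_mem_mul (h a c) (h' c b)
lemma InI.smul (h : InI I B) (c : A) : InI I (c • B) := fun a b => by
  rw [Matrix.smul_apply, smul_eq_mul]
  exact I.mul_mem_left _ (h a b)
lemma InI.mono (h : InI I B) (hIJ : I ≤ J) : InI J B := fun a b => hIJ (h a b)
lemma InI.zero : InI I (0 : Matrix (Fin n) (Fin n) A) := fun _ _ => I.zero_mem

end InI

section Basic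

variable {p : ℕ} [Fact p.Prime] {k : Type} [Field k] [CharP k p]

lemma mem_max_iff (A : CNL p k) (x : A.A) : x ∈ maximalIdeal A.A ↔ A.res x = 0 := by
  have h1 : (RingHom.ker A.res).IsMaximal := RingHom.ker_isMaximal_of_surjective A.res A.res_surj
  have h2 := IsLocalRing.eq_maximalIdeal h1
  rw [← h2, RingHom.mem_ker]

lemma isUnit_iff (A : CNL p k) (x : A.A) : IsUnit x ↔ A.res x ≠ 0 := by
  rw [Ne, ← mem_max_iff, IsLocalRing.mem_maximalIdeal, mem_nonunits_iff, not_not]

lemma InI_max_iff (A : CNL p k) {n : ℕ} (B : Matrix (Fin n) (Fin n) A.A) :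
    InI (maximalIdeal A.A) B ↔ B.map A.res = 0 := by
  constructor
  · intro h
    ext a b
    simpa using (mem_max_iff A _).1 (h a b)
  · intro h a b
    rw [mem_max_iff]
    have := congrFun (congrFun h a) b
    simpa using this

/-- invertible lift of a matrix with reduction `1` -/
noncomputable def toGL (A : CNL p k) {n : ℕ} (M : Matrix (Fin n) (Fin n) A.A)
    (h : IsUnit (M.map A.res).det) : GL (Fin n) A.A :=
  Matrix.GeneralLinearGroup.mk'' M (by
    rw [isUnit_iff A, RingHom.map_det]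
    exact h.ne_zero)

@[simp] lemma toGL_val (A : CNL p k) {n : ℕ} (M : Matrix (Fin n) (Fin n) A.A)
    (h : IsUnit (M.map A.res).det) : (toGL A M h : Matrix (Fin n) (Fin n) A.A) = M := rfl

lemma hausdorff_of (A : CNL p k) {n : ℕ} (B : Matrix (Fin n) (Fin n) A.A)
    (h : ∀ j, InI (maximalIdeal A.A ^ j) B) : B = 0 := by
  ext a b
  apply IsHausdorff.haus (I := maximalIdeal A.A) (M := A.A) inferInstance
  intro j
  rw [SModEq.zero]
  have := h j a b
  simpa using this

lemma exists_lim (A : CNL p k) {n : ℕ} (M : ℕ → Matrix (Fin n) (Fin n) A.A)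
    (h : ∀ j, InI (maximalIdeal A.A ^ j) (M (j + 1) - M j)) :
    ∃ L : Matrix (Fin n) (Fin n) A.A, ∀ j, InI (maximalIdeal A.A ^ j) (L - M j) := by
  have key : ∀ i j, i ≤ j → InI (maximalIdeal A.A ^ i) (M j - M i) := by
    intro i j hij
    induction j, hij using Nat.le_induction with
    | base => rw [sub_self]; exact InI.zero
    | succ j hij ih =>
      have : M (j + 1) - M i = (M (j + 1) - M j) + (M j - M i) := by abel
      rw [this]
      exact ((h j).mono (Ideal.pow_le_pow_right hij)).add ih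
  have h2 : ∀ a b, ∃ l : A.A, ∀ j, l - M j a b ∈ maximalIdeal A.A ^ j := by
    intro a b
    have := IsPrecomplete.prec (I := maximalIdeal A.A) (M := A.A) inferInstance
      (f := fun j => M j a b) (by
        intro i j hij
        rw [SModEq.sub_mem]
        have h5 := key i j hij a b
        have h6 : M i a b - M j a b = -((M j - M i) a b) := by rw [Matrix.sub_apply]; ring
        rw [h6]
        have h7 := (Ideal.neg_mem_iff _).2 h5
        simpa using h7)
    obtain ⟨l, hl⟩ := this
    refine ⟨l, fun j => ?_⟩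
    have := hl j
    rw [SModEq.sub_mem] at this
    have h3 : l - M j a b = -(M j a b - l) := by ring
    rw [h3]
    refine Ideal.neg_mem_iff _ |>.2 ?_
    simpa using this
  choose l hl using h2
  exact ⟨Matrix.of l, fun j a b => by simpa using hl a b j⟩

end Basic


section Slice

variable {p : ℕ} [Fact p.Prime] {k : Type} [Field k] [CharP k p] {n d : ℕ}

/-- The slice data: lifts of the matrices `ρbar (x i)` and a linear map. -/
structure Slice (p : ℕ) [Fact p.Prime] (k : Type) [Field k] [CharP k p] (n d : ℕ)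
    (r : Fin d → Matrix (Fin n) (Fin n) k) where
  i0 : Fin n
  A0 : Fin d → Matrix (Fin n) (Fin n) (WittVector p k)
  hA0 : ∀ i a b, (A0 i a b).coeff 0 = r i a b
  C : Fin n → Fin n → Fin d → Fin n → Fin n → WittVector p k
  hC0 : ∀ i c e, C i0 i0 i c e = 0
  hC : ∀ (B : Matrix (Fin n) (Fin n) k) (a b : Fin n),
    ∑ i, ∑ c, ∑ e, (C a b i c e).coeff 0 * (B * r i - r i * B) c e =
      (B - B i0 i0 • (1 : Matrix (Fin n) (Fin n) k)) a b

variable {r : Fin d → Matrix (Fin n) (Fin n) k} (D : Slice p k n d r) (A : CNL p k)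

/-- the slice map -/
noncomputable def Slice.pi (Y : Fin d → Matrix (Fin n) (Fin n) A.A) : Matrix (Fin n) (Fin n) A.A :=
  Matrix.of fun a b => ∑ i, ∑ c, ∑ e, algebraMap (WittVector p k) A.A (D.C a b i c e) * Y i c e

lemma Slice.pi_add (Y Y' : Fin d → Matrix (Fin n) (Fin n) A.A) :
    D.pi A (fun i => Y i + Y' i) = D.pi A Y + D.pi A Y' := by
  ext a b
  simp only [Slice.pi, Matrix.of_apply, Matrix.add_apply, mul_add, Finset.sum_add_distrib]

lemma Slice.pi_smul (c : A.A) (Y : Fin d → Matrix (Fin n) (Fin n) A.A) :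
    D.pi A (fun i => c • Y i) = c • D.pi A Y := by
  ext a b
  simp only [Slice.pi, Matrix.of_apply, Matrix.smul_apply, smul_eq_mul, Finset.mul_sum]
  refine Finset.sum_congr rfl fun i _ => Finset.sum_congr rfl fun c' _ =>
    Finset.sum_congr rfl fun e _ => by ring

lemma Slice.pi_sub (Y Y' : Fin d → Matrix (Fin n) (Fin n) A.A) :
    D.pi A (fun i => Y i - Y' i) = D.pi A Y - D.pi A Y' := by
  ext a b
  simp only [Slice.pi, Matrix.of_apply, Matrix.sub_apply, mul_sub, Finset.sum_sub_distrib]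

lemma Slice.pi_sum {ι : Type} (s : Finset ι) (Y : ι → Fin d → Matrix (Fin n) (Fin n) A.A) :
    D.pi A (fun i => ∑ j ∈ s, Y j i) = ∑ j ∈ s, D.pi A (Y j) := by
  classical
  induction s using Finset.induction_on with
  | empty =>
    ext a b
    simp [Slice.pi]
  | insert j s hj ih =>
    simp only [Finset.sum_insert hj]
    rw [Slice.pi_add, ih]

lemma Slice.pi_mem (I : Ideal A.A) (Y : Fin d → Matrix (Fin n) (Fin n) A.A)
    (h : ∀ i, InI I (Y i)) : InI I (D.pi A Y) := by
  intro a b
  simp only [Slice.pi, Matrix.of_apply]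
  exact I.sum_mem fun i _ => I.sum_mem fun c _ => I.sum_mem fun e _ => I.mul_mem_left _ (h i c e)

lemma Slice.pi_i0 (Y : Fin d → Matrix (Fin n) (Fin n) A.A) : D.pi A Y D.i0 D.i0 = 0 := by
  simp [Slice.pi, D.hC0]

/-- the key congruence -/
lemma Slice.key (T : Fin d → Matrix (Fin n) (Fin n) A.A) (hT : ∀ i, (T i).map A.res = r i)
    (j : ℕ) (B : Matrix (Fin n) (Fin n) A.A) (hB : InI (maximalIdeal A.A ^ j) B) :
    InI (maximalIdeal A.A ^ (j + 1)) (D.pi A (fun i => B * T i - T i * B) -
      (B - B D.i0 D.i0 • (1 : Matrix (Fin n) (Fin n) A.A))) := by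
  classical
  -- linearity
  set L : Matrix (Fin n) (Fin n) A.A → Matrix (Fin n) (Fin n) A.A := fun B =>
    D.pi A (fun i => B * T i - T i * B) - (B - B D.i0 D.i0 • (1 : Matrix (Fin n) (Fin n) A.A))
    with hL
  have hLm : ∀ B, InI (maximalIdeal A.A) (L B) := by
    intro B
    rw [InI_max_iff]
    ext a b
    simp only [hL, Matrix.map_apply, Matrix.sub_apply, Matrix.smul_apply, map_sub, Matrix.zero_apply,
      Slice.pi, Matrix.of_apply, map_sum, map_mul, A.res_coeff, smul_eq_mul]
    have h1 := D.hC (B.map A.res) a b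
    have h2 : ∀ i c e, (B.map A.res * r i - r i * B.map A.res) c e =
        A.res ((B * T i) c e) - A.res ((T i * B) c e) := by
      intro i c e
      rw [← hT i, Matrix.sub_apply, ← Matrix.map_mul, ← Matrix.map_mul, Matrix.map_apply,
        Matrix.map_apply]
    simp only [h2] at h1
    rw [h1]
    simp only [Matrix.sub_apply, Matrix.smul_apply, Matrix.map_apply, smul_eq_mul]
    by_cases hab : a = b
    · subst hab; simp
    · simp [Matrix.one_apply_ne hab]
  have hLadd : ∀ (s : Finset (Fin n × Fin n)) (c : Fin n × Fin n → A.A)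
      (E : Fin n × Fin n → Matrix (Fin n) (Fin n) A.A),
      L (∑ t ∈ s, c t • E t) = ∑ t ∈ s, c t • L (E t) := by
    intro s c E
    induction s using Finset.induction_on with
    | empty =>
      simp only [Finset.sum_empty, hL, Matrix.zero_mul, Matrix.mul_zero, sub_zero,
        Matrix.zero_apply, zero_smul]
      have := D.pi_sum A (∅ : Finset ℕ) (fun _ _ => 0)
      simpa using this
    | insert t s ht ih =>
      rw [Finset.sum_insert ht, Finset.sum_insert ht, ← ih]
      simp only [hL]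
      have h3 : D.pi A (fun i => (c t • E t + ∑ t ∈ s, c t • E t) * T i -
          T i * (c t • E t + ∑ t ∈ s, c t • E t)) =
          c t • D.pi A (fun i => E t * T i - T i * E t) +
          D.pi A (fun i => (∑ t ∈ s, c t • E t) * T i - T i * ∑ t ∈ s, c t • E t) := by
        rw [← D.pi_smul, ← D.pi_add]
        congr 1
        funext i
        rw [add_mul, mul_add, smul_sub, Matrix.smul_mul, Matrix.mul_smul]
        abel
      rw [h3, smul_sub, smul_sub, smul_smul]
      simp only [Matrix.add_apply, Matrix.smul_apply, smul_eq_mul, add_smul]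
      abel
  have hBsum : B = ∑ t : Fin n × Fin n, B t.1 t.2 • Matrix.single t.1 t.2 (1 : A.A) := by
    rw [Fintype.sum_prod_type]
    conv_lhs => rw [Matrix.matrix_eq_sum_single B]
    refine Finset.sum_congr rfl fun a _ => Finset.sum_congr rfl fun b _ => ?_
    rw [Matrix.smul_single, smul_eq_mul, mul_one]
  change InI _ (L B)
  rw [hBsum, hLadd]
  intro a b
  rw [Matrix.sum_apply]
  refine Ideal.sum_mem _ fun t _ => ?_
  rw [Matrix.smul_apply, smul_eq_mul, pow_succ]
  exact Ideal.mul_mem_mul (hB _ _) (hLm _ a b)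

/-- the tuple is in the slice -/
def Slice.WP (T : Fin d → Matrix (Fin n) (Fin n) A.A) : Prop :=
  D.pi A (fun i => T i - (D.A0 i).map (algebraMap (WittVector p k) A.A)) = 0

lemma conj_sub (M : GL (Fin n) A.A) (B T : Matrix (Fin n) (Fin n) A.A)
    (hM : (M : Matrix (Fin n) (Fin n) A.A) = 1 + B) :
    (M : Matrix (Fin n) (Fin n) A.A) * T * ((M⁻¹ : GL (Fin n) A.A) : Matrix (Fin n) (Fin n) A.A) =
      T + (B * T - T * B) - (B * T - T * B) * (B * ((M⁻¹ : GL (Fin n) A.A) :
        Matrix (Fin n) (Fin n) A.A)) := by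
  set N := ((M⁻¹ : GL (Fin n) A.A) : Matrix (Fin n) (Fin n) A.A) with hN
  have hMN : (1 + B) * N = 1 := by
    rw [← hM, hN, ← Units.val_mul, mul_inv_cancel, Units.val_one]
  have h1 : B * N = 1 - N := by
    have : N + B * N = 1 := by rw [← hMN]; noncomm_ring
    rw [← this]; abel
  rw [h1, hM]
  have h2 : (1 + B) * T * N = T * ((1 + B) * N) + (B * T - T * B) * N := by noncomm_ring
  rw [h2, hMN]
  noncomm_ring

/-- one step -/
lemma Slice.step (T : Fin d → GL (Fin n) A.A)
    (hT : ∀ i, (T i : Matrix (Fin n) (Fin n) A.A).map A.res = r i) (j : ℕ) (hj : 1 ≤ j)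
    (M : GL (Fin n) A.A) (hM1 : (M : Matrix (Fin n) (Fin n) A.A).map A.res = 1)
    (hM : InI (maximalIdeal A.A ^ j) (D.pi A (fun i =>
      ((M * T i * M⁻¹ : GL (Fin n) A.A) : Matrix (Fin n) (Fin n) A.A) -
        (D.A0 i).map (algebraMap (WittVector p k) A.A)))) :
    ∃ M' : GL (Fin n) A.A, (M' : Matrix (Fin n) (Fin n) A.A).map A.res = 1 ∧
      InI (maximalIdeal A.A ^ (j + 1)) (D.pi A (fun i =>
      ((M' * T i * M'⁻¹ : GL (Fin n) A.A) : Matrix (Fin n) (Fin n) A.A) -
        (D.A0 i).map (algebraMap (WittVector p k) A.A))) ∧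
      InI (maximalIdeal A.A ^ j) ((M' : Matrix (Fin n) (Fin n) A.A) -
        (M : Matrix (Fin n) (Fin n) A.A)) := by
  set S : Fin d → GL (Fin n) A.A := fun i => M * T i * M⁻¹ with hS
  have hMg : Matrix.GeneralLinearGroup.map A.res M = 1 := by
    ext a b
    have := congrFun (congrFun hM1 a) b
    simpa using this
  have hSr : ∀ i, (S i : Matrix (Fin n) (Fin n) A.A).map A.res = r i := by
    intro i
    have : Matrix.GeneralLinearGroup.map A.res (S i) = Matrix.GeneralLinearGroup.map A.res (T i) := by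
      rw [hS, map_mul, map_mul, map_inv, hMg]; simp
    rw [← hT i]
    ext a b
    have h2 := congrArg (fun g : GL (Fin n) k => (g : Matrix (Fin n) (Fin n) k) a b) this
    simpa using h2
  set Dm := D.pi A (fun i => (S i : Matrix (Fin n) (Fin n) A.A) -
        (D.A0 i).map (algebraMap (WittVector p k) A.A)) with hDm
  have hDm0 : Dm D.i0 D.i0 = 0 := D.pi_i0 A _
  have hle : maximalIdeal A.A ^ j ≤ maximalIdeal A.A := Ideal.pow_le_self (by omega)
  have hB : InI (maximalIdeal A.A ^ j) (-Dm) := hM.neg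
  have hBr : (-Dm).map A.res = 0 := (InI_max_iff A _).1 (hB.mono hle)
  have hred : ((1 : Matrix (Fin n) (Fin n) A.A) + -Dm).map A.res = 1 := by
    ext a b
    have h3 := congrFun (congrFun hBr a) b
    simp only [Matrix.map_apply, Matrix.add_apply, map_add, Matrix.zero_apply] at h3 ⊢
    rw [h3, add_zero]
    by_cases hab : a = b
    · subst hab; simp
    · simp [Matrix.one_apply_ne hab]
  let U : GL (Fin n) A.A := toGL A (1 + -Dm) (by rw [hred]; simp)
  have hU : (U : Matrix (Fin n) (Fin n) A.A) = 1 + -Dm := rfl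
  refine ⟨U * M, ?_, ?_, ?_⟩
  · rw [Units.val_mul, Matrix.map_mul, hM1, mul_one, hU, hred]
  · have e1 : ∀ i, (((U * M) * T i * (U * M)⁻¹ : GL (Fin n) A.A) : Matrix (Fin n) (Fin n) A.A) =
        (S i : Matrix (Fin n) (Fin n) A.A) +
          ((-Dm) * (S i : Matrix (Fin n) (Fin n) A.A) - (S i : Matrix (Fin n) (Fin n) A.A) * (-Dm))
          - ((-Dm) * (S i : Matrix (Fin n) (Fin n) A.A) - (S i : Matrix (Fin n) (Fin n) A.A) * (-Dm))
            * ((-Dm) * ((U⁻¹ : GL (Fin n) A.A) : Matrix (Fin n) (Fin n) A.A)) := by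
      intro i
      rw [← conj_sub A U (-Dm) (S i) hU]
      have : (U * M) * T i * (U * M)⁻¹ = U * S i * U⁻¹ := by rw [hS]; group
      rw [this]; rfl
    have e2 : (fun i => (((U * M) * T i * (U * M)⁻¹ : GL (Fin n) A.A) : Matrix (Fin n) (Fin n) A.A) -
        (D.A0 i).map (algebraMap (WittVector p k) A.A)) = fun i =>
        (((S i : Matrix (Fin n) (Fin n) A.A) - (D.A0 i).map (algebraMap (WittVector p k) A.A)) +
          ((-Dm) * (S i : Matrix (Fin n) (Fin n) A.A) - (S i : Matrix (Fin n) (Fin n) A.A) * (-Dm)))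
        - ((-Dm) * (S i : Matrix (Fin n) (Fin n) A.A) - (S i : Matrix (Fin n) (Fin n) A.A) * (-Dm))
            * ((-Dm) * ((U⁻¹ : GL (Fin n) A.A) : Matrix (Fin n) (Fin n) A.A)) := by
      funext i
      rw [e1 i]; abel
    rw [e2, D.pi_sub, D.pi_add, ← hDm]
    have h4 := D.key A (fun i => (S i : Matrix (Fin n) (Fin n) A.A)) hSr j (-Dm) hB
    have h5 : InI (maximalIdeal A.A ^ (j + 1)) (D.pi A (fun i =>
        ((-Dm) * (S i : Matrix (Fin n) (Fin n) A.A) - (S i : Matrix (Fin n) (Fin n) A.A) * (-Dm))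
            * ((-Dm) * ((U⁻¹ : GL (Fin n) A.A) : Matrix (Fin n) (Fin n) A.A)))) := by
      apply D.pi_mem
      intro i
      exact (InI.mul ((hB.mul_right _).sub (hB.mul_left _)) ((hB.mul_right _).mono hle)).mono
        (le_of_eq (pow_succ _ _).symm)
    have h6 : Dm + D.pi A (fun i => (-Dm) * (S i : Matrix (Fin n) (Fin n) A.A) -
        (S i : Matrix (Fin n) (Fin n) A.A) * (-Dm)) =
        D.pi A (fun i => (-Dm) * (S i : Matrix (Fin n) (Fin n) A.A) -
        (S i : Matrix (Fin n) (Fin n) A.A) * (-Dm)) -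
        ((-Dm) - (-Dm) D.i0 D.i0 • (1 : Matrix (Fin n) (Fin n) A.A)) := by
      rw [Matrix.neg_apply, hDm0, neg_zero, zero_smul]; abel
    rw [h6]
    exact h4.sub h5
  · rw [Units.val_mul, hU]
    have : (1 + -Dm) * (M : Matrix (Fin n) (Fin n) A.A) - (M : Matrix (Fin n) (Fin n) A.A) =
        (-Dm) * (M : Matrix (Fin n) (Fin n) A.A) := by noncomm_ring
    rw [this]
    exact hB.mul_right _

lemma inv_sub_inv' (M N : GL (Fin n) A.A) :
    ((M⁻¹ : GL (Fin n) A.A) : Matrix (Fin n) (Fin n) A.A) -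
      ((N⁻¹ : GL (Fin n) A.A) : Matrix (Fin n) (Fin n) A.A) =
    ((M⁻¹ : GL (Fin n) A.A) : Matrix (Fin n) (Fin n) A.A) *
      ((N : Matrix (Fin n) (Fin n) A.A) - (M : Matrix (Fin n) (Fin n) A.A)) *
      ((N⁻¹ : GL (Fin n) A.A) : Matrix (Fin n) (Fin n) A.A) := by
  have h1 : (N : Matrix (Fin n) (Fin n) A.A) * ((N⁻¹ : GL (Fin n) A.A) : Matrix (Fin n) (Fin n) A.A)
      = 1 := by rw [← Units.val_mul, mul_inv_cancel, Units.val_one]
  have h2 : ((M⁻¹ : GL (Fin n) A.A) : Matrix (Fin n) (Fin n) A.A) * (M : Matrix (Fin n) (Fin n) A.A)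
      = 1 := by rw [← Units.val_mul, inv_mul_cancel, Units.val_one]
  rw [mul_sub, sub_mul, mul_assoc, h1, h2, mul_one, one_mul]

/-- existence in the slice -/
lemma Slice.exists_wp (T : Fin d → GL (Fin n) A.A)
    (hT : ∀ i, (T i : Matrix (Fin n) (Fin n) A.A).map A.res = r i) :
    ∃ M : GL (Fin n) A.A, Matrix.GeneralLinearGroup.map A.res M = 1 ∧
      D.WP A (fun i => ((M * T i * M⁻¹ : GL (Fin n) A.A) : Matrix (Fin n) (Fin n) A.A)) := by
  classical
  let Q : ℕ → GL (Fin n) A.A → Prop := fun j M => (M : Matrix (Fin n) (Fin n) A.A).map A.res = 1 ∧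
    InI (maximalIdeal A.A ^ (j + 1)) (D.pi A (fun i =>
      ((M * T i * M⁻¹ : GL (Fin n) A.A) : Matrix (Fin n) (Fin n) A.A) -
        (D.A0 i).map (algebraMap (WittVector p k) A.A)))
  have h0 : Q 0 1 := by
    refine ⟨by rw [Units.val_one]; simp, ?_⟩
    apply D.pi_mem
    intro i
    rw [zero_add, pow_one, InI_max_iff]
    ext a b
    have h1 := congrFun (congrFun (hT i) a) b
    simp only [Matrix.map_apply, Matrix.sub_apply, map_sub, A.res_coeff, D.hA0, Matrix.zero_apply,
      one_mul, inv_one, mul_one] at h1 ⊢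
    rw [h1, sub_self]
  have hstep : ∀ j (M : {M : GL (Fin n) A.A // Q j M}), ∃ M' : {M : GL (Fin n) A.A // Q (j + 1) M},
      InI (maximalIdeal A.A ^ (j + 1)) ((M'.1 : Matrix (Fin n) (Fin n) A.A) -
        (M.1 : Matrix (Fin n) (Fin n) A.A)) := by
    rintro j ⟨M, hM1, hM2⟩
    obtain ⟨M', h1, h2, h3⟩ := D.step A T hT (j + 1) (by omega) M hM1 hM2
    exact ⟨⟨M', h1, h2⟩, h3⟩
  choose nxt hnxt using hstep
  let seq : (j : ℕ) → {M : GL (Fin n) A.A // Q j M} := fun j =>
    Nat.rec (motive := fun j => {M : GL (Fin n) A.A // Q j M}) ⟨1, h0⟩ (fun j M => nxt j M) j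
  have hseq : ∀ j, seq (j + 1) = nxt j (seq j) := fun j => rfl
  obtain ⟨L, hL⟩ := exists_lim A (fun j => ((seq j).1 : Matrix (Fin n) (Fin n) A.A)) (by
    intro j
    rw [hseq j]
    exact (hnxt j (seq j)).mono (Ideal.pow_le_pow_right (by omega)))
  have hLr : L.map A.res = 1 := by
    have h1 := hL 1
    rw [pow_one, InI_max_iff] at h1
    have h2 := (seq 1).2.1
    ext a b
    have h3 := congrFun (congrFun h1 a) b
    have h4 := congrFun (congrFun h2 a) b
    simp only [Matrix.map_apply, Matrix.sub_apply, map_sub, Matrix.zero_apply] at h3 h4 ⊢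
    rw [sub_eq_zero.1 h3, h4]
  let U : GL (Fin n) A.A := toGL A L (by rw [hLr]; simp)
  have hU : (U : Matrix (Fin n) (Fin n) A.A) = L := rfl
  have hLr' : (U : Matrix (Fin n) (Fin n) A.A).map A.res = 1 := hLr
  refine ⟨U, ?_, ?_⟩
  · ext a b
    have := congrFun (congrFun hLr' a) b
    simpa using this
  · unfold Slice.WP
    apply hausdorff_of
    intro j
    have h1 : ∀ i, InI (maximalIdeal A.A ^ j)
        (((U * T i * U⁻¹ : GL (Fin n) A.A) : Matrix (Fin n) (Fin n) A.A) -
          (((seq j).1 * T i * (seq j).1⁻¹ : GL (Fin n) A.A) : Matrix (Fin n) (Fin n) A.A)) := by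
      intro i
      have e1 : ((U * T i * U⁻¹ : GL (Fin n) A.A) : Matrix (Fin n) (Fin n) A.A) -
          (((seq j).1 * T i * (seq j).1⁻¹ : GL (Fin n) A.A) : Matrix (Fin n) (Fin n) A.A) =
          (L - ((seq j).1 : Matrix (Fin n) (Fin n) A.A)) *
            ((T i : Matrix (Fin n) (Fin n) A.A) * ((U⁻¹ : GL (Fin n) A.A) : Matrix (Fin n) (Fin n) A.A))
          + (((seq j).1 : Matrix (Fin n) (Fin n) A.A) * (T i : Matrix (Fin n) (Fin n) A.A)) *
            (((U⁻¹ : GL (Fin n) A.A) : Matrix (Fin n) (Fin n) A.A) -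
              (((seq j).1⁻¹ : GL (Fin n) A.A) : Matrix (Fin n) (Fin n) A.A)) := by
        simp only [Units.val_mul, hU]
        noncomm_ring
      rw [e1, inv_sub_inv' A U (seq j).1]
      refine ((hL j).mul_right _).add (InI.mul_left (InI.mul_right (InI.mul_left ?_ _) _) _)
      rw [hU, ← neg_sub]
      exact (hL j).neg
    have h2 : (fun i => ((U * T i * U⁻¹ : GL (Fin n) A.A) : Matrix (Fin n) (Fin n) A.A) -
        (D.A0 i).map (algebraMap (WittVector p k) A.A)) = fun i =>
        ((((seq j).1 * T i * (seq j).1⁻¹ : GL (Fin n) A.A) : Matrix (Fin n) (Fin n) A.A) -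
          (D.A0 i).map (algebraMap (WittVector p k) A.A)) +
        (((U * T i * U⁻¹ : GL (Fin n) A.A) : Matrix (Fin n) (Fin n) A.A) -
          (((seq j).1 * T i * (seq j).1⁻¹ : GL (Fin n) A.A) : Matrix (Fin n) (Fin n) A.A)) := by
      funext i; abel
    rw [h2, D.pi_add]
    exact ((seq j).2.2.mono (Ideal.pow_le_pow_right (by omega))).add (D.pi_mem A _ _ h1)

/-- uniqueness in the slice -/
lemma Slice.unique_wp (T T' : Fin d → Matrix (Fin n) (Fin n) A.A)
    (hT : ∀ i, (T i).map A.res = r i) (M : Matrix (Fin n) (Fin n) A.A) (hM : M.map A.res = 1)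
    (hMT : ∀ i, M * T i = T' i * M) (h : D.WP A T) (h' : D.WP A T') :
    ∃ c : A.A, IsUnit c ∧ M = c • (1 : Matrix (Fin n) (Fin n) A.A) := by
  set c := M D.i0 D.i0 with hc
  have hcu : IsUnit c := by
    rw [isUnit_iff A]
    have := congrFun (congrFun hM D.i0) D.i0
    simp only [Matrix.map_apply, Matrix.one_apply_eq] at this
    rw [this]
    exact one_ne_zero
  refine ⟨c, hcu, ?_⟩
  set B := M - c • (1 : Matrix (Fin n) (Fin n) A.A) with hB
  have hB0 : B D.i0 D.i0 = 0 := by simp [hB, hc]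
  have hrel : ∀ i, B * T i - T' i * B = c • (T' i - T i) := by
    intro i
    rw [hB, sub_mul, mul_sub, hMT i, Matrix.smul_mul, Matrix.mul_smul, one_mul, mul_one, smul_sub]
    abel
  have hpi0 : D.pi A (fun i => B * T i - T' i * B) = 0 := by
    have e1 : (fun i => B * T i - T' i * B) = fun i => c •
        ((T' i - (D.A0 i).map (algebraMap (WittVector p k) A.A)) -
          (T i - (D.A0 i).map (algebraMap (WittVector p k) A.A))) := by
      funext i; rw [hrel i]; congr 1; abel
    rw [e1, D.pi_smul, D.pi_sub]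
    unfold Slice.WP at h h'
    rw [h, h', sub_self, smul_zero]
  have hmain : ∀ j, InI (maximalIdeal A.A ^ (j + 1)) B := by
    intro j
    induction j with
    | zero =>
      rw [zero_add, pow_one, InI_max_iff]
      ext a b
      have h3 := congrFun (congrFun hM a) b
      have h4 := congrFun (congrFun hM D.i0) D.i0
      simp only [hB, hc, Matrix.map_apply, Matrix.sub_apply, Matrix.smul_apply, smul_eq_mul,
        map_sub, map_mul, Matrix.zero_apply, Matrix.one_apply_eq] at h3 h4 ⊢
      rw [h3, h4, one_mul]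
      by_cases hab : a = b
      · subst hab; simp
      · simp [Matrix.one_apply_ne hab]
    | succ j ih =>
      have hle : maximalIdeal A.A ^ (j + 1) ≤ maximalIdeal A.A := Ideal.pow_le_self (by omega)
      have hTT : ∀ i, InI (maximalIdeal A.A ^ (j + 1)) (T' i - T i) := by
        intro i
        obtain ⟨u, hu⟩ := hcu
        have : T' i - T i = ((u⁻¹ : A.Aˣ) : A.A) • (c • (T' i - T i)) := by
          rw [smul_smul, ← hu, Units.inv_mul, one_smul]
        rw [this, ← hrel i]
        exact ((ih.mul_right _).sub (ih.mul_left _)).smul _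
      have e2 : (fun i => B * T i - T i * B) = fun i => (B * T i - T' i * B) +
          (T' i - T i) * B := by
        funext i; noncomm_ring
      have h5 := D.key A T hT (j + 1) B ih
      rw [e2, D.pi_add, hpi0, zero_add, hB0, zero_smul, sub_zero] at h5
      have h6 : InI (maximalIdeal A.A ^ (j + 1 + 1)) (D.pi A fun i => (T' i - T i) * B) := by
        apply D.pi_mem
        intro i
        exact ((hTT i).mul (ih.mono hle)).mono (le_of_eq (pow_succ _ _).symm)
      have h7 : B = D.pi A (fun i => (T' i - T i) * B) - (D.pi A (fun i => (T' i - T i) * B) - B) := by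
        abel
      rw [h7]
      exact h6.sub h5
  have : B = 0 := hausdorff_of A B (fun j => (hmain j).mono (Ideal.pow_le_pow_right (by omega)))
  rw [hB] at this
  exact sub_eq_zero.1 this

end Slice

end MZEX
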