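import Pool.Agent.W566.MZ.Defs

/-!
# MP_aa8fd2_nt, part EX (existence of the universal deformation ring): interface statements
-/

set_option autoImplicit false

namespace MZEX

open NumberField IsDedekindDomain IsLocalRing MZ

/-- EX-A: power series over a complete noetherian local ring are complete for the maximal ideal,
and polynomials are dense. -/
def StmExA : Prop :=
  ∀ (W : Type) [CommRing W] [IsLocalRing W] [IsNoetherianRing W]
    [IsAdicComplete (maximalIdeal W) W] (σ : Type) [Finite σ],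
    IsAdicComplete (maximalIdeal (MvPowerSeries σ W)) (MvPowerSeries σ W) ∧
    (∀ f : MvPowerSeries σ W, f ∈ maximalIdeal (MvPowerSeries σ W) ↔
      MvPowerSeries.constantCoeff f ∈ maximalIdeal W) ∧
    ∀ (m : ℕ) (f : MvPowerSeries σ W), ∃ g : MvPolynomial σ W,
      f - (g : MvPowerSeries σ W) ∈ maximalIdeal (MvPowerSeries σ W) ^ m

/-- EX-B: quotients of complete noetherian local rings. -/
def StmExB : Prop :=
  ∀ (A : Type) [CommRing A] [IsLocalRing A] [IsNoetherianRing A]
    [IsAdicComplete (maximalIdeal A) A] (K : Ideal A), K ≠ ⊤ →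
    ∃ _ : IsLocalRing (A ⧸ K), IsAdicComplete (maximalIdeal (A ⧸ K)) (A ⧸ K) ∧
      ∀ m : ℕ, maximalIdeal (A ⧸ K) ^ m = (maximalIdeal A ^ m).map (Ideal.Quotient.mk K)

/-- EX-C: evaluation of power series. -/
def StmExC : Prop :=
  ∀ (W A : Type) [CommRing W] [IsLocalRing W] [IsNoetherianRing W]
    [IsAdicComplete (maximalIdeal W) W] [CommRing A] [IsLocalRing A] [IsNoetherianRing A]
    [IsAdicComplete (maximalIdeal A) A] [Algebra W A],
    (∀ x ∈ maximalIdeal W, algebraMap W A x ∈ maximalIdeal A) →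
    ∀ (σ : Type) [Finite σ] (a : σ → A), (∀ s, a s ∈ maximalIdeal A) →
      ∃ f : MvPowerSeries σ W →ₐ[W] A, (∀ s, f (MvPowerSeries.X s) = a s) ∧
        ∀ t ∈ maximalIdeal (MvPowerSeries σ W), f t ∈ maximalIdeal A

/-- EX-W: the Witt vectors of a finite field. -/
def StmExW : Prop :=
  ∀ (p : ℕ) [Fact p.Prime] (k : Type) [Field k] [Finite k] [CharP k p],
    ∃ (_ : IsLocalRing (WittVector p k)), IsNoetherianRing (WittVector p k) ∧
      IsAdicComplete (maximalIdeal (WittVector p k)) (WittVector p k) ∧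
      ∀ x : WittVector p k, x ∈ maximalIdeal (WittVector p k) ↔ x.coeff 0 = 0

/-- `N` is an open normal subgroup of `G` contained in `H`, with `H/N` a `p`-group. -/
def PSub {G : Type} [Group G] [TopologicalSpace G] (p : ℕ) (H N : Subgroup G) : Prop :=
  N.Normal ∧ IsOpen (N : Set G) ∧ N ≤ H ∧ ∀ g ∈ H, ∃ e : ℕ, g ^ (p ^ e) ∈ N

/-- `x` generates `G` modulo every `N` as above. -/
def Gens {G : Type} [Group G] [TopologicalSpace G] (p : ℕ) (H : Subgroup G) {d : ℕ}
    (x : Fin d → G) : Prop :=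
  ∀ N : Subgroup G, PSub p H N → Subgroup.closure (Set.range x) ⊔ N = ⊤

/-- EX-G: finite generation from the finiteness of the characters of order 2. -/
def StmExG : Prop :=
  ∀ (G : Type) [Group G] [TopologicalSpace G] [IsTopologicalGroup G] [CompactSpace G]
    [TotallyDisconnectedSpace G] (H : Subgroup G), H.Normal → IsOpen (H : Set G) →
    Finite {χ : H →* Multiplicative (ZMod 2) // IsOpen (χ.ker : Set H)} →
    ∃ (d : ℕ) (x : Fin d → G), Gens 2 H x

/-- EX-H1: finite subextensions of `F_S` are unramified outside `S`. -/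
def StmExH1 : Prop :=
  ∀ (F Ω : Type) [Field F] [NumberField F] [Field Ω] [Algebra F Ω] [IsAlgClosure F Ω]
    (S : Set (HeightOneSpectrum (𝓞 F))) (K : IntermediateField F Ω), FiniteDimensional F K →
    K ≤ FSmax S → UnramifiedOutside S K

/-- EX-H2: finiteness of the 2-Selmer group of a number field. -/
def StmExH2 : Prop :=
  ∀ (M : Type) [Field M] [NumberField M] (T : Set (HeightOneSpectrum (𝓞 M))), T.Finite →
    ∃ Z : Set M, Z.Finite ∧ ∀ a : M, a ≠ 0 → (∀ v ∉ T, IsSquare (v.valuation M a)) →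
      ∃ z ∈ Z, ∃ c : M, c ≠ 0 ∧ a = z * c ^ 2

/-- EX-H: finitely many continuous characters of order 2 of an open subgroup of `G_{F,S}`. -/
def StmExH : Prop :=
  ∀ (F Ω : Type) [Field F] [NumberField F] [Field Ω] [Algebra F Ω] [IsAlgClosure F Ω]
    (S : Set (HeightOneSpectrum (𝓞 F))), S.Finite →
    (∀ v : HeightOneSpectrum (𝓞 F), (2 : 𝓞 F) ∈ v.asIdeal → v ∈ S) →
    ∀ H : Subgroup (GFS Ω S), IsOpen (H : Set (GFS Ω S)) →
      Finite {χ : H →* Multiplicative (ZMod 2) // IsOpen (χ.ker : Set H)}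

/-- EX-M: Mazur's existence theorem. -/
def StmExM : Prop :=
  ∀ (p : ℕ) [Fact p.Prime] (k : Type) [Field k] [Finite k] [CharP k p]
    (G : Type) [Group G] [TopologicalSpace G] [IsTopologicalGroup G] (n : ℕ), 1 ≤ n →
    ∀ (ρbar : G →* GL (Fin n) k), IsOpen (ρbar.ker : Set G) → AbsIrred ρbar →
    (∃ (d : ℕ) (x : Fin d → G), Gens p ρbar.ker x) →
    ∃ (R : CNL p k) (ρu : G →* GL (Fin n) R.A), IsUniversal ρbar R ρu

/-- The goal of part EX: existence for open kernels in `G_{F,S}` and `p = 2`. -/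
def StmEx : Prop :=
  ∀ (F Ω : Type) [Field F] [NumberField F] [Field Ω] [Algebra F Ω] [IsAlgClosure F Ω]
    (S : Set (HeightOneSpectrum (𝓞 F))), S.Finite →
    (∀ v : HeightOneSpectrum (𝓞 F), (2 : 𝓞 F) ∈ v.asIdeal → v ∈ S) →
    ∀ (k : Type) [Field k] [Finite k] [CharP k 2] (n : ℕ), 1 ≤ n →
    ∀ (ρbar : GFS Ω S →* GL (Fin n) k), IsOpen (ρbar.ker : Set (GFS Ω S)) → AbsIrred ρbar →
    ∃ (R : CNL 2 k) (ρu : GFS Ω S →* GL (Fin n) R.A), IsUniversal ρbar R ρu

end MZEX
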