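import Mathlib
import Pool.Agent.W413.MZ.Gen
import Pool.Agent.W413.MZ.Crit

/-!
# MP_aa8fd2_nt, FIELD-N : `N = ℚ(√5, 2cos(2π/9))` is 2-rational
-/

namespace MZ294

open NumberField Module Ideal MZ413

variable {X : Type} [Field X] [NumberField X]

theorem quot_pow_card (Q : Ideal (𝓞 X)) [hQ : Q.IsPrime] (h0 : Q ≠ ⊥) (x : 𝓞 X) :
    x ^ (absNorm Q) - x ∈ Q := by
  have hmax := MZ413.isMax Q h0
  letI : Field (𝓞 X ⧸ Q) := Ideal.Quotient.field Q
  have hfin : Finite (𝓞 X ⧸ Q) := (absNorm_ne_zero_iff Q).1 (fun h => h0 (absNorm_eq_zero_iff.1 h))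
  letI : Fintype (𝓞 X ⧸ Q) := Fintype.ofFinite _
  rw [← Ideal.Quotient.eq_zero_iff_mem, map_sub, map_pow, sub_eq_zero, ← card_quot,
    Nat.card_eq_fintype_card]
  exact FiniteField.pow_card _

/-- `2` is inert in `N` : no prime above `2` of norm `< 64`. -/
theorem no_small_two (f v : 𝓞 X) (hf : f ^ 2 = f + 1) (hv : v ^ 3 = 3 * v - 1)
    (Q : Ideal (𝓞 X)) [hQ : Q.IsPrime] (h0 : Q ≠ ⊥) (h2Q : ((2 : ℕ) : 𝓞 X) ∈ Q) {k : ℕ}
    (hk : absNorm Q = 2 ^ k) : 6 ≤ k := by
  by_contra hlt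
  push Not at hlt
  have h2 : (Ideal.Quotient.mk Q) 2 = 0 := by
    rw [Ideal.Quotient.eq_zero_iff_mem]; exact_mod_cast h2Q
  have hmax := MZ413.isMax Q h0
  letI : Field (𝓞 X ⧸ Q) := Ideal.Quotient.field Q
  set F := (Ideal.Quotient.mk Q) f with hF
  set V := (Ideal.Quotient.mk Q) v with hV
  have h2' : (2 : 𝓞 X ⧸ Q) = 0 := by rw [← h2, map_ofNat]
  have hF2 : F ^ 2 = F + 1 := by rw [hF, ← map_pow, hf, map_add, map_one]
  have hV3 : V ^ 3 = V + 1 := by
    rw [hV, ← map_pow, hv, map_sub, map_mul, map_one, map_ofNat]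
    linear_combination (V - 1) * h2'
  have hFk : F ^ (2 ^ k) = F := by
    have := quot_pow_card Q h0 f
    rwa [← Ideal.Quotient.eq_zero_iff_mem, map_sub, map_pow, sub_eq_zero, hk] at this
  have hVk : V ^ (2 ^ k) = V := by
    have := quot_pow_card Q h0 v
    rwa [← Ideal.Quotient.eq_zero_iff_mem, map_sub, map_pow, sub_eq_zero, hk] at this
  have h1 : (1 : 𝓞 X ⧸ Q) ≠ 0 := one_ne_zero
  have hF4 : F ^ 4 = F := by linear_combination (F ^ 2 + F + 2) * hF2 + (F + 1) * h2'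
  have hV0 : V ≠ 0 := by
    intro h
    rw [h] at hV3
    exact h1 (by linear_combination -hV3)
  have hV7 : V ^ 7 = 1 := by
    have e1 : V ^ 4 = V ^ 2 + V := by linear_combination V * hV3
    have e2 : V ^ 5 = V ^ 2 + V + 1 := by linear_combination V * e1 + hV3
    have e3 : V ^ 6 = V ^ 2 + 1 := by linear_combination V * e2 + hV3 + V * h2'
    linear_combination V * e3 + hV3 + V * h2'
  interval_cases k
  · apply h1
    have := hQ.ne_top
    exact absurd (absNorm_eq_one_iff.1 (by rw [hk]; norm_num)) this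
  · apply h1
    norm_num at hFk
    linear_combination hFk - hF2
  · -- V ^ 4 = V
    norm_num at hVk
    have e1 : V ^ 4 = V ^ 2 + V := by linear_combination V * hV3
    have : V ^ 2 = 0 := by linear_combination hVk - e1
    exact hV0 (pow_eq_zero_iff (by norm_num) |>.1 this)
  · norm_num at hFk
    apply h1
    have : F ^ 8 = F ^ 2 := by linear_combination (F ^ 4 + F) * hF4
    linear_combination hFk - hF2 - this
  · norm_num at hVk
    have e1 : V ^ 16 = V ^ 2 := by linear_combination (V ^ 9 + V ^ 2) * hV7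
    have e2 : V * (V - 1) = 0 := by linear_combination hVk - e1
    rcases mul_eq_zero.1 e2 with h | h
    · exact hV0 h
    · have h3 : V = 1 := by linear_combination h
      rw [h3] at hV3
      apply h1
      linear_combination -hV3
  · norm_num at hFk
    apply h1
    have : F ^ 32 = F ^ 2 := by
      have e1 : F ^ 8 = F ^ 2 := by linear_combination (F ^ 4 + F) * hF4
      have e2 : F ^ 16 = F := by linear_combination (F ^ 8 + F ^ 2) * e1 + hF4
      linear_combination (F ^ 16 + F) * e2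
    linear_combination hFk - hF2 - this

theorem exists_root {p q a b : ℝ} (hab : a < b) (ha : a ^ 3 + p * a + q < 0)
    (hb : 0 < b ^ 3 + p * b + q) : ∃ r : ℝ, a < r ∧ r < b ∧ r ^ 3 + p * r + q = 0 := by
  have hc : ContinuousOn (fun x : ℝ => x ^ 3 + p * x + q) (Set.Icc a b) := by fun_prop
  have h := intermediate_value_Icc hab.le hc
  obtain ⟨r, hr, hr0⟩ := h (show (0 : ℝ) ∈ Set.Icc _ _ from ⟨ha.le, hb.le⟩)
  simp only at hr0
  refine ⟨r, lt_of_le_of_ne hr.1 ?_, lt_of_le_of_ne hr.2 ?_, hr0⟩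
  · rintro rfl; exact ha.ne hr0
  · rintro rfl; exact hb.ne' hr0

theorem exists_root' {p q a b : ℝ} (hab : a < b) (ha : 0 < a ^ 3 + p * a + q)
    (hb : b ^ 3 + p * b + q < 0) : ∃ r : ℝ, a < r ∧ r < b ∧ r ^ 3 + p * r + q = 0 := by
  have hc : ContinuousOn (fun x : ℝ => x ^ 3 + p * x + q) (Set.Icc a b) := by fun_prop
  have h := intermediate_value_Icc' hab.le hc
  obtain ⟨r, hr, hr0⟩ := h (show (0 : ℝ) ∈ Set.Icc _ _ from ⟨hb.le, ha.le⟩)
  simp only at hr0
  refine ⟨r, lt_of_le_of_ne hr.1 ?_, lt_of_le_of_ne hr.2 ?_, hr0⟩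
  · rintro rfl; exact ha.ne' hr0
  · rintro rfl; exact hb.ne hr0

theorem cubic_roots {p q r₁ r₂ r₃ : ℝ} (h1 : r₁ ^ 3 + p * r₁ + q = 0)
    (h2 : r₂ ^ 3 + p * r₂ + q = 0) (h3 : r₃ ^ 3 + p * r₃ + q = 0) (h12 : r₁ ≠ r₂) (h13 : r₁ ≠ r₃)
    (h23 : r₂ ≠ r₃) (x : ℂ) (hx : x ^ 3 + p * x + q = 0) : x = r₁ ∨ x = r₂ ∨ x = r₃ := by
  have e1 : r₁ ^ 2 + r₁ * r₂ + r₂ ^ 2 + p = 0 := by
    apply mul_left_cancel₀ (sub_ne_zero.2 h12)
    linear_combination h1 - h2
  have e2 : r₁ ^ 2 + r₁ * r₃ + r₃ ^ 2 + p = 0 := by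
    apply mul_left_cancel₀ (sub_ne_zero.2 h13)
    linear_combination h1 - h3
  have e3 : r₁ + r₂ + r₃ = 0 := by
    apply mul_left_cancel₀ (sub_ne_zero.2 h23)
    linear_combination e1 - e2
  have e4 : p = r₁ * r₂ + r₁ * r₃ + r₂ * r₃ := by
    linear_combination e1 - (r₁ + r₂) * e3
  have e5 : q = - (r₁ * r₂ * r₃) := by
    linear_combination h1 - r₁ * e4 - r₁ ^ 2 * e3
  have key : (x - r₁) * ((x - r₂) * (x - r₃)) = 0 := by
    have e3' : (r₁ + r₂ + r₃ : ℂ) = 0 := by exact_mod_cast e3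
    have e4' : (p : ℂ) = r₁ * r₂ + r₁ * r₃ + r₂ * r₃ := by exact_mod_cast e4
    have e5' : (q : ℂ) = - (r₁ * r₂ * r₃) := by exact_mod_cast e5
    linear_combination hx - x ^ 2 * e3' - x * e4' - e5'
  rcases mul_eq_zero.1 key with h | h
  · left; linear_combination h
  · rcases mul_eq_zero.1 h with h | h
    · right; left; linear_combination h
    · right; right; linear_combination h

theorem quad_roots {g g' : ℝ} (hg : g ^ 2 = g + 1) (hgg : g + g' = 1) (x : ℂ)
    (hx : x ^ 2 = x + 1) : x = g ∨ x = g' := by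
  have h1 : ((g : ℂ)) ^ 2 = g + 1 := by exact_mod_cast hg
  have h2 : (g + g' : ℂ) = 1 := by exact_mod_cast hgg
  have key : (x - g) * (x - g') = 0 := by
    linear_combination hx - x * h2 + g * h2 - h1
  rcases mul_eq_zero.1 key with h | h
  · left; linear_combination h
  · right; linear_combination h

theorem exists_gold : ∃ g g' : ℝ, g ^ 2 = g + 1 ∧ g' ^ 2 = g' + 1 ∧ g + g' = 1 ∧
    1.618 < g ∧ g < 1.6181 ∧ -0.6181 < g' ∧ g' < -0.618 := by
  have h5 : (Real.sqrt 5) ^ 2 = 5 := Real.sq_sqrt (by norm_num)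
  have h0 : 0 ≤ Real.sqrt 5 := Real.sqrt_nonneg 5
  have hl : 2.236 < Real.sqrt 5 := by
    rw [Real.lt_sqrt (by norm_num)]; norm_num
  have hu : Real.sqrt 5 < 2.2362 := by
    rw [Real.sqrt_lt' (by norm_num)]; norm_num
  refine ⟨(1 + Real.sqrt 5) / 2, (1 - Real.sqrt 5) / 2, ?_, ?_, ?_, ?_, ?_, ?_, ?_⟩ <;> nlinarith

/-- units of `N` in the basis `1, v, w, φ, φ v, φ w` -/
def tN : Fin 6 → E6 := ![E6.mk6 (-1) 0 0 0 0 0, E6.mk6 0 0 0 1 0 0, E6.mk6 0 1 0 0 0 0,
  E6.mk6 (-1) 1 0 0 0 0, E6.mk6 0 1 0 1 0 0, E6.mk6 0 0 (-1) 0 1 0]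
def tN' : Fin 6 → E6 := ![E6.mk6 (-1) 0 0 0 0 0, E6.mk6 (-1) 0 0 1 0 0, E6.mk6 3 0 (-1) 0 0 0,
  E6.mk6 (-2) 1 1 0 0 0, E6.mk6 (-3) 1 1 2 0 (-1), E6.mk6 (-2) 1 1 2 1 0]
def AN : Fin 6 → Fin 6 → Bool := ![![true, false, true, true, true, true],
  ![true, false, false, true, false, false], ![true, false, false, false, false, false],
  ![true, true, true, true, true, true], ![true, true, false, true, true, true],
  ![true, true, false, false, false, true]]

theorem signsN {g g' a b c : ℝ} (hg1 : 1.618 < g) (hg2 : g < 1.6181) (hg3 : -0.6181 < g')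
    (hg4 : g' < -0.618) (ha1 : -1.9 < a) (ha2 : a < -1.85) (hb1 : 0.3 < b) (hb2 : b < 0.4)
    (hc1 : 1.5 < c) (hc2 : c < 1.55) (j i : Fin 6) :
    if AN j i then ev ((![g, g, g, g', g', g'] : Fin 6 → ℝ) j)
        ((![a, b, c, a, b, c] : Fin 6 → ℝ) j) (((![a, b, c, a, b, c] : Fin 6 → ℝ) j) ^ 2) (tN i) < 0
      else 0 < ev ((![g, g, g, g', g', g'] : Fin 6 → ℝ) j)
        ((![a, b, c, a, b, c] : Fin 6 → ℝ) j) (((![a, b, c, a, b, c] : Fin 6 → ℝ) j) ^ 2) (tN i) := by
  fin_cases j <;> fin_cases i <;>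
    simp [AN, tN, ev, ev5, E6.mk6] <;> nlinarith


theorem decN : ∀ S : Finset (Fin 6), S.Nonempty →
    ∃ j, Odd (S.filter (fun i => AN j i = true)).card := by
  decide +kernel

theorem stmN : StmN := by
  intro X _ _ hX s e hs he
  -- integral elements
  have hfI : IsIntegral ℤ ((1 + s) / 2) := by
    refine ⟨Polynomial.X ^ 2 - Polynomial.X - 1, by monicity!, ?_⟩
    simp only [Polynomial.eval₂_sub, Polynomial.eval₂_pow, Polynomial.eval₂_X, Polynomial.eval₂_one]
    linear_combination (1 / 4) * hs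
  have heI : IsIntegral ℤ e := by
    refine ⟨Polynomial.X ^ 3 - 3 * Polynomial.X + 1, by monicity!, ?_⟩
    simp only [Polynomial.eval₂_sub, Polynomial.eval₂_add, Polynomial.eval₂_mul,
      Polynomial.eval₂_pow, Polynomial.eval₂_X, Polynomial.eval₂_one, Polynomial.eval₂_ofNat]
    exact he
  set f : 𝓞 X := ⟨_, hfI⟩ with hf_def
  set v : 𝓞 X := ⟨e, heI⟩ with hv_def
  have hf : f ^ 2 = f + 1 := by
    apply RingOfIntegers.ext
    simp only [map_pow, map_add, map_one]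
    change ((1 + s) / 2) ^ 2 = (1 + s) / 2 + 1
    linear_combination (1 / 4) * hs
  have hv : v ^ 3 = 3 * v - 1 := by
    apply RingOfIntegers.ext
    simp only [map_pow, map_sub, map_mul, map_one, map_ofNat]
    change e ^ 3 = 3 * e - 1
    linear_combination he
  have h1 : v * v = ev f v (v ^ 2) PN.p := by simp [PN, ev, ev5, E6.mk6]; ring
  have h2 : v * v ^ 2 = ev f v (v ^ 2) PN.q := by
    simp [PN, ev, ev5, E6.mk6]
    linear_combination hv
  have h3 : v ^ 2 * v ^ 2 = ev f v (v ^ 2) PN.r := by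
    simp [PN, ev, ev5, E6.mk6]
    linear_combination v * hv
  obtain ⟨b, hb⟩ := exists_basis hX PN f v (v ^ 2) hf h1 h2 h3 (E6.mk6 1 1 0 0 0 0)
    (E6.mk6 0 2 1 0 0 0) (E6.mk6 1 1 (-1) 0 0 0) (by decide +kernel) (by decide +kernel)
  obtain ⟨m, hm, hm0, hmz⟩ := exists_m PN hf h1 h2 h3 b hb detN
  -- real values
  obtain ⟨g, g', hg, hg', hgg, hg1, hg2, hg3, hg4⟩ := exists_gold
  obtain ⟨r₁, ha1, ha2, hr1⟩ := exists_root (p := -3) (q := 1) (a := -1.9) (b := -1.85)
    (by norm_num) (by norm_num) (by norm_num)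
  obtain ⟨r₂, hb1, hb2, hr2⟩ := exists_root' (p := -3) (q := 1) (a := 0.3) (b := 0.4)
    (by norm_num) (by norm_num) (by norm_num)
  obtain ⟨r₃, hc1, hc2, hr3⟩ := exists_root (p := -3) (q := 1) (a := 1.5) (b := 1.55)
    (by norm_num) (by norm_num) (by norm_num)
  have h12 : r₁ ≠ r₂ := by intro h; linarith
  have h13 : r₁ ≠ r₃ := by intro h; linarith
  have h23 : r₂ ≠ r₃ := by intro h; linarith
  obtain ⟨hG, hcp⟩ := embs hX b hb (![g, g, g, g', g', g'] : Fin 6 → ℝ)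
    (![r₁, r₂, r₃, r₁, r₂, r₃] : Fin 6 → ℝ)
    (fun i => ((![r₁, r₂, r₃, r₁, r₂, r₃] : Fin 6 → ℝ) i) ^ 2) (by
      intro F
      have hF1 : (F (algebraMap (𝓞 X) X f)) ^ 2 = F (algebraMap (𝓞 X) X f) + 1 := by
        rw [← map_pow, ← map_pow, hf, map_add, map_add, map_one, map_one]
      have hF2 : (F (algebraMap (𝓞 X) X v)) ^ 3 + ((-3 : ℝ) : ℂ) * F (algebraMap (𝓞 X) X v) +
          ((1 : ℝ) : ℂ) = 0 := by
        rw [← map_pow, ← map_pow, hv]
        simp only [map_sub, map_mul, map_one, map_ofNat]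
        push_cast
        ring
      have hF3 : F (algebraMap (𝓞 X) X (v ^ 2)) = (F (algebraMap (𝓞 X) X v)) ^ 2 := by
        rw [map_pow, map_pow]
      rcases quad_roots hg hgg _ hF1 with hh | hh <;>
        rcases cubic_roots hr1 hr2 hr3 h12 h13 h23 _ hF2 with hk | hk | hk
      · exact ⟨0, by simpa using hh, by simpa using hk, by rw [hF3, hk]; simp⟩
      · exact ⟨1, by simpa using hh, by simpa using hk, by rw [hF3, hk]; simp⟩
      · exact ⟨2, by simpa using hh, by simpa using hk, by rw [hF3, hk]; simp⟩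
      · exact ⟨3, by simpa using hh, by simpa using hk, by rw [hF3, hk]; simp⟩
      · exact ⟨4, by simpa using hh, by simpa using hk, by rw [hF3, hk]; simp⟩
      · exact ⟨5, by simpa using hh, by simpa using hk, by rw [hF3, hk]; simp⟩)
  -- residue contradictions
  have noroot : ∀ (Q : Ideal (𝓞 X)) [Q.IsPrime] (p : ℕ), p.Prime → (p : 𝓞 X) ∈ Q →
      absNorm Q = p → (∀ a b c : ZMod p, a ^ 2 = a + 1 → b * b = c →
        b * c = 3 * b - 1 → False) → False := by
    intro Q hQ p hp hpQ hN hno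
    obtain ⟨a, b, c, -, e1, e2, e3, -⟩ := residues PN hf h1 h2 h3 Q hp hpQ hN
    refine hno a b c e1 ?_ ?_
    · rw [e2]; simp [PN, ev, ev5, E6.mk6]
    · rw [e3]; simp [PN, ev, ev5, E6.mk6]; ring
  -- class number one
  have h3cube : (1 + v) ^ 3 = ((3 : ℕ) : 𝓞 X) * (2 * v + v ^ 2) := by
    push_cast
    linear_combination hv
  have hu3 : IsUnit (2 * v + v ^ 2) := by
    rw [isUnit_iff_exists_inv]
    exact ⟨1 + v - v ^ 2, by linear_combination (-v - 1) * hv⟩
  haveI hpid : IsPrincipalIdealRing (𝓞 X) := by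
    refine pid_of hX hcp hm hm0 13 (by norm_num) ?_
    intro Q hQ hQ0 hQN
    obtain ⟨p, k, hp, hk, hN, hpQ⟩ := exists_prime_pow Q hQ0
    have hp13 : p ≤ 13 := by
      calc p = p ^ 1 := (pow_one p).symm
        _ ≤ p ^ k := Nat.pow_le_pow_right hp.pos hk
        _ ≤ 13 := by rw [← hN]; exact hQN
    have hkk : p = 2 ∨ p = 3 ∨ k = 1 := by
      by_contra hcon
      push Not at hcon
      have hp5 : 5 ≤ p := by
        by_contra h
        push Not at h
        interval_cases p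
        · exact absurd hp (by norm_num)
        · exact absurd hp (by norm_num)
        · exact hcon.1 rfl
        · exact hcon.2.1 rfl
        · exact absurd hp (by norm_num)
      have : 5 ^ 2 ≤ p ^ k := (Nat.pow_le_pow_left hp5 2).trans
        (Nat.pow_le_pow_right hp.pos (by omega))
      omega
    rcases hkk with rfl | rfl | rfl
    · have h6 := no_small_two f v hf hv Q hQ0 hpQ hN
      have : 2 ^ 6 ≤ 2 ^ k := Nat.pow_le_pow_right (by norm_num) h6
      omega
    · exact ⟨_, eq_span_of_cube hX hp f hf (by decide) _ _ hu3 h3cube Q hpQ⟩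
    · exfalso
      rw [pow_one] at hN
      have hp' : p = 2 ∨ p = 3 ∨ p = 5 ∨ p = 7 ∨ p = 11 ∨ p = 13 := by
        interval_cases p <;> first | (exfalso; revert hp; norm_num; done) | simp
      rcases hp' with rfl | rfl | rfl | rfl | rfl | rfl
      · exact noroot Q 2 hp hpQ hN (by decide)
      · exact noroot Q 3 hp hpQ hN (by decide)
      · exact noroot Q 5 hp hpQ hN (by decide)
      · exact noroot Q 7 hp hpQ hN (by decide)
      · exact noroot Q 11 hp hpQ hN (by decide)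
      · exact noroot Q 13 hp hpQ hN (by decide)
  -- 2 is prime
  have h2p : Prime (2 : 𝓞 X) := by
    have h20 : ((2 : ℕ) : 𝓞 X) ≠ 0 := by exact_mod_cast (two_ne_zero : (2 : ℕ) ≠ 0)
    have := prime_of_unique hX Nat.prime_two ((2 : ℕ) : 𝓞 X) h20 (by
      intro Q hQ hQ2
      have hQ0 : Q ≠ ⊥ := by
        rintro rfl
        exact h20 (by simpa using hQ2)
      obtain ⟨p, k, hp, hk, hN, hpQ⟩ := exists_prime_pow Q hQ0
      have hdvd : absNorm Q ∣ 2 ^ 6 := by
        have := absNorm_dvd_absNorm_of_le ((span_singleton_le_iff_mem Q).2 hQ2)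
        rwa [absNorm_span_natCast, RingOfIntegers.rank, hX] at this
      obtain ⟨l, hl, hl'⟩ := (Nat.dvd_prime_pow Nat.prime_two).1 hdvd
      have h6 := no_small_two f v hf hv Q hQ0 hQ2 hl'
      have hl6 : l = 6 := by omega
      apply eq_span_of_absNorm Q _ hQ2 h20
      rw [hl', hl6, absNorm_span_natCast, RingOfIntegers.rank, hX])
    exact_mod_cast this
  refine twoRat_of (2 : 𝓞 X) 1 1 h2p ⟨0, by norm_num⟩ (by ring) isUnit_one ?_
  intro u hu
  exact units_of_table hX PN hf h1 h2 h3 _ _ _ hG tN tN' (by decide +kernel) AN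
    (fun j i => signsN hg1 hg2 hg3 hg4 ha1 ha2 hb1 hb2 hc1 hc2 j i) decN u hu

end MZ294
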