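import Mathlib

/-!
# MP_aa8fd2_nt: no roots in `ℚ(√5)` (helper294)
-/

set_option linter.unusedSectionVars false

namespace MZ294

open NumberField

lemma ratint_cube (r : ℚ) (c b a : ℤ) (h : r ^ 3 + a * r ^ 2 + b * r + c = 0) :
    ∃ n : ℤ, (n : ℚ) = r := by
  have hint : IsIntegral ℤ r := by
    refine ⟨Polynomial.X ^ 3 + Polynomial.C a * Polynomial.X ^ 2 + Polynomial.C b * Polynomial.X +
      Polynomial.C c, ?_, ?_⟩
    · monicity!
    · simp only [Polynomial.eval₂_add, Polynomial.eval₂_mul, Polynomial.eval₂_pow,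
        Polynomial.eval₂_X, Polynomial.eval₂_C]
      simp only [eq_intCast]
      exact h
  obtain ⟨n, hn⟩ := IsIntegrallyClosed.isIntegral_iff.mp hint
  exact ⟨n, by simpa using hn⟩

lemma norat_e (r : ℚ) : r ^ 3 - 3 * r + 1 ≠ 0 := by
  intro h
  obtain ⟨n, rfl⟩ := ratint_cube r 1 (-3) 0 (by push_cast; linear_combination h)
  have h1 : n * (3 - n ^ 2) = 1 := by
    have : ((n * (3 - n ^ 2) : ℤ) : ℚ) = 1 := by push_cast; linear_combination -h
    exact_mod_cast this
  rcases Int.eq_one_or_neg_one_of_mul_eq_one h1 with rfl | rfl <;> norm_num at h1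

lemma norat_u (r : ℚ) : 2 * r ^ 3 - 6 * r - 1 ≠ 0 := by
  intro h
  have hr : r ≠ 0 := by rintro rfl; norm_num at h
  obtain ⟨n, hn⟩ := ratint_cube r⁻¹ (-2) 0 6 (by
    push_cast; field_simp; linear_combination -h)
  have hrn : r = (n : ℚ)⁻¹ := by rw [hn, inv_inv]
  have hn0 : (n : ℚ) ≠ 0 := by rw [hn]; exact inv_ne_zero hr
  rw [hrn] at h
  have h1 : n ^ 2 * (n + 6) = 2 := by
    have : ((n ^ 2 * (n + 6) : ℤ) : ℚ) = 2 := by
      push_cast
      field_simp at h
      linear_combination -h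
    exact_mod_cast this
  have h2 : n ∣ 2 := ⟨n * (n + 6), by linear_combination -h1⟩
  have h3 : n ≤ 2 := Int.le_of_dvd (by norm_num) h2
  have h4 : -2 ≤ n := by
    have := Int.le_of_dvd (by norm_num) ((neg_dvd).mpr h2)
    linarith
  interval_cases n <;> norm_num at h1

section quad

variable {F : Type} [Field F] [NumberField F] (h2 : Module.finrank ℚ F = 2)

include h2

/-- Conjugation and coordinates in a quadratic field. -/
lemma conj_exists (s : F) (hs : s ^ 2 = 5) : ∃ c : F ≃ₐ[ℚ] F, c s = -s ∧ (∀ x, c (c x) = x) ∧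
    (∀ x : F, c x = x → ∃ q : ℚ, (q : F) = x) := by
  haveI : Algebra.IsQuadraticExtension ℚ F := ⟨h2⟩
  haveI : IsGalois ℚ F := inferInstance
  have hcard : Nat.card (F ≃ₐ[ℚ] F) = 2 := by
    rw [IsGalois.card_aut_eq_finrank, h2]
  have hnot : ¬ ∃ q : ℚ, (q : F) = s := by
    rintro ⟨q, rfl⟩
    have h5 : q ^ 2 = 5 := by exact_mod_cast hs
    have : IsSquare (5 : ℚ) := ⟨q, by rw [← h5]; ring⟩
    rw [Rat.isSquare_iff] at this
    have h' := this.1
    norm_num at h'
  obtain ⟨c, hc⟩ : ∃ c : F ≃ₐ[ℚ] F, c s ≠ s := by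
    by_contra hcon
    push Not at hcon
    obtain ⟨q, hq⟩ := (IsGalois.mem_range_algebraMap_iff_fixed (F := ℚ) (E := F) s).mpr
      (fun f => hcon f)
    exact hnot ⟨q, by simpa using hq⟩
  have hcs : c s = -s := by
    have h1 : (c s) ^ 2 = s ^ 2 := by rw [← map_pow, hs]; exact map_ofNat _ 5
    rcases sq_eq_sq_iff_eq_or_eq_neg.mp h1 with h | h
    · exact absurd h hc
    · exact h
  have hc1 : c ≠ 1 := by rintro rfl; exact hc rfl
  have hall : ∀ g : F ≃ₐ[ℚ] F, g = 1 ∨ g = c := by
    intro g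
    classical
    by_contra hcon
    push Not at hcon
    have hsub : ({1, c, g} : Finset (F ≃ₐ[ℚ] F)).card ≤ Nat.card (F ≃ₐ[ℚ] F) := by
      rw [Nat.card_eq_fintype_card]; exact Finset.card_le_univ _
    rw [hcard, Finset.card_insert_of_notMem, Finset.card_insert_of_notMem, Finset.card_singleton] at hsub
    · omega
    · simp; exact fun h => hcon.2 h.symm
    · simp; exact ⟨fun h => hc1 h.symm, fun h => hcon.1 h.symm⟩
  refine ⟨c, hcs, ?_, ?_⟩
  · intro x
    rcases hall (c * c) with h | h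
    · have := congrArg (fun g : F ≃ₐ[ℚ] F => g x) h
      simpa using this
    · exfalso
      apply hc1
      have : c * c = c * 1 := by rw [h, mul_one]
      exact mul_left_cancel this
  · intro x hx
    obtain ⟨q, hq⟩ := (IsGalois.mem_range_algebraMap_iff_fixed (F := ℚ) (E := F) x).mpr (fun f => by
      rcases hall f with rfl | rfl
      · rfl
      · exact hx)
    exact ⟨q, by simpa using hq⟩

lemma cubic_rat (s : F) (hs : s ^ 2 = 5) (d : ℚ) (x : F) (hx : x ^ 3 - 3 * x = d) :
    ∃ r : ℚ, r ^ 3 - 3 * r = d := by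
  obtain ⟨c, -, hcc, hrat⟩ := conj_exists h2 s hs
  by_cases hcx : c x = x
  · obtain ⟨q, rfl⟩ := hrat x hcx
    exact ⟨q, by exact_mod_cast hx⟩
  · have hx' : (c x) ^ 3 - 3 * (c x) = d := by
      have := congrArg c hx
      simp only [map_sub, map_pow, map_mul, map_ofNat, map_ratCast] at this
      exact this
    obtain ⟨q, hq⟩ := hrat (x + c x) (by rw [map_add, hcc, add_comm])
    have h1 : x ^ 2 + x * c x + (c x) ^ 2 = 3 := by
      have : (x - c x) * (x ^ 2 + x * c x + (c x) ^ 2 - 3) = 0 := by linear_combination hx - hx'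
      rcases mul_eq_zero.mp this with h | h
      · exact absurd (sub_eq_zero.mp h).symm hcx
      · linear_combination h
    refine ⟨-q, ?_⟩
    have : ((-q : ℚ) : F) ^ 3 - 3 * ((-q : ℚ) : F) = (d : F) := by
      push_cast
      rw [hq, ← hx]
      linear_combination (-2 * x - c x) * h1
    exact_mod_cast this

lemma noroot_e (s : F) (hs : s ^ 2 = 5) (x : F) : x ^ 3 - 3 * x + 1 ≠ 0 := by
  intro h
  obtain ⟨r, hr⟩ := cubic_rat h2 s hs (-1) x (by push_cast; linear_combination h)
  exact norat_e r (by linear_combination hr)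

lemma noroot_u (s : F) (hs : s ^ 2 = 5) (x : F) : 2 * x ^ 3 - 6 * x - 1 ≠ 0 := by
  intro h
  obtain ⟨r, hr⟩ := cubic_rat h2 s hs (1 / 2) x (by push_cast; linear_combination h / 2)
  exact norat_u r (by linear_combination 2 * hr)

lemma noroot_p (s x : F) (hs : s ^ 2 = 5) : 4 * (x ^ 3 - 3 * x) + (1 + 3 * s) ≠ 0 := by
  intro h
  obtain ⟨c, hcs, hcc, hrat⟩ := conj_exists h2 s hs
  -- `v = 2x` is integral
  set v : F := 2 * x with hv
  have hvx : v ^ 3 - 12 * v + 2 * (1 + 3 * s) = 0 := by rw [hv]; linear_combination 2 * h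
  have hvint : IsIntegral ℤ v := by
    have hk : IsIntegral ℤ ((1 + 3 * s) / 2 : F) := by
      refine ⟨Polynomial.X ^ 2 - Polynomial.X - Polynomial.C 11, ?_, ?_⟩
      · monicity!
      · simp; linear_combination 9 / 4 * hs
    have hp : (v ^ 3 - 12 * v) ^ 2 + 4 * (v ^ 3 - 12 * v) - 176 = 0 := by
      linear_combination (v ^ 3 - 12 * v - 2 * (1 + 3 * s) + 4) * hvx + 36 * hs
    refine ⟨(Polynomial.X ^ 3 - Polynomial.C 12 * Polynomial.X) ^ 2 +
      Polynomial.C 4 * (Polynomial.X ^ 3 - Polynomial.C 12 * Polynomial.X) - Polynomial.C 176, ?_, ?_⟩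
    · monicity!
    · simp only [Polynomial.eval₂_sub, Polynomial.eval₂_add, Polynomial.eval₂_pow,
        Polynomial.eval₂_mul, Polynomial.eval₂_X, Polynomial.eval₂_C]
      simp only [eq_intCast]; push_cast; linear_combination hp
  have hcvint : IsIntegral ℤ (c v) := hvint.map c.toAlgHom
  obtain ⟨a, ha⟩ := hrat (v + c v) (by rw [map_add, hcc, add_comm])
  obtain ⟨n, hn⟩ := hrat (v * c v) (by rw [map_mul, hcc, mul_comm])
  have hai : ∃ a' : ℤ, (a' : ℚ) = a := by
    have : IsIntegral ℤ ((algebraMap ℚ F) a) := by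
      have h' : (algebraMap ℚ F) a = v + c v := by rw [← ha]; simp
      rw [h']; exact hvint.add hcvint
    have := (isIntegral_algebraMap_iff (algebraMap ℚ F).injective).mp this
    obtain ⟨a', ha'⟩ := IsIntegrallyClosed.isIntegral_iff.mp this
    exact ⟨a', by simpa using ha'⟩
  have hni : ∃ n' : ℤ, (n' : ℚ) = n := by
    have : IsIntegral ℤ ((algebraMap ℚ F) n) := by
      have h' : (algebraMap ℚ F) n = v * c v := by rw [← hn]; simp
      rw [h']; exact hvint.mul hcvint
    have := (isIntegral_algebraMap_iff (algebraMap ℚ F).injective).mp this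
    obtain ⟨a', ha'⟩ := IsIntegrallyClosed.isIntegral_iff.mp this
    exact ⟨a', by simpa using ha'⟩
  obtain ⟨a', rfl⟩ := hai
  obtain ⟨n', rfl⟩ := hni
  push_cast at ha hn
  have hcv : (c v) ^ 3 - 12 * c v + 2 * (1 - 3 * s) = 0 := by
    have := congrArg c hvx
    simp only [map_add, map_sub, map_mul, map_pow, map_ofNat, map_one, hcs, map_zero] at this
    linear_combination this
  -- sum of the two equations
  have e1 : (a' : F) ^ 3 - 3 * a' * n' - 12 * a' + 4 = 0 := by
    rw [ha, hn]; linear_combination hvx + hcv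
  have e1' : a' * (a' ^ 2 - 3 * n' - 12) = -4 := by
    have : ((a' * (a' ^ 2 - 3 * n' - 12) : ℤ) : F) = ((-4 : ℤ) : F) := by
      push_cast; linear_combination e1
    exact_mod_cast this
  -- difference
  obtain ⟨q, hq⟩ := hrat ((v - c v) * s) (by
    rw [map_mul, map_sub, hcc, hcs]; ring)
  have e2 : q ^ 2 = 5 * (a' ^ 2 - 4 * n') := by
    have : ((q : F)) ^ 2 = 5 * ((a' : F) ^ 2 - 4 * n') := by
      rw [hq, ha, hn]; linear_combination (v - c v) ^ 2 * hs
    exact_mod_cast this
  obtain ⟨q', hq'⟩ : ∃ q' : ℤ, (q' : ℚ) = q := by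
    have : IsIntegral ℤ q := by
      refine ⟨Polynomial.X ^ 2 - Polynomial.C (5 * (a' ^ 2 - 4 * n')), ?_, ?_⟩
      · monicity!
      · simp only [Polynomial.eval₂_sub, Polynomial.eval₂_pow,
          Polynomial.eval₂_X, Polynomial.eval₂_C]
        simp only [eq_intCast]
        rw [e2]; push_cast; ring
    obtain ⟨q', hq'⟩ := IsIntegrallyClosed.isIntegral_iff.mp this
    exact ⟨q', by simpa using hq'⟩
  have e2' : q' ^ 2 = 5 * (a' ^ 2 - 4 * n') := by
    rw [← hq'] at e2; exact_mod_cast e2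
  have hdvd : a' ∣ 4 := ⟨-(a' ^ 2 - 3 * n' - 12), by linear_combination e1'⟩
  have h3 : a' ≤ 4 := Int.le_of_dvd (by norm_num) hdvd
  have h4 : -4 ≤ a' := by
    have := Int.le_of_dvd (by norm_num) ((neg_dvd).mpr hdvd)
    linarith
  have hsq : ∀ m : ℤ, q' ^ 2 = m → m = 105 ∨ m = 60 → False := by
    intro m hm hm'
    have hq1 : q' < 11 := by rcases hm' with h | h <;> nlinarith
    have hq2 : -11 < q' := by rcases hm' with h | h <;> nlinarith
    interval_cases q' <;> omega
  interval_cases a'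
  all_goals try omega
  · have hn5 : n' = 1 := by omega
    subst hn5
    exact hsq _ e2' (by norm_num)
  · have hn5 : n' = -5 := by omega
    subst hn5
    exact hsq _ e2' (by norm_num)
  · have hn5 : n' = -2 := by omega
    subst hn5
    exact hsq _ e2' (by norm_num)

end quad

end MZ294
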