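import Pool.Agent.W294.MZ.Field

/-!
# MP_aa8fd2_nt: transfer of `TwoRat` to the compositum (helper294)
-/

set_option linter.unusedSectionVars false

namespace MZ294

open NumberField IsDedekindDomain

lemma EvenOut2.mul {X : Type} [Field X] [NumberField X] {a b : X} (ha : EvenOut2 X a)
    (hb : EvenOut2 X b) : EvenOut2 X (a * b) := fun v hv => by
  rw [map_mul]; exact (ha v hv).mul (hb v hv)

lemma isSquare_of_pow_odd {c : WithZero (Multiplicative ℤ)} (hc : c ≠ 0) {e : ℕ} (he : Odd e)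
    (h : IsSquare (c ^ e)) : IsSquare c := by
  obtain ⟨m, rfl⟩ := he
  obtain ⟨d, hd⟩ := h
  refine ⟨d * (c ^ m)⁻¹, ?_⟩
  have hcm : c ^ m ≠ 0 := pow_ne_zero _ hc
  have h1 : c * (c ^ m * c ^ m) = d * d := by
    rw [← hd, ← pow_add, ← pow_succ']; congr 1; ring
  calc c = c * (c ^ m * c ^ m) * ((c ^ m)⁻¹ * (c ^ m)⁻¹) := by
        field_simp
    _ = d * d * ((c ^ m)⁻¹ * (c ^ m)⁻¹) := by rw [h1]
    _ = d * (c ^ m)⁻¹ * (d * (c ^ m)⁻¹) := by
        rw [mul_assoc, mul_assoc, mul_left_comm d (c ^ m)⁻¹]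

/-- Even valuations descend along odd degree extensions. -/
lemma evenOut2_descend {X L : Type} [Field X] [NumberField X] [Field L] [NumberField L]
    [Algebra X L] (hodd : Odd (Module.finrank X L)) (x : X) (hx0 : x ≠ 0)
    (hx : EvenOut2 L (algebraMap X L x)) : EvenOut2 X x := by
  intro v hv
  classical
  have hsum := Ideal.sum_ramification_inertia (R := 𝓞 X) (S := 𝓞 L) (K := X) (L := L)
    (p := v.asIdeal) v.ne_bot
  obtain ⟨P, hP, hPodd⟩ : ∃ P ∈ IsDedekindDomain.primesOverFinset v.asIdeal (𝓞 L),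
      Odd (Ideal.ramificationIdx' v.asIdeal P) := by
    by_contra hcon
    push Not at hcon
    have : Even (Module.finrank X L) := by
      rw [← hsum]
      refine Finset.even_sum _ fun P hP => ?_
      exact (Nat.not_odd_iff_even.mp (hcon P hP)).mul_right _
    exact (Nat.not_even_iff_odd.mpr hodd) this
  rw [IsDedekindDomain.mem_primesOverFinset_iff v.ne_bot] at hP
  obtain ⟨hPp, hPl⟩ := hP
  haveI := hPp
  haveI := hPl
  have hPbot : P ≠ ⊥ := Ideal.ne_bot_of_liesOver_of_ne_bot v.ne_bot P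
  let w : HeightOneSpectrum (𝓞 L) := ⟨P, hPp, hPbot⟩
  haveI : w.asIdeal.LiesOver v.asIdeal := hPl
  have hw2 : (2 : 𝓞 L) ∉ w.asIdeal := by
    intro h
    apply hv
    rw [hPl.over, Ideal.mem_comap]
    have : algebraMap (𝓞 X) (𝓞 L) 2 = 2 := map_ofNat _ 2
    rw [this]; exact h
  have h1 := hx w hw2
  rw [← HeightOneSpectrum.valuation_liesOver L v w] at h1
  exact isSquare_of_pow_odd ((v.valuation X).ne_zero_iff.mpr hx0) hPodd h1

/-- Even valuations are invariant under isomorphisms of number fields. -/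
lemma evenOut2_ringEquiv {X L : Type} [Field X] [NumberField X] [Field L] [NumberField L]
    (g : X ≃+* L) (x : X) (hx0 : x ≠ 0) (hx : EvenOut2 L (g x)) : EvenOut2 X x := by
  letI : Algebra X L := g.toRingHom.toAlgebra
  have h1 : Module.finrank X L = 1 := by
    have e : X ≃ₗ[X] L := LinearEquiv.ofBijective (Algebra.linearMap X L) g.bijective
    rw [← e.finrank_eq, Module.finrank_self]
  exact evenOut2_descend (by rw [h1]; exact odd_one) x hx0 hx

/-- square or twice a square -/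
def Sq2 {L : Type} [Field L] (x : L) : Prop := IsSquare x ∨ IsSquare (2 * x)

lemma Sq2.mul {L : Type} [Field L] [CharZero L] {x y : L} (hx : Sq2 x) (hy : Sq2 y) :
    Sq2 (x * y) := by
  rcases hx with ⟨d, hd⟩ | ⟨d, hd⟩ <;> rcases hy with ⟨e, he⟩ | ⟨e, he⟩
  · exact Or.inl ⟨d * e, by rw [hd, he]; ring⟩
  · exact Or.inr ⟨d * e, by linear_combination (2 * y) * hd + d * d * he⟩
  · exact Or.inr ⟨d * e, by linear_combination (2 * x) * he + e * e * hd⟩
  · refine Or.inl ⟨d * e / 2, ?_⟩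
    field_simp
    linear_combination (2 * y) * hd + d ^ 2 * he

lemma Sq2.map {L L' : Type} [Field L] [Field L'] {x : L} (hx : Sq2 x) (g : L →+* L') :
    Sq2 (g x) := by
  rcases hx with ⟨d, hd⟩ | ⟨d, hd⟩
  · exact Or.inl ⟨g d, by rw [hd, map_mul]⟩
  · exact Or.inr ⟨g d, by rw [← map_mul, ← hd, map_mul, map_ofNat]⟩

lemma Sq2.of_mul_sq {L : Type} [Field L] {x d : L} (hd : d ≠ 0) (h : Sq2 (x * (d * d))) :
    Sq2 x := by
  rcases h with ⟨e, he⟩ | ⟨e, he⟩
  · exact Or.inl ⟨e / d, by field_simp; linear_combination he⟩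
  · exact Or.inr ⟨e / d, by field_simp; linear_combination he⟩

variable {F L : Type} [Field F] [NumberField F] [Field L] [NumberField L] [Algebra F L]

/-- norm over the subgroup generated by an element with `ρ³ = 1` -/
lemma norm3_sq2 (htr : ∀ f : L →+* ℂ, ComplexEmbedding.IsReal f) (r : L ≃ₐ[F] L) (hr : r ^ 3 = 1)
    (hX : TwoRat (IntermediateField.fixedField (Subgroup.zpowers r)))
    (a : L) (ha0 : a ≠ 0) (hpos : ∀ f : L →+* ℝ, 0 < f a) (hev : EvenOut2 L a) :
    Sq2 (a * r a * r (r a)) := by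
  classical
  set X := IntermediateField.fixedField (Subgroup.zpowers r) with hXdef
  have hr0 : ∀ x : L, x ≠ 0 → r x ≠ 0 := fun x hx => by
    rwa [Ne, map_eq_zero_iff r r.injective]
  set n := a * r a * r (r a) with hn
  have hn0 : n ≠ 0 := mul_ne_zero (mul_ne_zero ha0 (hr0 _ ha0)) (hr0 _ (hr0 _ ha0))
  have hr3 : r (r (r a)) = a := by
    have : (r ^ 3) a = a := by rw [hr]; rfl
    simpa [pow_succ] using this
  have hrn : r n = n := by
    rw [hn, map_mul, map_mul, hr3]; ring
  have hmem : n ∈ X := by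
    rw [hXdef, IntermediateField.mem_fixedField_iff]
    intro f hf
    obtain ⟨i, rfl⟩ := Subgroup.mem_zpowers_iff.mp hf
    have : r ∈ MulAction.stabilizer (L ≃ₐ[F] L) n := by
      rw [MulAction.mem_stabilizer_iff]; exact hrn
    have h2 := Subgroup.zpow_mem _ this i
    rw [MulAction.mem_stabilizer_iff] at h2
    exact h2
  have hcard : Odd (Module.finrank X L) := by
    rw [hXdef, IntermediateField.finrank_fixedField_eq_card, Nat.card_zpowers]
    have : orderOf r ∣ 3 := orderOf_dvd_of_pow_eq_one hr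
    exact Odd.of_dvd_nat (by decide) this
  -- evenness of the norm
  have hconj : ∀ b : L, b ≠ 0 → EvenOut2 L b → EvenOut2 L (r b) := by
    intro b hb0 hb
    apply evenOut2_ringEquiv (r.symm : L ≃+* L) _ (hr0 _ hb0)
    have : (r.symm : L ≃+* L) (r b) = b := r.symm_apply_apply b
    rw [this]; exact hb
  have hevn : EvenOut2 L n := (hev.mul (hconj _ ha0 hev)).mul (hconj _ (hr0 _ ha0) (hconj _ ha0 hev))
  have hevx : EvenOut2 X ⟨n, hmem⟩ := evenOut2_descend hcard _
    (by intro h; exact hn0 (congrArg Subtype.val h)) hevn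
  have hposx : ∀ f : X →+* ℝ, 0 < f ⟨n, hmem⟩ := by
    intro f
    -- extend to `L → ℂ`
    let fC : X →+* ℂ := Complex.ofRealHom.comp f
    letI : Algebra X ℂ := fC.toAlgebra
    let g : L →ₐ[X] ℂ := IsAlgClosed.lift
    have hg : ∀ x : X, g (x : L) = (f x : ℂ) := fun x => g.commutes x
    have hreal := htr g.toRingHom
    let gr : L →+* ℝ := ComplexEmbedding.IsReal.embedding hreal
    have hgr : ∀ x : L, ((gr x : ℝ) : ℂ) = g x := fun x => hreal.coe_embedding_apply x
    have h1 : (f ⟨n, hmem⟩ : ℝ) = gr n := by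
      have : ((f ⟨n, hmem⟩ : ℝ) : ℂ) = (gr n : ℂ) := by rw [hgr, ← hg]
      exact_mod_cast this
    rw [h1, hn, map_mul, map_mul]
    have p1 := hpos gr
    have p2 := hpos (gr.comp (r : L →+* L))
    have p3 := hpos ((gr.comp (r : L →+* L)).comp (r : L →+* L))
    exact mul_pos (mul_pos p1 p2) p3
  have h := hX ⟨n, hmem⟩ (by intro h; exact hn0 (congrArg Subtype.val h)) hposx hevx
  have h' : Sq2 ((algebraMap X L) ⟨n, hmem⟩) := Sq2.map h (algebraMap X L)
  exact h'

/-- The transfer: `C₃ × C₃` acting. -/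
theorem twoRat_of_four (htr : ∀ f : L →+* ℂ, ComplexEmbedding.IsReal f) (s t : L ≃ₐ[F] L)
    (hs : s ^ 3 = 1) (ht : t ^ 3 = 1) (hst : s * t = t * s)
    (h1 : TwoRat (IntermediateField.fixedField (Subgroup.zpowers s)))
    (h2 : TwoRat (IntermediateField.fixedField (Subgroup.zpowers t)))
    (h3 : TwoRat (IntermediateField.fixedField (Subgroup.zpowers (s * t))))
    (h4 : TwoRat (IntermediateField.fixedField (Subgroup.zpowers (s * t ^ 2)))) :
    TwoRat L := by
  intro a ha0 hpos hev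
  have hcomm : Commute s t := hst
  have hst3 : (s * t) ^ 3 = 1 := by rw [hcomm.mul_pow, hs, ht, one_mul]
  have hst3' : (s * t ^ 2) ^ 3 = 1 := by
    rw [(hcomm.pow_right 2).mul_pow, hs, ← pow_mul, mul_comm 2 3, pow_mul, ht, one_pow, one_mul]
  have n1 := norm3_sq2 htr s hs h1 a ha0 hpos hev
  have n2 := norm3_sq2 htr t ht h2 a ha0 hpos hev
  have n3 := norm3_sq2 htr (s * t) hst3 h3 a ha0 hpos hev
  have n4 := norm3_sq2 htr (s * t ^ 2) hst3' h4 a ha0 hpos hev
  have n5 := (n1.mul (n1.map (t : L →+* L))).mul ((n1.map (t : L →+* L)).map (t : L →+* L))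
  have hst' : ∀ x : L, s (t x) = t (s x) := fun x => by
    have := congrArg (fun g : L ≃ₐ[F] L => g x) hst
    simpa using this
  have hs3 : ∀ x : L, s (s (s x)) = x := fun x => by
    have : (s ^ 3) x = x := by rw [hs]; rfl
    simpa [pow_succ] using this
  have ht3 : ∀ x : L, t (t (t x)) = x := fun x => by
    have : (t ^ 3) x = x := by rw [ht]; rfl
    simpa [pow_succ] using this
  have hn0 : ∀ g : L ≃ₐ[F] L, ∀ x : L, x ≠ 0 → g x ≠ 0 := fun g x hx => by
    rwa [Ne, map_eq_zero_iff g g.injective]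
  have n6 := ((((n1.mul n2).mul n3).mul n4).mul n5)
  have key : Sq2 (a * ((a * (a * s a * s (s a) * t (a * s a * s (s a)) * t (t (a * s a * s (s a))))) *
      (a * (a * s a * s (s a) * t (a * s a * s (s a)) * t (t (a * s a * s (s a))))))) := by
    convert n6 using 1
    simp only [AlgEquiv.mul_apply, pow_two, map_mul, RingHom.coe_coe, hst', hs3, ht3]
    ring
  refine Sq2.of_mul_sq ?_ key
  have q1 : a * s a * s (s a) ≠ 0 :=
    mul_ne_zero (mul_ne_zero ha0 (hn0 _ _ ha0)) (hn0 _ _ (hn0 _ _ ha0))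
  exact mul_ne_zero ha0 (mul_ne_zero (mul_ne_zero q1 (hn0 _ _ q1)) (hn0 _ _ (hn0 _ _ q1)))

end MZ294
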