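import Pool.Agent.W294.MZ.Lam
import Pool.Agent.W294.MZ.Transfer
import Pool.Agent.W294.MZ.NoRoot

/-!
# MP_aa8fd2_nt: the field `L` (helper294)
-/

set_option linter.unusedSectionVars false

namespace MZ294

open NumberField IsDedekindDomain

/-- Complex conjugation attached to an embedding whose restriction to `F` is real. -/
lemma exists_conj {F E : Type} [Field F] [Field E] [Algebra F E] [Normal F E]
    (f : E →+* ℂ) (hF : ComplexEmbedding.IsReal (f.comp (algebraMap F E))) :
    ∃ c : E ≃ₐ[F] E, (∀ x, f (c x) = (starRingEnd ℂ) (f x)) ∧ c * c = 1 := by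
  letI : Algebra E ℂ := f.toAlgebra
  letI : Algebra F ℂ := (f.comp (algebraMap F E)).toAlgebra
  haveI : IsScalarTower F E ℂ := IsScalarTower.of_algebraMap_eq' rfl
  let psi : E →ₐ[F] ℂ :=
    { (starRingEnd ℂ).comp f with
      commutes' := fun x => RingHom.congr_fun hF x }
  have h1 : ∀ x, f (psi.restrictNormal' E x) = (starRingEnd ℂ) (f x) := fun x =>
    psi.restrictNormal_commutes E x
  refine ⟨psi.restrictNormal' E, h1, ?_⟩
  ext x
  apply f.injective
  rw [AlgEquiv.mul_apply, h1, h1, Complex.conj_conj]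
  rfl

/-- `F = ℚ(√5)` is totally real. -/
lemma real_of_quad {F : Type} [Field F] [NumberField F] (h2 : Module.finrank ℚ F = 2)
    (s : F) (hs : s ^ 2 = 5) (f : F →+* ℂ) : ComplexEmbedding.IsReal f := by
  obtain ⟨c, hcs, hcc, hrat⟩ := conj_exists h2 s hs
  have hs0 : s ≠ 0 := by rintro rfl; norm_num at hs
  have hfs : (starRingEnd ℂ) (f s) = f s := by
    have h5 : (f s) ^ 2 = 5 := by rw [← map_pow, hs]; exact map_ofNat _ 5
    have h5' : (f s) ^ 2 = ((Real.sqrt 5 : ℝ) : ℂ) ^ 2 := by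
      rw [h5, ← Complex.ofReal_pow, Real.sq_sqrt (by norm_num)]; norm_num
    rcases sq_eq_sq_iff_eq_or_eq_neg.mp h5' with h | h <;> rw [h] <;> simp
  ext x
  obtain ⟨p, hp⟩ := hrat (x + c x) (by rw [map_add, hcc, add_comm])
  obtain ⟨q, hq⟩ := hrat ((x - c x) * s) (by rw [map_mul, map_sub, hcc, hcs]; ring)
  have hx : x = (p : F) / 2 + (q : F) * s / 10 := by
    rw [hp, hq]; linear_combination (-(x - c x) / 10) * hs
  have hfx : f x = (p : ℂ) / 2 + (q : ℂ) * f s / 10 := by
    rw [hx]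
    simp only [map_add, map_div₀, map_mul, map_ratCast, map_ofNat]
  rw [ComplexEmbedding.conjugate_coe_eq, hfx]
  simp only [map_add, map_div₀, map_mul, map_ratCast, map_ofNat, hfs]

lemma pa_pt_invol (a t : ZMod 9) (ha : a = 1 ∨ a = 4 ∨ a = 7) (h1 : a * a = 1)
    (h2 : t + a * t = 0) : a = 1 ∧ t = 0 := by
  revert h1 h2 ha; revert a t; decide

namespace Dat

variable {F E : Type} [Field F] [CharZero F] [Field E] [Algebra F E] (D : Dat F E)

lemma invol_triv (c : E ≃ₐ[F] E) (hc : c * c = 1) : D.pa c = 1 ∧ D.pt c = 0 := by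
  have h1 := D.pa_mul c c
  have h2 := D.pt_mul c c
  rw [hc, D.pa_one] at h1
  rw [hc, D.pt_one] at h2
  exact pa_pt_invol _ _ (D.pa_mem c) h1.symm h2.symm

lemma Lam_invol (c : E ≃ₐ[F] E) (hc : c * c = 1) : D.Lam c = 1 := by
  rw [D.Lam_apply, (D.invol_triv c hc).1, (D.invol_triv c hc).2]; decide

lemma rho_invol {k : Type} [Field k] (w : k) (hw : w ^ 3 = 1) (c : E ≃ₐ[F] E) (hc : c * c = 1) :
    D.rho w hw c = 1 := by
  apply Units.ext
  rw [D.rho_coe, (D.invol_triv c hc).1, (D.invol_triv c hc).2, mat_one]; rfl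

/-- The field `L`. -/
noncomputable def Lf : IntermediateField F E := IntermediateField.fixedField D.Lam.ker

/-- The finite extension `F(ζ,y)`. -/
noncomputable def K0 : IntermediateField F E := IntermediateField.adjoin F {D.z, D.y}

instance [Algebra.IsIntegral F E] : FiniteDimensional F D.K0 := by
  apply IntermediateField.finiteDimensional_adjoin
  intro x _; exact Algebra.IsIntegral.isIntegral x

lemma pa_pt_of_fix (g : E ≃ₐ[F] E) (hg : g ∈ D.K0.fixingSubgroup) : D.pa g = 1 ∧ D.pt g = 0 := by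
  have h1 : g D.z = D.z := (IntermediateField.mem_fixingSubgroup_iff _ _).mp hg _
    (IntermediateField.subset_adjoin _ _ (by simp))
  have h2 : g D.y = D.y := (IntermediateField.mem_fixingSubgroup_iff _ _).mp hg _
    (IntermediateField.subset_adjoin _ _ (by simp))
  have := D.pa_pt_eq g (a := 1) (t := 0) (e := 1) ⟨by simp [h1], by simp [h2]⟩ (by simp) (by simp)
  simpa using this

lemma K0_le_ker : D.K0.fixingSubgroup ≤ D.Lam.ker := by
  intro g hg
  rw [MonoidHom.mem_ker, D.Lam_apply, (D.pa_pt_of_fix g hg).1, (D.pa_pt_of_fix g hg).2]; decide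

lemma K0_le_rho_ker {k : Type} [Field k] (w : k) (hw : w ^ 3 = 1) :
    D.K0.fixingSubgroup ≤ (D.rho w hw).ker := by
  intro g hg
  rw [MonoidHom.mem_ker]
  apply Units.ext
  rw [D.rho_coe, (D.pa_pt_of_fix g hg).1, (D.pa_pt_of_fix g hg).2, mat_one]; rfl

variable [IsGalois F E]

lemma ker_open : IsOpen (D.Lam.ker : Set (E ≃ₐ[F] E)) :=
  Subgroup.isOpen_mono D.K0_le_ker (IntermediateField.fixingSubgroup_isOpen D.K0)

lemma rho_ker_open {k : Type} [Field k] (w : k) (hw : w ^ 3 = 1) :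
    IsOpen ((D.rho w hw).ker : Set (E ≃ₐ[F] E)) :=
  Subgroup.isOpen_mono (D.K0_le_rho_ker w hw) (IntermediateField.fixingSubgroup_isOpen D.K0)

lemma Lf_fixing : D.Lf.fixingSubgroup = D.Lam.ker := by
  have hcl : IsClosed (D.Lam.ker : Set (E ≃ₐ[F] E)) := Subgroup.isClosed_of_isOpen _ D.ker_open
  exact InfiniteGalois.fixingSubgroup_fixedField ⟨D.Lam.ker, hcl⟩

instance : IsGalois F D.Lf := by
  rw [← InfiniteGalois.normal_iff_isGalois, D.Lf_fixing]
  infer_instance

instance : FiniteDimensional F D.Lf := by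
  rw [← InfiniteGalois.isOpen_iff_finite, D.Lf_fixing]
  exact D.ker_open

lemma mem_Lf (x : E) (hx : ∀ g : E ≃ₐ[F] E, D.Lam g = 1 → g x = x) : x ∈ D.Lf := by
  rw [Lf, IntermediateField.mem_fixedField_iff]
  intro f hf
  exact hx f hf

/-- restriction to `L`. -/
noncomputable def res : (E ≃ₐ[F] E) →* (D.Lf ≃ₐ[F] D.Lf) := AlgEquiv.restrictNormalHom D.Lf

lemma res_apply (g : E ≃ₐ[F] E) (x : D.Lf) : ((D.res g x : D.Lf) : E) = g x :=
  AlgEquiv.restrictNormal_commutes g D.Lf x

lemma res_surj : Function.Surjective D.res := AlgEquiv.restrictNormalHom_surjective E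

lemma res_ker : D.res.ker = D.Lam.ker := by
  rw [← D.Lf_fixing]; exact IntermediateField.restrictNormalHom_ker D.Lf

lemma res_eq_one (g : E ≃ₐ[F] E) : D.res g = 1 ↔ D.Lam g = 1 := by
  rw [← MonoidHom.mem_ker, D.res_ker, MonoidHom.mem_ker]

lemma card_gal (hsurj : Function.Surjective D.Lam) : Nat.card (D.Lf ≃ₐ[F] D.Lf) = 9 := by
  have e1 := QuotientGroup.quotientKerEquivOfSurjective D.res D.res_surj
  have e2 := QuotientGroup.quotientKerEquivOfSurjective D.Lam hsurj
  have e3 : Nat.card ((E ≃ₐ[F] E) ⧸ D.res.ker) = Nat.card ((E ≃ₐ[F] E) ⧸ D.Lam.ker) := by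
    rw [← Subgroup.index, ← Subgroup.index, D.res_ker]
  rw [← Nat.card_congr e1.toEquiv, e3, Nat.card_congr e2.toEquiv]
  simp

/-- `L` is totally real. -/
lemma Lf_real (hF : ∀ f : F →+* ℂ, ComplexEmbedding.IsReal f) (f : D.Lf →+* ℂ) :
    ComplexEmbedding.IsReal f := by
  letI : Algebra D.Lf ℂ := f.toAlgebra
  let g : E →ₐ[D.Lf] ℂ := IsAlgClosed.lift
  obtain ⟨c, hc, hcc⟩ := exists_conj (F := F) g.toRingHom (hF _)
  have hL := D.Lam_invol c hcc
  ext x
  have h1 : c (x : E) = x := by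
    have : c ∈ D.Lf.fixingSubgroup := by rw [D.Lf_fixing]; exact hL
    exact (IntermediateField.mem_fixingSubgroup_iff _ _).mp this x x.2
  have h2 := hc x
  rw [h1] at h2
  have h3 : g (x : E) = f x := g.commutes x
  rw [ComplexEmbedding.conjugate_coe_eq, ← h3]
  exact h2.symm

end Dat

section main

variable {F E : Type} [Field F] [NumberField F] [Field E] [Algebra F E] [IsGalois F E]
  (D : Dat F E)

instance : NumberField D.Lf := NumberField.of_module_finite F D.Lf

/-- a subfield of degree 3 over `F` -/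
lemma finrank_six (h2 : Module.finrank ℚ F = 2) (hsurj : Function.Surjective D.Lam)
    (g : E ≃ₐ[F] E) (hg : D.Lam g ≠ 1) :
    Module.finrank ℚ (IntermediateField.fixedField (Subgroup.zpowers (D.res g))) = 6 := by
  have h9 : Module.finrank F D.Lf = 9 := by
    rw [← IsGalois.card_aut_eq_finrank, D.card_gal hsurj]
  have hord : orderOf (D.res g) = 3 := by
    apply orderOf_eq_prime
    · rw [← map_pow, D.res_eq_one, map_pow]
      exact Multiplicative.toAdd.injective (by
        rw [toAdd_pow]; 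
        have : ∀ v : ZMod 3 × ZMod 3, 3 • v = 0 := by decide
        exact this _)
    · rw [Ne, D.res_eq_one]; exact hg
  have h3 : Module.finrank (IntermediateField.fixedField (Subgroup.zpowers (D.res g))) D.Lf = 3 := by
    rw [IntermediateField.finrank_fixedField_eq_card, Nat.card_zpowers, hord]
  have h4 := Module.finrank_mul_finrank F
    (IntermediateField.fixedField (Subgroup.zpowers (D.res g))) D.Lf
  have h5 := Module.finrank_mul_finrank ℚ F
    (IntermediateField.fixedField (Subgroup.zpowers (D.res g)))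
  rw [h3, h9] at h4
  rw [h2] at h5
  omega

/-- **The field `L` is 2-rational.** -/
theorem twoRat_Lf (h2 : Module.finrank ℚ F = 2) (hN : StmN) (hM : StmM) (hP : StmP) :
    TwoRat D.Lf := by
  have hsurj := D.Lam_surj (noroot_e h2 D.s D.hs) (noroot_u h2 D.s D.hs)
    (fun s x hs => noroot_p h2 s x hs)
  obtain ⟨gs, hgs⟩ := hsurj (Multiplicative.ofAdd (1, 0))
  obtain ⟨gt, hgt⟩ := hsurj (Multiplicative.ofAdd (0, 1))
  have hLs := D.Lam_apply gs
  have hLt := D.Lam_apply gt
  have key : ∀ g : E ≃ₐ[F] E, D.res g ^ 3 = 1 := by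
    intro g
    rw [← map_pow, D.res_eq_one, map_pow]
    exact Multiplicative.toAdd.injective (by
        rw [toAdd_pow]
        have : ∀ v : ZMod 3 × ZMod 3, 3 • v = 0 := by decide
        exact this _)
  have hcomm : D.res gs * D.res gt = D.res gt * D.res gs := by
    have : D.res (gs * gt * (gt * gs)⁻¹) = 1 := by
      rw [D.res_eq_one]
      simp only [map_mul, map_inv, mul_inv_rev]
      rw [mul_comm (D.Lam gs) (D.Lam gt)]
      group
    rw [← map_mul, ← map_mul, ← mul_inv_eq_one, ← map_inv, ← map_mul]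
    exact this
  have hreal := D.Lf_real (real_of_quad h2 D.s D.hs)
  -- membership of the special elements
  have fixing : ∀ (g : E ≃ₐ[F] E) (e : E) (he : e ∈ D.Lf), g e = e →
      (⟨e, he⟩ : D.Lf) ∈ IntermediateField.fixedField (Subgroup.zpowers (D.res g)) := by
    intro g e he hge
    rw [IntermediateField.mem_fixedField_iff]
    intro f hf
    obtain ⟨i, rfl⟩ := Subgroup.mem_zpowers_iff.mp hf
    have h1 : D.res g ∈ MulAction.stabilizer (D.Lf ≃ₐ[F] D.Lf) (⟨e, he⟩ : D.Lf) := by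
      rw [MulAction.mem_stabilizer_iff]
      apply Subtype.ext
      exact (D.res_apply g ⟨e, he⟩).trans hge
    have h2 := Subgroup.zpow_mem _ h1 i
    rw [MulAction.mem_stabilizer_iff] at h2
    exact h2
  have comp : ∀ g : E ≃ₐ[F] E, ∀ a t : ZMod 3, D.Lam g = Multiplicative.ofAdd (a, t) →
      alF (D.pa g) = a ∧ taF (D.pt g) = t := by
    intro g a t h
    rw [D.Lam_apply] at h
    have := Multiplicative.ofAdd.injective h
    exact ⟨congrArg Prod.fst this, congrArg Prod.snd this⟩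
  have memN : D.eN ∈ D.Lf := D.mem_Lf _ (fun g hg => D.fix_eN g (comp g 0 0 hg).1)
  have memM : D.eM ∈ D.Lf := D.mem_Lf _ (fun g hg => D.fix_eM g (comp g 0 0 hg).2)
  have memP : D.eP ∈ D.Lf := D.mem_Lf _ (fun g hg => D.fix_eP g (by
    rw [(comp g 0 0 hg).1, (comp g 0 0 hg).2]; decide))
  have memQ : D.eQ ∈ D.Lf := D.mem_Lf _ (fun g hg => D.fix_eQ g (by
    rw [(comp g 0 0 hg).1, (comp g 0 0 hg).2]; decide))
  have hsub : ∀ (X : IntermediateField F D.Lf), (algebraMap F X D.s) ^ 2 = 5 := fun X => by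
    rw [← map_pow, D.hs]; exact map_ofNat _ 5
  have ne1 : ∀ g : E ≃ₐ[F] E, ∀ v : ZMod 3 × ZMod 3, v ≠ 0 → D.Lam g = Multiplicative.ofAdd v →
      D.Lam g ≠ 1 := by
    intro g v hv h h1
    rw [h1] at h
    exact hv (Multiplicative.ofAdd.injective h.symm)
  have hst : D.Lam (gs * gt) = Multiplicative.ofAdd (1, 1) := by
    rw [map_mul, hgs, hgt]; rfl
  have hstt : D.Lam (gs * gt ^ 2) = Multiplicative.ofAdd (1, 2) := by
    rw [map_mul, map_pow, hgs, hgt]; rfl
  refine twoRat_of_four (F := F) hreal (D.res gs) (D.res gt) (key gs) (key gt) hcomm ?_ ?_ ?_ ?_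
  · -- fixed field of `s` contains `u`
    refine hM _ (finrank_six D h2 hsurj gs (ne1 gs _ (by decide) hgs)) (algebraMap F _ D.s)
      ⟨⟨D.eM, memM⟩, fixing gs _ memM (D.fix_eM gs (comp gs 1 0 hgs).2)⟩ (hsub _) ?_
    apply Subtype.ext
    apply Subtype.ext
    exact D.eM_eq
  · refine hN _ (finrank_six D h2 hsurj gt (ne1 gt _ (by decide) hgt)) (algebraMap F _ D.s)
      ⟨⟨D.eN, memN⟩, fixing gt _ memN (D.fix_eN gt (comp gt 0 1 hgt).1)⟩ (hsub _) ?_
    apply Subtype.ext
    apply Subtype.ext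
    exact D.eN_eq
  · rw [← map_mul]
    refine hP _ (finrank_six D h2 hsurj (gs * gt) (ne1 _ _ (by decide) hst))
      (algebraMap F _ (-D.s))
      ⟨⟨D.eQ, memQ⟩, fixing (gs * gt) _ memQ (D.fix_eQ _ (by
        rw [(comp _ 1 1 hst).1, (comp _ 1 1 hst).2]; decide))⟩ (by
        rw [map_neg, neg_sq]; exact hsub _) ?_
    apply Subtype.ext
    apply Subtype.ext
    have := D.eQ_eq
    simp only [map_neg]
    calc 4 * (D.eQ ^ 3 - 3 * D.eQ) + (1 + 3 * -(algebraMap F E D.s)) =
        4 * (D.eQ ^ 3 - 3 * D.eQ) + (1 - 3 * algebraMap F E D.s) := by ring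
      _ = 0 := this
  · rw [← map_pow, ← map_mul]
    refine hP _ (finrank_six D h2 hsurj (gs * gt ^ 2) (ne1 _ _ (by decide) hstt))
      (algebraMap F _ D.s)
      ⟨⟨D.eP, memP⟩, fixing (gs * gt ^ 2) _ memP (D.fix_eP _ (by
        rw [(comp _ 1 2 hstt).1, (comp _ 1 2 hstt).2]; decide))⟩ (hsub _) ?_
    apply Subtype.ext
    apply Subtype.ext
    exact D.eP_eq

end main

end MZ294
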