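import Pool.Agent.W294.MZ.Rep

/-!
# MP_aa8fd2_nt: the projective image is `C₃ × C₃` (helper294)
-/

set_option linter.unusedSectionVars false

namespace MZ294

/-- `1,4,7 ↦ 0,1,2`. -/
def alF (a : ZMod 9) : ZMod 3 := if a = 4 then 1 else if a = 7 then 2 else 0

/-- reduction mod 3. -/
def taF (a : ZMod 9) : ZMod 3 := ZMod.castHom (by norm_num : 3 ∣ 9) (ZMod 3) a

lemma alF_mul : ∀ a b : ZMod 9, (a = 1 ∨ a = 4 ∨ a = 7) → (b = 1 ∨ b = 4 ∨ b = 7) →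
    alF (a * b) = alF a + alF b := by decide

lemma taF_mul (a t t' : ZMod 9) (ha : a = 1 ∨ a = 4 ∨ a = 7) :
    taF (t + a * t') = taF t + taF t' := by
  have h1 : taF a = 1 := by rcases ha with rfl | rfl | rfl <;> decide
  unfold taF at *
  rw [map_add, map_mul, h1, one_mul]

/-- the linear functional facts -/
lemma lin1 : ∀ a t : ZMod 9, (a = 1 ∨ a = 4 ∨ a = 7) → alF a = 0 → a = 1 := by decide
lemma lin2 : ∀ t : ZMod 9, taF t = 0 → 3 * t = 0 := by decide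
lemma lin3 : ∀ a t : ZMod 9, (a = 1 ∨ a = 4 ∨ a = 7) → taF t + alF a = 0 →
    3 * t + a = 1 := by decide
lemma lin4 : ∀ a t : ZMod 9, (a = 1 ∨ a = 4 ∨ a = 7) → taF t - alF a = 0 →
    3 * t + a * 8 = 8 := by decide

/-- two independent vectors span. -/
lemma span2 : ∀ x y v : ZMod 3 × ZMod 3, x.1 * y.2 - x.2 * y.1 ≠ 0 →
    ∃ m n : Fin 3, v = (m : ℕ) • x + (n : ℕ) • y := by
  decide +kernel

/-- choice of the functional. -/
lemma choose_fun : ∀ x : ZMod 3 × ZMod 3, x.1 ≠ 0 →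
    (∀ y : ZMod 3 × ZMod 3, y.2 ≠ 0 → x.1 * y.2 - x.2 * y.1 ≠ 0) ∨
    (∀ y : ZMod 3 × ZMod 3, y.2 + y.1 ≠ 0 → x.1 * y.2 - x.2 * y.1 ≠ 0) ∨
    (∀ y : ZMod 3 × ZMod 3, y.2 - y.1 ≠ 0 → x.1 * y.2 - x.2 * y.1 ≠ 0) := by
  decide +kernel

namespace Dat

variable {F E : Type} [Field F] [CharZero F] [Field E] [Algebra F E] (D : Dat F E)

/-- The projective image `Aut(E/F) → C₃ × C₃`. -/
noncomputable def Lam : (E ≃ₐ[F] E) →* Multiplicative (ZMod 3 × ZMod 3) where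
  toFun g := Multiplicative.ofAdd (alF (D.pa g), taF (D.pt g))
  map_one' := by
    rw [D.pa_one, D.pt_one]; decide
  map_mul' g h := by
    rw [D.pa_mul, D.pt_mul, alF_mul _ _ (D.pa_mem g) (D.pa_mem h), taF_mul _ _ _ (D.pa_mem g),
      ← ofAdd_add]
    rfl

lemma Lam_apply (g : E ≃ₐ[F] E) :
    D.Lam g = Multiplicative.ofAdd (alF (D.pa g), taF (D.pt g)) := rfl

/-- `η = ζ + ζ⁻¹` -/
noncomputable def eN : E := D.y ^ 0 * D.z ^ 1 + (D.y ^ 0 * D.z ^ 1)⁻¹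
/-- `u = y³ + y⁻³` -/
noncomputable def eM : E := D.y ^ 3 * D.z ^ 0 + (D.y ^ 3 * D.z ^ 0)⁻¹
/-- `u₊ = y³ζ + y⁻³ζ⁻¹` -/
noncomputable def eP : E := D.y ^ 3 * D.z ^ 1 + (D.y ^ 3 * D.z ^ 1)⁻¹
/-- `u₋ = y³ζ⁸ + y⁻³ζ⁻⁸` -/
noncomputable def eQ : E := D.y ^ 3 * D.z ^ 8 + (D.y ^ 3 * D.z ^ 8)⁻¹

lemma zpow_eq_of (m k : ℕ) (h : (m : ZMod 9) = k) : D.z ^ m = D.z ^ k := (D.zpow_eq_iff m k).mpr h

lemma fix_eN (g : E ≃ₐ[F] E) (h : alF (D.pa g) = 0) : g D.eN = D.eN := by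
  obtain ⟨m, hm, hg⟩ := D.act_sym g 0 1
  have h1 := lin1 (D.pa g) 0 (D.pa_mem g) h
  have : D.z ^ m = D.z ^ 1 := D.zpow_eq_of m 1 (by rw [hm, h1]; push_cast; ring)
  rw [eN, hg, this]

lemma fix_eM (g : E ≃ₐ[F] E) (h : taF (D.pt g) = 0) : g D.eM = D.eM := by
  obtain ⟨m, hm, hg⟩ := D.act_sym g 3 0
  have h1 := lin2 (D.pt g) h
  have : D.z ^ m = D.z ^ 0 := D.zpow_eq_of m 0 (by rw [hm]; push_cast; rw [h1]; simp)
  rw [eM, hg, this]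

lemma fix_eP (g : E ≃ₐ[F] E) (h : taF (D.pt g) + alF (D.pa g) = 0) : g D.eP = D.eP := by
  obtain ⟨m, hm, hg⟩ := D.act_sym g 3 1
  have h1 := lin3 (D.pa g) (D.pt g) (D.pa_mem g) h
  have : D.z ^ m = D.z ^ 1 := D.zpow_eq_of m 1 (by rw [hm]; push_cast; rw [mul_one, h1])
  rw [eP, hg, this]

lemma fix_eQ (g : E ≃ₐ[F] E) (h : taF (D.pt g) - alF (D.pa g) = 0) : g D.eQ = D.eQ := by
  obtain ⟨m, hm, hg⟩ := D.act_sym g 3 8
  have h1 := lin4 (D.pa g) (D.pt g) (D.pa_mem g) h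
  have : D.z ^ m = D.z ^ 8 := D.zpow_eq_of m 8 (by rw [hm]; push_cast; rw [h1])
  rw [eQ, hg, this]

lemma sym_cube (x : E) (hx : x ≠ 0) : (x + x⁻¹) ^ 3 - 3 * (x + x⁻¹) = x ^ 3 + (x ^ 3)⁻¹ := by
  field_simp; ring

lemma eN_eq : D.eN ^ 3 - 3 * D.eN + 1 = 0 := by
  have h : D.y ^ 0 * D.z ^ 1 ≠ 0 := mul_ne_zero (pow_ne_zero _ D.y_ne) (pow_ne_zero _ D.z_ne)
  have h1 := sym_cube _ h
  have h9 : D.z ^ 9 = 1 := D.hz.pow_eq_one
  have h2 : ((D.y ^ 0 * D.z ^ 1) ^ 3)⁻¹ = D.z ^ 6 := by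
    apply inv_eq_of_mul_eq_one_left
    linear_combination h9
  rw [eN, h1, h2]
  linear_combination D.z_cube

lemma eM_eq : 2 * D.eM ^ 3 - 6 * D.eM - 1 = 0 := by
  haveI := D.charZeroE
  have h : D.y ^ 3 * D.z ^ 0 ≠ 0 := mul_ne_zero (pow_ne_zero _ D.y_ne) (pow_ne_zero _ D.z_ne)
  have h1 := sym_cube _ h
  have h3 : (D.y ^ 3 * D.z ^ 0) ^ 3 = D.be := by rw [← D.y9]; ring
  rw [h3, D.be_inv, D.be_add] at h1
  rw [eM]
  linear_combination 2 * h1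

lemma z3s : D.be * D.z ^ 3 + (D.be * D.z ^ 3)⁻¹ = -(1 + 3 * algebraMap F E D.s) / 4 := by
  haveI := D.charZeroE
  have h9 : D.z ^ 9 = 1 := D.hz.pow_eq_one
  have h2 : (algebraMap F E D.s) ^ 2 = 5 := by rw [← map_pow, D.hs]; exact map_ofNat _ 5
  have h3 : (D.be * D.z ^ 3)⁻¹ = D.be' * D.z ^ 6 := by
    apply inv_eq_of_mul_eq_one_left
    linear_combination D.z ^ 9 * D.be_mul + h9
  have h6 : D.z ^ 6 = -1 - D.z ^ 3 := by linear_combination D.z_cube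
  rw [h3, h6, be, be']
  field_simp
  ring_nf
  rw [h6]; ring

lemma z6s : D.be * D.z ^ 24 + (D.be * D.z ^ 24)⁻¹ = -(1 - 3 * algebraMap F E D.s) / 4 := by
  haveI := D.charZeroE
  have h9 : D.z ^ 9 = 1 := D.hz.pow_eq_one
  have h24 : D.z ^ 24 = D.z ^ 6 := by
    rw [show (24 : ℕ) = 9 + 9 + 6 by norm_num, pow_add, pow_add, h9]; ring
  have h3 : (D.be * D.z ^ 6)⁻¹ = D.be' * D.z ^ 3 := by
    apply inv_eq_of_mul_eq_one_left
    linear_combination D.z ^ 9 * D.be_mul + h9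
  have h6 : D.z ^ 6 = -1 - D.z ^ 3 := by linear_combination D.z_cube
  rw [h24, h3, h6, be, be']
  field_simp
  ring_nf
  rw [h6]; ring

lemma eP_eq : 4 * (D.eP ^ 3 - 3 * D.eP) + (1 + 3 * algebraMap F E D.s) = 0 := by
  haveI := D.charZeroE
  have h : D.y ^ 3 * D.z ^ 1 ≠ 0 := mul_ne_zero (pow_ne_zero _ D.y_ne) (pow_ne_zero _ D.z_ne)
  have h1 := sym_cube _ h
  have h3 : (D.y ^ 3 * D.z ^ 1) ^ 3 = D.be * D.z ^ 3 := by rw [← D.y9]; ring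
  rw [h3, D.z3s] at h1
  rw [eP]
  linear_combination 4 * h1

lemma eQ_eq : 4 * (D.eQ ^ 3 - 3 * D.eQ) + (1 - 3 * algebraMap F E D.s) = 0 := by
  haveI := D.charZeroE
  have h : D.y ^ 3 * D.z ^ 8 ≠ 0 := mul_ne_zero (pow_ne_zero _ D.y_ne) (pow_ne_zero _ D.z_ne)
  have h1 := sym_cube _ h
  have h3 : (D.y ^ 3 * D.z ^ 8) ^ 3 = D.be * D.z ^ 24 := by rw [← D.y9]; ring
  rw [h3, D.z6s] at h1
  rw [eQ]
  linear_combination 4 * h1

/-- Surjectivity onto `C₃ × C₃` from the absence of roots in `F`. -/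
theorem Lam_surj [IsGalois F E]
    (h1 : ∀ x : F, x ^ 3 - 3 * x + 1 ≠ 0) (h2 : ∀ x : F, 2 * x ^ 3 - 6 * x - 1 ≠ 0)
    (h3 : ∀ s x : F, s ^ 2 = 5 → 4 * (x ^ 3 - 3 * x) + (1 + 3 * s) ≠ 0) :
    Function.Surjective D.Lam := by
  have inj := (algebraMap F E).injective
  have ex : ∀ e : E, (∀ g : E ≃ₐ[F] E, g e = e) → ∃ x : F, algebraMap F E x = e := fun e he =>
    (InfiniteGalois.mem_range_algebraMap_iff_fixed e).mpr he
  obtain ⟨g1, hg1⟩ : ∃ g : E ≃ₐ[F] E, alF (D.pa g) ≠ 0 := by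
    by_contra hcon
    push Not at hcon
    obtain ⟨x, hx⟩ := ex D.eN (fun g => D.fix_eN g (hcon g))
    apply h1 x
    apply inj
    have := D.eN_eq
    rw [← hx] at this
    simp only [map_sub, map_add, map_mul, map_pow, map_one, map_ofNat, map_zero]
    exact this
  obtain ⟨g2, hg2⟩ : ∃ g : E ≃ₐ[F] E, taF (D.pt g) ≠ 0 := by
    by_contra hcon
    push Not at hcon
    obtain ⟨x, hx⟩ := ex D.eM (fun g => D.fix_eM g (hcon g))
    apply h2 x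
    apply inj
    have := D.eM_eq
    rw [← hx] at this
    simp only [map_sub, map_add, map_mul, map_pow, map_one, map_ofNat, map_zero]
    exact this
  obtain ⟨g3, hg3⟩ : ∃ g : E ≃ₐ[F] E, taF (D.pt g) + alF (D.pa g) ≠ 0 := by
    by_contra hcon
    push Not at hcon
    obtain ⟨x, hx⟩ := ex D.eP (fun g => D.fix_eP g (hcon g))
    apply h3 D.s x D.hs
    apply inj
    have := D.eP_eq
    rw [← hx] at this
    simp only [map_sub, map_add, map_mul, map_pow, map_one, map_ofNat, map_zero]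
    exact this
  obtain ⟨g4, hg4⟩ : ∃ g : E ≃ₐ[F] E, taF (D.pt g) - alF (D.pa g) ≠ 0 := by
    by_contra hcon
    push Not at hcon
    obtain ⟨x, hx⟩ := ex D.eQ (fun g => D.fix_eQ g (hcon g))
    apply h3 (-D.s) x (by rw [neg_sq, D.hs])
    apply inj
    have := D.eQ_eq
    rw [← hx] at this
    simp only [map_sub, map_add, map_mul, map_pow, map_one, map_ofNat, map_zero, map_neg]
    linear_combination this
  -- an independent pair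
  obtain ⟨g, hg⟩ : ∃ g : E ≃ₐ[F] E, alF (D.pa g1) * taF (D.pt g) -
      taF (D.pt g1) * alF (D.pa g) ≠ 0 := by
    rcases choose_fun (alF (D.pa g1), taF (D.pt g1)) hg1 with h | h | h
    · exact ⟨g2, h (alF (D.pa g2), taF (D.pt g2)) hg2⟩
    · exact ⟨g3, h (alF (D.pa g3), taF (D.pt g3)) hg3⟩
    · exact ⟨g4, h (alF (D.pa g4), taF (D.pt g4)) hg4⟩
  intro v
  obtain ⟨m, n, hmn⟩ := span2 (alF (D.pa g1), taF (D.pt g1)) (alF (D.pa g), taF (D.pt g))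
    (Multiplicative.toAdd v) hg
  refine ⟨g1 ^ (m : ℕ) * g ^ (n : ℕ), ?_⟩
  rw [map_mul, map_pow, map_pow, D.Lam_apply, D.Lam_apply, ← ofAdd_nsmul, ← ofAdd_nsmul, ← ofAdd_add,
    ← hmn]
  rfl

end Dat

end MZ294
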