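import Pool.Agent.W294.MZ.Aff

/-!
# MP_aa8fd2_nt: the residual representation (helper294)
-/

set_option linter.unusedSectionVars false

namespace MZ294

section mat

variable {k : Type} [Field k] (w : k)

/-- weight function on `ZMod 9`. -/
def wt (x : ZMod 9) : k := if x = 0 then 1 else if x = 3 then w else if x = 6 then w ^ 2 else 0

lemma wt_0 : wt w 0 = 1 := by simp [wt]
lemma wt_3 : wt w 3 = w := by
  have : (3 : ZMod 9) ≠ 0 := by decide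
  simp [wt, this]
lemma wt_6 : wt w 6 = w ^ 2 := by
  have h1 : (6 : ZMod 9) ≠ 0 := by decide
  have h2 : (6 : ZMod 9) ≠ 3 := by decide
  simp [wt, h1, h2]
lemma wt_else {x : ZMod 9} (h0 : x ≠ 0) (h3 : x ≠ 3) (h6 : x ≠ 6) : wt w x = 0 := by
  simp [wt, h0, h3, h6]

lemma wt_add3 (hw : w ^ 3 = 1) (x : ZMod 9) : wt w (x + 3) = w * wt w x := by
  have h : ∀ x : ZMod 9, (x = 0 ∧ x + 3 = 3) ∨ (x = 3 ∧ x + 3 = 6) ∨ (x = 6 ∧ x + 3 = 0) ∨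
    ((x ≠ 0 ∧ x ≠ 3 ∧ x ≠ 6) ∧ x + 3 ≠ 0 ∧ x + 3 ≠ 3 ∧ x + 3 ≠ 6) := by decide
  rcases h x with ⟨h1, h2⟩ | ⟨h1, h2⟩ | ⟨h1, h2⟩ | ⟨⟨h1, h1', h1''⟩, h2, h2', h2''⟩
  · rw [h2, h1, wt_0, wt_3, mul_one]
  · rw [h2, h1, wt_6, wt_3, sq]
  · rw [h2, h1, wt_6, wt_0, ← hw]; ring
  · rw [wt_else w h1 h1' h1'', wt_else w h2 h2' h2'', mul_zero]

lemma wt_add_mul (hw : w ^ 3 = 1) (x : ZMod 9) (m : ℕ) : wt w (x + 3 * m) = w ^ m * wt w x := by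
  induction m with
  | zero => simp
  | succ m ih =>
    have : x + 3 * ((m + 1 : ℕ) : ZMod 9) = (x + 3 * m) + 3 := by push_cast; ring
    rw [this, wt_add3 w hw, ih]; ring

/-- the matrix of `x ↦ a x + t`. -/
def mat (a t : ZMod 9) : Matrix (Fin 3) (Fin 3) k :=
  Matrix.of fun i j => wt w (a * ((j : ℕ) : ZMod 9) + t - ((i : ℕ) : ZMod 9))

lemma mat_apply (a t : ZMod 9) (i j : Fin 3) :
    mat w a t i j = wt w (a * ((j : ℕ) : ZMod 9) + t - ((i : ℕ) : ZMod 9)) := rfl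

lemma sum_wt (hw : w ^ 3 = 1) (a c x : ZMod 9) (ha : a = 1 ∨ a = 4 ∨ a = 7) :
    ∑ j : Fin 3, wt w (a * ((j : ℕ) : ZMod 9) + c) * wt w (x - ((j : ℕ) : ZMod 9)) =
      wt w (a * x + c) := by
  have h3a : 3 * a = 3 := by rcases ha with rfl | rfl | rfl <;> decide
  have hx : ∀ x : ZMod 9, ∃ (x0 : Fin 3) (m : Fin 3), x = ((x0 : ℕ) : ZMod 9) + 3 * ((m : ℕ) : ZMod 9) := by
    decide
  obtain ⟨x0, m, rfl⟩ := hx x
  have h1 : ∀ j : Fin 3, wt w (((x0 : ℕ) : ZMod 9) + 3 * ((m : ℕ) : ZMod 9) - ((j : ℕ) : ZMod 9)) =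
      w ^ (m : ℕ) * wt w (((x0 : ℕ) : ZMod 9) - ((j : ℕ) : ZMod 9)) := by
    intro j
    rw [← wt_add_mul w hw]; congr 1; ring
  have h2 : a * (((x0 : ℕ) : ZMod 9) + 3 * ((m : ℕ) : ZMod 9)) + c =
      (a * ((x0 : ℕ) : ZMod 9) + c) + 3 * ((m : ℕ) : ZMod 9) := by
    linear_combination ((m : ℕ) : ZMod 9) * h3a
  have h3 : ∀ j : Fin 3, wt w (((x0 : ℕ) : ZMod 9) - ((j : ℕ) : ZMod 9)) = if j = x0 then 1 else 0 := by
    intro j
    by_cases hj : j = x0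
    · rw [if_pos hj, hj, sub_self, wt_0]
    · rw [if_neg hj]
      have : ∀ x0 j : Fin 3, j ≠ x0 → ((((x0 : ℕ) : ZMod 9) - ((j : ℕ) : ZMod 9)) ≠ 0 ∧
        (((x0 : ℕ) : ZMod 9) - ((j : ℕ) : ZMod 9)) ≠ 3 ∧
        (((x0 : ℕ) : ZMod 9) - ((j : ℕ) : ZMod 9)) ≠ 6) := by decide
      obtain ⟨g1, g2, g3⟩ := this x0 j hj
      exact wt_else w g1 g2 g3
  rw [h2, wt_add_mul w hw]
  simp_rw [h1, h3]
  simp [mul_comm]

lemma mat_mul (hw : w ^ 3 = 1) (a t a' t' : ZMod 9) (ha : a = 1 ∨ a = 4 ∨ a = 7) :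
    mat w a t * mat w a' t' = mat w (a * a') (t + a * t') := by
  ext i l
  rw [Matrix.mul_apply]
  simp_rw [mat_apply]
  have := sum_wt w hw a (t - ((i : ℕ) : ZMod 9)) (a' * ((l : ℕ) : ZMod 9) + t') ha
  rw [show a * a' * ((l : ℕ) : ZMod 9) + (t + a * t') - ((i : ℕ) : ZMod 9) =
    a * (a' * ((l : ℕ) : ZMod 9) + t') + (t - ((i : ℕ) : ZMod 9)) by ring, ← this]
  refine Finset.sum_congr rfl fun j _ => ?_
  rw [add_sub_assoc]

lemma mat_one : mat w 1 0 = 1 := by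
  ext i j
  rw [mat_apply]
  by_cases h : i = j
  · subst h; simp [wt_0]
  · rw [Matrix.one_apply_ne h]
    have : ∀ i j : Fin 3, i ≠ j → ((1 * ((j : ℕ) : ZMod 9) + 0 - ((i : ℕ) : ZMod 9)) ≠ 0 ∧
        (1 * ((j : ℕ) : ZMod 9) + 0 - ((i : ℕ) : ZMod 9)) ≠ 3 ∧
        (1 * ((j : ℕ) : ZMod 9) + 0 - ((i : ℕ) : ZMod 9)) ≠ 6) := by decide
    obtain ⟨g1, g2, g3⟩ := this i j h
    exact wt_else w g1 g2 g3

end mat

namespace Dat

variable {F E : Type} [Field F] [CharZero F] [Field E] [Algebra F E] (D : Dat F E)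
variable {k : Type} [Field k] (w : k) (hw : w ^ 3 = 1)

/-- The monomial representation as a monoid hom to matrices. -/
noncomputable def rhoM : (E ≃ₐ[F] E) →* Matrix (Fin 3) (Fin 3) k where
  toFun g := mat w (D.pa g) (D.pt g)
  map_one' := by rw [D.pa_one, D.pt_one, mat_one]
  map_mul' g h := by
    rw [mat_mul w hw _ _ _ _ (D.pa_mem g), D.pa_mul, D.pt_mul]

/-- The residual representation `Aut(E/F) → GL₃(k)`. -/
noncomputable def rho : (E ≃ₐ[F] E) →* Matrix.GeneralLinearGroup (Fin 3) k :=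
  (D.rhoM w hw).toHomUnits

lemma rho_coe (g : E ≃ₐ[F] E) :
    ((D.rho w hw g : Matrix.GeneralLinearGroup (Fin 3) k) : Matrix (Fin 3) (Fin 3) k) =
      mat w (D.pa g) (D.pt g) := rfl

end Dat

end MZ294
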