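import Pool.Agent.W294.MZ.Conc

/-!
# MP_aa8fd2_nt: proof of `StmL` from the arithmetic statements (helper294)
-/

set_option linter.unusedSectionVars false

namespace MZ294

open NumberField IsDedekindDomain MZ

namespace Dat

variable {F E : Type} [Field F] [CharZero F] [Field E] [Algebra F E] (D : Dat F E)

lemma sym_eq {a b : E} (ha : a ≠ 0) (hb : b ≠ 0) (h : a + a⁻¹ = b + b⁻¹) : a = b ∨ a * b = 1 := by
  have h1 : (a - b) * (a * b - 1) = 0 := by
    field_simp at h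
    linear_combination h
  rcases mul_eq_zero.mp h1 with h2 | h2
  · exact Or.inl (sub_eq_zero.mp h2)
  · exact Or.inr (sub_eq_zero.mp h2)

lemma fix_eN_iff (g : E ≃ₐ[F] E) (h : g D.eN = D.eN) : D.pa g = 1 := by
  obtain ⟨m, hm, hg⟩ := D.act_sym g 0 1
  rw [← eN, h, eN] at hg
  have hz0 := D.z_ne
  have h1 : (m : ZMod 9) = D.pa g := by rw [hm]; push_cast; ring
  rcases sym_eq (mul_ne_zero (pow_ne_zero _ D.y_ne) (pow_ne_zero _ hz0))
    (mul_ne_zero (pow_ne_zero _ D.y_ne) (pow_ne_zero _ hz0)) hg with h2 | h2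
  · have h3 : D.z ^ 1 = D.z ^ m := by simpa using h2
    rw [D.zpow_eq_iff] at h3
    rw [← h1, ← h3]; simp
  · exfalso
    have h3 : D.z ^ (1 + m) = D.z ^ 0 := by rw [pow_add]; simpa using h2
    rw [D.zpow_eq_iff] at h3
    push_cast at h3
    rw [h1] at h3
    rcases D.pa_mem g with h4 | h4 | h4 <;> rw [h4] at h3 <;> exact absurd h3 (by decide)

lemma fix_eM_iff (g : E ≃ₐ[F] E) (h : g D.eM = D.eM) : 3 * D.pt g = 0 := by
  obtain ⟨m, hm, hg⟩ := D.act_sym g 3 0
  rw [← eM, h, eM] at hg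
  have hz0 := D.z_ne
  have hy0 := D.y_ne
  have h1 : (m : ZMod 9) = 3 * D.pt g := by rw [hm]; push_cast; ring
  rcases sym_eq (mul_ne_zero (pow_ne_zero _ D.y_ne) (pow_ne_zero _ hz0))
    (mul_ne_zero (pow_ne_zero _ D.y_ne) (pow_ne_zero _ hz0)) hg with h2 | h2
  · have h3 : D.z ^ 0 = D.z ^ m := mul_left_cancel₀ (pow_ne_zero _ hy0) h2
    rw [D.zpow_eq_iff] at h3
    rw [← h1, ← h3]; simp
  · exfalso
    apply D.y54
    have h3 : D.y ^ 6 * D.z ^ m = 1 := by rw [← h2]; ring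
    have h9 : D.z ^ 9 = 1 := D.hz.pow_eq_one
    have h4 : (D.y ^ 6 * D.z ^ m) ^ 9 = 1 := by rw [h3, one_pow]
    rw [mul_pow, ← pow_mul, ← pow_mul, mul_comm m 9, pow_mul D.z, h9, one_pow, mul_one] at h4
    exact h4

lemma Lam_of_fix (g : E ≃ₐ[F] E) (h1 : g D.eN = D.eN) (h2 : g D.eM = D.eM) : D.Lam g = 1 := by
  have h3 := D.fix_eN_iff g h1
  have h4 := D.fix_eM_iff g h2
  have : ∀ t : ZMod 9, 3 * t = 0 → taF t = 0 := by decide
  rw [D.Lam_apply, h3, this _ h4]; decide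

end Dat

lemma Lf_eq : MZ.Lf = DOm.Lf := by
  have e1 : DOm.eN = ze + ze⁻¹ := by
    change yy ^ 0 * ze ^ 1 + (yy ^ 0 * ze ^ 1)⁻¹ = _; simp
  have e2 : DOm.eM = yy ^ 3 + (yy ^ 3)⁻¹ := by
    change yy ^ 3 * ze ^ 0 + (yy ^ 3 * ze ^ 0)⁻¹ = _; simp
  apply le_antisymm
  · rw [MZ.Lf, IntermediateField.adjoin_le_iff]
    intro x hx
    simp only [Set.mem_insert_iff, Set.mem_singleton_iff] at hx
    have comp : ∀ g : Om ≃ₐ[F5] Om, DOm.Lam g = 1 → alF (DOm.pa g) = 0 ∧ taF (DOm.pt g) = 0 := by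
      intro g h
      rw [DOm.Lam_apply] at h
      have := Multiplicative.ofAdd.injective h
      exact ⟨congrArg Prod.fst this, congrArg Prod.snd this⟩
    rcases hx with rfl | rfl
    · rw [← e1]; exact DOm.mem_Lf _ (fun g hg => DOm.fix_eN g (comp g hg).1)
    · rw [← e2]; exact DOm.mem_Lf _ (fun g hg => DOm.fix_eM g (comp g hg).2)
  · rw [← InfiniteGalois.fixedField_fixingSubgroup MZ.Lf, Dat.Lf]
    intro x hx
    rw [IntermediateField.mem_fixedField_iff] at hx ⊢
    intro g hg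
    apply hx
    rw [MonoidHom.mem_ker]
    rw [IntermediateField.mem_fixingSubgroup_iff] at hg
    apply DOm.Lam_of_fix
    · rw [e1]; exact hg _ (IntermediateField.subset_adjoin _ _ (by simp))
    · rw [e2]; exact hg _ (IntermediateField.subset_adjoin _ _ (by simp))

lemma Lf_le_K0 : MZ.Lf ≤ DOm.K0 := by
  rw [MZ.Lf, IntermediateField.adjoin_le_iff]
  intro x hx
  have hz : ze ∈ DOm.K0 := IntermediateField.subset_adjoin _ _ (by left; rfl)
  have hy : yy ∈ DOm.K0 := IntermediateField.subset_adjoin _ _ (by right; rfl)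
  simp only [Set.mem_insert_iff, Set.mem_singleton_iff] at hx
  rcases hx with rfl | rfl
  · exact add_mem hz (inv_mem hz)
  · exact add_mem (pow_mem hy _) (inv_mem (pow_mem hy _))

/-- unramifiedness descends to subextensions -/
lemma unram_sub {F Ω : Type} [Field F] [NumberField F] [Field Ω] [Algebra F Ω]
    (S : Set (HeightOneSpectrum (𝓞 F)))
    (K W : IntermediateField F Ω) [FiniteDimensional F K] [FiniteDimensional F W] (h : K ≤ W)
    (hW : UnramifiedOutside S W) : UnramifiedOutside S K := by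
  haveI : NumberField K := NumberField.of_module_finite F K
  haveI : NumberField W := NumberField.of_module_finite F W
  letI : Algebra K W := (IntermediateField.inclusion h).toRingHom.toAlgebra
  haveI : IsScalarTower F K W := IsScalarTower.of_algebraMap_eq' rfl
  haveI : FiniteDimensional K W := FiniteDimensional.right F K W
  intro v hv
  haveI := v.isPrime
  haveI := v.isMaximal
  obtain ⟨P, hP1, hP2⟩ := Ideal.exists_maximal_ideal_liesOver_of_isIntegral v.asIdeal (S := 𝓞 W)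
  haveI := hP1
  haveI := hP2
  haveI : P.IsPrime := hP1.isPrime
  have hPbot : P ≠ ⊥ := Ideal.ne_bot_of_liesOver_of_ne_bot v.ne_bot P
  haveI : IsScalarTower (𝓞 F) (𝓞 K) (𝓞 W) := inferInstance
  have h1 := hW ⟨P, inferInstance, hPbot⟩ (by
    intro u hu heq
    apply hv u hu
    rw [← heq]
    change _ = P.comap (algebraMap (𝓞 F) (𝓞 W))
    rw [IsScalarTower.algebraMap_eq (𝓞 F) (𝓞 K) (𝓞 W), ← Ideal.comap_comap]
    congr 1
    exact hP2.over)
  exact Algebra.IsUnramifiedAt.of_liesOver (𝓞 F) v.asIdeal P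

theorem stmL (hN : StmN) (hM : StmM) (hP : StmP) : StmL := by
  have hsurj := DOm.Lam_surj (noroot_e finrank_F5 DOm.s DOm.hs) (noroot_u finrank_F5 DOm.s DOm.hs)
    (fun s x hs => noroot_p finrank_F5 s x hs)
  unfold StmL
  haveI : FiniteDimensional F5 MZ.Lf := by rw [Lf_eq]; infer_instance
  refine ⟨inferInstance, ?_, ?_, ?_, ?_, ?_⟩
  · rw [Lf_eq]; infer_instance
  · rw [Lf_eq, ← IsGalois.card_aut_eq_finrank]
    exact DOm.card_gal hsurj
  · rw [Lf_eq]
    exact DOm.Lf_real (real_of_quad finrank_F5 DOm.s DOm.hs)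
  · exact unram_sub S30 MZ.Lf DOm.K0 Lf_le_K0 K0_unram
  · rw [Lf_eq]
    exact ⟨inferInstance, twoRat_Lf DOm finrank_F5 hN hM hP⟩

end MZ294
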