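import Pool.Agent.W294.MZ.StmLproof

/-!
# MP_aa8fd2_nt: proof of `StmRho` (helper294)
-/

set_option linter.unusedSectionVars false

namespace MZ294

open NumberField IsDedekindDomain MZ

lemma powT : ∀ a t : ZMod 9, (a = 1 ∨ a = 4 ∨ a = 7) →
    a * (a * a) = 1 ∧ t + a * (t + a * t) = 3 * t := by decide

lemma wt_scalar {k : Type} [Field k] (w : k) (t : ZMod 9) (ht : 3 * t = 0) :
    ∃ a : k, mat w 1 t = a • (1 : Matrix (Fin 3) (Fin 3) k) := by
  refine ⟨wt w t, ?_⟩
  ext i j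
  rw [mat_apply, Matrix.smul_apply]
  by_cases h : i = j
  · subst h
    rw [Matrix.one_apply_eq, smul_eq_mul, mul_one]
    congr 1; ring
  · rw [Matrix.one_apply_ne h, smul_zero]
    have : ∀ i j : Fin 3, ∀ t : ZMod 9, 3 * t = 0 → i ≠ j →
        ((1 * ((j : ℕ) : ZMod 9) + t - ((i : ℕ) : ZMod 9)) ≠ 0 ∧
        (1 * ((j : ℕ) : ZMod 9) + t - ((i : ℕ) : ZMod 9)) ≠ 3 ∧
        (1 * ((j : ℕ) : ZMod 9) + t - ((i : ℕ) : ZMod 9)) ≠ 6) := by decide
    obtain ⟨g1, g2, g3⟩ := this i j t ht h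
    exact wt_else w g1 g2 g3

lemma mat_T {k : Type} [Field k] (w : k) : mat w 1 1 = !![0, 0, w; 1, 0, 0; 0, 1, 0] := by
  have e1 : wt w (1 : ZMod 9) = 0 := wt_else w (by decide) (by decide) (by decide)
  have e2 : wt w (2 : ZMod 9) = 0 := wt_else w (by decide) (by decide) (by decide)
  have e8 : wt w (8 : ZMod 9) = 0 := wt_else w (by decide) (by decide) (by decide)
  ext i j
  rw [mat_apply]
  fin_cases i <;> fin_cases j <;> simp <;> ring_nf
  all_goals first
    | exact e1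
    | exact e2
    | exact wt_0 w
    | exact wt_3 w
    | (have : (-1 : ZMod 9) = 8 := by decide
       rw [this]; exact e8)
    | skip

lemma mat_S {k : Type} [Field k] (w : k) (i j : Fin 3) :
    mat w 4 0 i j = if i = j then w ^ (i : ℕ) else 0 := by
  rw [mat_apply]
  by_cases h : i = j
  · subst h
    rw [if_pos rfl]
    fin_cases i
    · simp [wt_0]
    · have : (4 * (((⟨1, by norm_num⟩ : Fin 3) : ℕ) : ZMod 9) + 0 -
        (((⟨1, by norm_num⟩ : Fin 3) : ℕ) : ZMod 9)) = 3 := by decide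
      rw [this, wt_3]; simp
    · have : (4 * (((⟨2, by norm_num⟩ : Fin 3) : ℕ) : ZMod 9) + 0 -
        (((⟨2, by norm_num⟩ : Fin 3) : ℕ) : ZMod 9)) = 6 := by decide
      rw [this, wt_6]
  · rw [if_neg h]
    have : ∀ i j : Fin 3, i ≠ j →
        ((4 * ((j : ℕ) : ZMod 9) + 0 - ((i : ℕ) : ZMod 9)) ≠ 0 ∧
        (4 * ((j : ℕ) : ZMod 9) + 0 - ((i : ℕ) : ZMod 9)) ≠ 3 ∧
        (4 * ((j : ℕ) : ZMod 9) + 0 - ((i : ℕ) : ZMod 9)) ≠ 6) := by decide
    obtain ⟨g1, g2, g3⟩ := this i j h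
    exact wt_else w g1 g2 g3

/-- Irreducibility of the group generated by `T` and `S`. -/
lemma irred_TS {K : Type} [Field K] (w : K) (hw : w ^ 2 + w + 1 = 0) (h3 : (3 : K) ≠ 0)
    (V : Submodule K (Fin 3 → K))
    (hT : ∀ x ∈ V, (!![0, 0, w; 1, 0, 0; 0, 1, 0] : Matrix (Fin 3) (Fin 3) K).mulVec x ∈ V)
    (hS : ∀ x ∈ V, (fun i : Fin 3 => w ^ (i : ℕ) * x i) ∈ V) : V = ⊥ ∨ V = ⊤ := by
  have hw3 : w ^ 3 = 1 := by linear_combination (w - 1) * hw
  have hw0 : w ≠ 0 := by rintro rfl; simp at hw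
  by_cases hV : V = ⊥
  · exact Or.inl hV
  right
  obtain ⟨x, hxV, hx0⟩ := (Submodule.ne_bot_iff V).mp hV
  -- coordinate projections
  have proj : ∀ x ∈ V, ∀ i : Fin 3, (Pi.single i (x i) : Fin 3 → K) ∈ V := by
    intro x hx i
    have h1 := hS x hx
    have h2 := hS _ h1
    have key : ∀ i : Fin 3, (3 : K) • (Pi.single i (x i) : Fin 3 → K) =
        x + (w ^ (2 * (i : ℕ))) • (fun i : Fin 3 => w ^ (i : ℕ) * x i) +
        (w ^ (i : ℕ)) • (fun i : Fin 3 => w ^ (i : ℕ) * (w ^ (i : ℕ) * x i)) := by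
      intro i
      ext j
      simp only [Pi.smul_apply, Pi.add_apply, smul_eq_mul]
      fin_cases i <;> fin_cases j <;> simp <;> ring_nf
      all_goals first
        | linear_combination (-(x 0)) * hw
        | linear_combination (-(x 1)) * hw
        | linear_combination (-(x 2)) * hw
        | linear_combination (-(x 0) * (1 - w + w ^ 2)) * hw
        | linear_combination (-(x 1) * (1 - w + w ^ 2)) * hw
        | linear_combination (-(x 2) * (1 - w + w ^ 2)) * hw
        | linear_combination (-(x 1) * (w ^ 3 - w + 1)) * hw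
        | linear_combination (-(x 2) * (w ^ 3 - w + 1)) * hw
        | linear_combination (-2 * x 1) * hw3
        | linear_combination (-2 * x 2 * (w ^ 3 + 1)) * hw3
    have h3' := V.add_mem (V.add_mem hx (V.smul_mem (w ^ (2 * (i : ℕ))) h1))
      (V.smul_mem (w ^ (i : ℕ)) h2)
    rw [← key i] at h3'
    have := V.smul_mem (3 : K)⁻¹ h3'
    rwa [smul_smul, inv_mul_cancel₀ h3, one_smul] at this
  -- some coordinate vector lies in `V`
  obtain ⟨i, hi⟩ : ∃ i, x i ≠ 0 := by
    by_contra hcon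
    push Not at hcon
    exact hx0 (funext hcon)
  have hei : (Pi.single i 1 : Fin 3 → K) ∈ V := by
    have := V.smul_mem (x i)⁻¹ (proj x hxV i)
    rwa [← Pi.single_smul, smul_eq_mul, inv_mul_cancel₀ hi] at this
  have step0 : (Pi.single 0 1 : Fin 3 → K) ∈ V → (Pi.single 1 1 : Fin 3 → K) ∈ V := by
    intro h
    have h1 := hT _ h
    have h2 : (!![0, 0, w; 1, 0, 0; 0, 1, 0] : Matrix (Fin 3) (Fin 3) K).mulVec
        (Pi.single 0 1) = Pi.single 1 1 := by
      ext j; fin_cases j <;> simp [Matrix.mulVec, dotProduct, Fin.sum_univ_three, Pi.single_apply]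
    rwa [h2] at h1
  have step1 : (Pi.single 1 1 : Fin 3 → K) ∈ V → (Pi.single 2 1 : Fin 3 → K) ∈ V := by
    intro h
    have h1 := hT _ h
    have h2 : (!![0, 0, w; 1, 0, 0; 0, 1, 0] : Matrix (Fin 3) (Fin 3) K).mulVec
        (Pi.single 1 1) = Pi.single 2 1 := by
      ext j; fin_cases j <;> simp [Matrix.mulVec, dotProduct, Fin.sum_univ_three, Pi.single_apply]
    rwa [h2] at h1
  have step2 : (Pi.single 2 1 : Fin 3 → K) ∈ V → (Pi.single 0 1 : Fin 3 → K) ∈ V := by
    intro h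
    have h1 := hT _ h
    have h2 : (!![0, 0, w; 1, 0, 0; 0, 1, 0] : Matrix (Fin 3) (Fin 3) K).mulVec
        (Pi.single 2 1) = w • Pi.single 0 1 := by
      ext j; fin_cases j <;> simp [Matrix.mulVec, dotProduct, Fin.sum_univ_three, Pi.single_apply]
    rw [h2] at h1
    have := V.smul_mem w⁻¹ h1
    rwa [smul_smul, inv_mul_cancel₀ hw0, one_smul] at this
  have hall : ∀ j : Fin 3, (Pi.single j 1 : Fin 3 → K) ∈ V := by
    have h0 : (Pi.single 0 1 : Fin 3 → K) ∈ V := by
      fin_cases i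
      · exact hei
      · exact step2 (step1 hei)
      · exact step2 hei
    intro j
    fin_cases j
    · exact h0
    · exact step0 h0
    · exact step1 (step0 h0)
  rw [Submodule.eq_top_iff']
  intro v
  have hv : v = ∑ j, v j • (Pi.single j 1 : Fin 3 → K) := by
    ext i
    simp [Finset.sum_apply, Pi.single_apply]
  rw [hv]
  exact V.sum_mem fun j _ => V.smul_mem _ (hall j)

namespace Dat

variable {F E : Type} [Field F] [CharZero F] [Field E] [Algebra F E] (D : Dat F E)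

/-- surjectivity onto `{1,4,7} × ℤ/9` -/
lemma pa_pt_surj (hsurj : Function.Surjective D.Lam) (a t : ZMod 9)
    (ha : a = 1 ∨ a = 4 ∨ a = 7) : ∃ g : E ≃ₐ[F] E, D.pa g = a ∧ D.pt g = t := by
  have comp : ∀ g : E ≃ₐ[F] E, ∀ a t : ZMod 3, D.Lam g = Multiplicative.ofAdd (a, t) →
      alF (D.pa g) = a ∧ taF (D.pt g) = t := by
    intro g a t h
    rw [D.Lam_apply] at h
    have := Multiplicative.ofAdd.injective h
    exact ⟨congrArg Prod.fst this, congrArg Prod.snd this⟩
  -- powers of translations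
  have hpow : ∀ g : E ≃ₐ[F] E, D.pa g = 1 → ∀ n : ℕ, D.pa (g ^ n) = 1 ∧
      D.pt (g ^ n) = n * D.pt g := by
    intro g hg n
    induction n with
    | zero => simp [D.pa_one, D.pt_one]
    | succ n ih =>
      rw [pow_succ, D.pa_mul, D.pt_mul, ih.1, ih.2, hg]
      push_cast
      exact ⟨by ring, by ring⟩
  obtain ⟨g1, hg1⟩ := hsurj (Multiplicative.ofAdd (0, 1))
  obtain ⟨h1, h2⟩ := comp g1 0 1 hg1
  have h3 := lin1 (D.pa g1) 0 (D.pa_mem g1) h1
  -- translation by 1
  have hunit : ∀ t : ZMod 9, taF t = 1 → ∃ n : Fin 9, ((n : ℕ) : ZMod 9) * t = 1 := by decide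
  obtain ⟨n, hn⟩ := hunit _ h2
  have hT := hpow g1 h3 n
  rw [hn] at hT
  -- element with given linear part
  obtain ⟨g2, hg2⟩ := hsurj (Multiplicative.ofAdd (alF a, 0))
  obtain ⟨h4, -⟩ := comp g2 _ _ hg2
  have hinj : ∀ a b : ZMod 9, (a = 1 ∨ a = 4 ∨ a = 7) → (b = 1 ∨ b = 4 ∨ b = 7) →
      alF a = alF b → a = b := by decide
  have h5 := hinj _ _ (D.pa_mem g2) ha h4
  have hex : ∀ t : ZMod 9, ∃ n : Fin 9, ((n : ℕ) : ZMod 9) = t := by decide
  obtain ⟨m, hm⟩ := hex (t - D.pt g2)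
  have h6 := hpow _ hT.1 (m : ℕ)
  refine ⟨(g1 ^ (n : ℕ)) ^ (m : ℕ) * g2, ?_, ?_⟩
  · rw [D.pa_mul, h6.1, h5, one_mul]
  · rw [D.pt_mul, h6.1, h6.2, hT.2, hm]; ring

lemma pa_pt_27 (g : E ≃ₐ[F] E) : D.pa (g ^ 27) = 1 ∧ D.pt (g ^ 27) = 0 := by
  have h3 : ∀ g : E ≃ₐ[F] E, D.pa (g ^ 3) = 1 ∧ D.pt (g ^ 3) = 3 * D.pt g := by
    intro g
    have : g ^ 3 = g * (g * g) := by rw [pow_succ, pow_succ, pow_one, mul_assoc]
    rw [this, D.pa_mul, D.pa_mul, D.pt_mul, D.pt_mul]
    exact powT _ _ (D.pa_mem g)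
  have : g ^ 27 = ((g ^ 3) ^ 3) ^ 3 := by rw [← pow_mul, ← pow_mul]
  rw [this, (h3 _).1, (h3 _).2, (h3 _).2, (h3 _).2]
  refine ⟨rfl, ?_⟩
  have : ∀ t : ZMod 9, 3 * (3 * (3 * t)) = 0 := by decide
  exact this _

end Dat

/-- the field with four elements has a primitive cube root of unity -/
lemma exists_omega : ∃ w : GaloisField 2 2, w ^ 2 + w + 1 = 0 := by
  haveI : Fintype (GaloisField 2 2) := Fintype.ofFinite _
  have hcard : Nat.card (GaloisField 2 2) = 4 := by
    have := GaloisField.card 2 2 (by norm_num)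
    rw [this]; norm_num
  obtain ⟨w, hw0, hw1⟩ : ∃ w : GaloisField 2 2, w ≠ 0 ∧ w ≠ 1 := by
    by_contra hcon
    push Not at hcon
    classical
    have hsub : (Finset.univ : Finset (GaloisField 2 2)) ⊆ {0, 1} := by
      intro x _
      by_cases hx : x = 0
      · simp [hx]
      · simp [hcon x hx]
    have h1 := Finset.card_le_card hsub
    rw [Finset.card_univ, ← Nat.card_eq_fintype_card, hcard] at h1
    have h2 := Finset.card_le_two (a := (0 : GaloisField 2 2)) (b := 1)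
    omega
  refine ⟨w, ?_⟩
  have h3 : w ^ 3 = 1 := by
    have := FiniteField.pow_card_sub_one_eq_one w hw0
    rwa [← Nat.card_eq_fintype_card, hcard] at this
  have : (w - 1) * (w ^ 2 + w + 1) = 0 := by linear_combination h3
  rcases mul_eq_zero.mp this with h | h
  · exact absurd (sub_eq_zero.mp h) hw1
  · exact h

/-- the data in `F_S` -/
noncomputable def DS : Dat F5 (FSmax S30 : IntermediateField F5 Om) where
  s := sF
  hs := sF_sq
  z := ⟨ze, K0_le_FS (IntermediateField.subset_adjoin _ _ (by left; rfl))⟩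
  hz := IsPrimitiveRoot.of_map_of_injective (f := (FSmax S30 : IntermediateField F5 Om).val)
    ze_prim Subtype.val_injective
  y := ⟨yy, K0_le_FS (IntermediateField.subset_adjoin _ _ (by right; rfl))⟩
  hy := by
    apply Subtype.ext
    exact DOm.hy

theorem stmRho (hK7 : StmK7) : StmRho := by
  haveI : IsGalois F5 (FSmax S30 : IntermediateField F5 Om) := hK7 F5 Om S30
  have hsurj := DS.Lam_surj (noroot_e finrank_F5 DS.s DS.hs) (noroot_u finrank_F5 DS.s DS.hs)
    (fun s x hs => noroot_p finrank_F5 s x hs)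
  obtain ⟨w, hw⟩ := exists_omega
  have hw3 : w ^ 3 = 1 := by linear_combination (w - 1) * hw
  have hw0 : w ≠ 0 := by rintro rfl; simp at hw
  refine ⟨GaloisField 2 2, inferInstance, inferInstance, inferInstance, DS.rho w hw3, w, hw0,
    DS.rho_ker_open w hw3, ?_, ?_, ?_, ?_⟩
  · -- absolute irreducibility
    intro V hV
    obtain ⟨gT, hT1, hT2⟩ := DS.pa_pt_surj hsurj 1 1 (by simp)
    obtain ⟨gS, hS1, hS2⟩ := DS.pa_pt_surj hsurj 4 0 (by simp)
    set f := algebraMap (GaloisField 2 2) (AlgebraicClosure (GaloisField 2 2)) with hf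
    refine irred_TS (f w) ?_ ?_ V ?_ ?_
    · rw [← map_pow, ← map_add, ← map_one f, ← map_add, hw, map_zero]
    · have h2 : (2 : AlgebraicClosure (GaloisField 2 2)) = 0 := by
        have : (2 : GaloisField 2 2) = 0 := CharTwo.two_eq_zero
        rw [← map_ofNat f 2, this, map_zero]
      have : (3 : AlgebraicClosure (GaloisField 2 2)) = 1 := by
        linear_combination h2
      rw [this]; exact one_ne_zero
    · intro x hx
      have := hV gT x hx
      rw [DS.rho_coe, hT1, hT2, mat_T] at this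
      convert this using 2
      ext i j; fin_cases i <;> fin_cases j <;> simp
    · intro x hx
      have := hV gS x hx
      rw [DS.rho_coe, hS1, hS2] at this
      convert this using 1
      ext i
      simp only [Matrix.mulVec, dotProduct, Matrix.map_apply, mat_S]
      rw [Finset.sum_eq_single i]
      · simp
      · intro j _ hj
        rw [if_neg (fun h => hj h.symm), map_zero, zero_mul]
      · simp
  · intro g
    rw [← map_pow]
    apply Units.ext
    rw [DS.rho_coe, (DS.pa_pt_27 g).1, (DS.pa_pt_27 g).2, mat_one]; rfl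
  · intro g hg
    have e1 : (DS.eN : Om) = ze + ze⁻¹ := by
      change yy ^ 0 * ze ^ 1 + (yy ^ 0 * ze ^ 1)⁻¹ = _; simp
    have e2 : (DS.eM : Om) = yy ^ 3 + (yy ^ 3)⁻¹ := by
      change yy ^ 3 * ze ^ 0 + (yy ^ 3 * ze ^ 0)⁻¹ = _; simp
    have h1 : g DS.eN = DS.eN := hg _ (by
      rw [e1]; exact IntermediateField.subset_adjoin _ _ (by simp))
    have h2 : g DS.eM = DS.eM := hg _ (by
      rw [e2]; exact IntermediateField.subset_adjoin _ _ (by simp))
    have h3 := DS.fix_eN_iff g h1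
    have h4 := DS.fix_eM_iff g h2
    rw [DS.rho_coe, h3]
    exact wt_scalar w _ h4
  · obtain ⟨gT, hT1, hT2⟩ := DS.pa_pt_surj hsurj 1 1 (by simp)
    exact ⟨gT, by rw [DS.rho_coe, hT1, hT2, mat_T]⟩

end MZ294
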