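import Pool.Agent.W566.MZ.Pre
import Pool.Agent.W413.MZ.FN
import Pool.Agent.W413.MZ.FM
import Pool.Agent.W413.MZ.FP
import Pool.Agent.W294.MZ.ExFinal

/-!
# MP_aa8fd2_nt : the counterexample, with existence of the universal deformation ring
-/

set_option autoImplicit false

namespace MZ

open NumberField IsDedekindDomain

/-- There are data `F = ℚ(√5)`, `n = 3`, `p = 2` with `δ(ρbar) = 1` for which the universal
deformation ring exists and every universal deformation ring `R` has `dim R/2R ≥ 2`. -/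
theorem strong :
    ∃ (F Ω : Type) (_ : Field F) (_ : NumberField F) (_ : Field Ω) (_ : Algebra F Ω)
      (_ : IsAlgClosure F Ω) (S : Set (HeightOneSpectrum (𝓞 F)))
      (k : Type) (_ : Field k) (_ : Finite k) (_ : CharP k 2)
      (ρbar : GFS Ω S →* GL (Fin 3) k)
      (w : InfinitePlace F → InfinitePlace (FSmax S : IntermediateField F Ω)),
      (∃ s : F, s ^ 2 = 5 ∧ IntermediateField.adjoin ℚ {s} = ⊤) ∧
      IsDatum F Ω S 2 k 3 ρbar w ∧ delta S ρbar w = 1 ∧
      (∃ (R : CNL 2 k) (ρu : GFS Ω S →* GL (Fin 3) R.A), IsUniversal ρbar R ρu) ∧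
      ∀ (R : CNL 2 k) (ρu : GFS Ω S →* GL (Fin 3) R.A), IsUniversal ρbar R ρu →
        2 ≤ ringKrullDim (R.A ⧸ Ideal.span {((2 : ℕ) : R.A)}) := by
  obtain ⟨F, Ω, iF, iN, iΩ, iA, iC, S, k, ik, iFin, iP, ρbar, w, hs, hD, hδ, hR⟩ :=
    counterexample_of MZ413.stmN MZ413.stmM MZ413.stmP
  refine ⟨F, Ω, iF, iN, iΩ, iA, iC, S, k, ik, iFin, iP, ρbar, w, hs, hD, hδ, ?_, hR⟩
  obtain ⟨h1, -, h3, h4, h5, h6, -⟩ := hD
  exact MZEX.stmEx F Ω S h3 (fun v hv => h4 v (by exact_mod_cast hv)) k 3 (by norm_num) ρbar h5 h6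

/-- The exact negated form of the problem: for some data the universal deformation ring is not
flat, or its relative dimension differs from `δ`. -/
theorem negated :
    ∃ (F Ω : Type) (_ : Field F) (_ : NumberField F) (_ : Field Ω) (_ : Algebra F Ω)
      (_ : IsAlgClosure F Ω) (S : Set (HeightOneSpectrum (𝓞 F)))
      (k : Type) (_ : Field k) (_ : Finite k) (_ : CharP k 2)
      (ρbar : GFS Ω S →* GL (Fin 3) k)
      (w : InfinitePlace F → InfinitePlace (FSmax S : IntermediateField F Ω)),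
      IsDatum F Ω S 2 k 3 ρbar w ∧
      ∃ (R : CNL 2 k) (ρu : GFS Ω S →* GL (Fin 3) R.A), IsUniversal ρbar R ρu ∧
        ¬ (Module.Flat (WittVector 2 k) R.A ∧
          ∃ d : ℕ, ringKrullDim (R.A ⧸ Ideal.span {((2 : ℕ) : R.A)}) = d ∧
            (d : ℤ) = delta S ρbar w) := by
  obtain ⟨F, Ω, iF, iN, iΩ, iA, iC, S, k, ik, iFin, iP, ρbar, w, hs, hD, hδ, ⟨R, ρu, hu⟩, hR⟩ :=
    strong
  refine ⟨F, Ω, iF, iN, iΩ, iA, iC, S, k, ik, iFin, iP, ρbar, w, hD, R, ρu, hu, ?_⟩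
  rintro ⟨-, d, hd, hd'⟩
  have h2 := hR R ρu hu
  rw [hδ] at hd'
  have : d = 1 := by exact_mod_cast hd'
  subst this
  rw [hd] at h2
  exact absurd h2 (by decide)

/-- `ρbar : G_{F,S} → GL_n(k)` is a counterexample with `δ = 1`: the data are as in the problem,
`δ(ρbar) = 1`, a universal deformation ring of `ρbar` exists, and every universal deformation ring
`R` has `dim R/pR ≥ 2`. -/
def IsCounter (F Ω : Type) [Field F] [NumberField F] [Field Ω] [Algebra F Ω]
    (S : Set (HeightOneSpectrum (𝓞 F))) (p : ℕ) [Fact p.Prime] (k : Type) [Field k] [CharP k p]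
    (n : ℕ) (ρbar : GFS Ω S →* GL (Fin n) k)
    (w : InfinitePlace F → InfinitePlace (FSmax S : IntermediateField F Ω)) : Prop :=
  IsDatum F Ω S p k n ρbar w ∧ delta S ρbar w = 1 ∧
  (∃ (R : CNL p k) (ρu : GFS Ω S →* GL (Fin n) R.A), IsUniversal ρbar R ρu) ∧
  ∀ (R : CNL p k) (ρu : GFS Ω S →* GL (Fin n) R.A), IsUniversal ρbar R ρu →
    2 ≤ ringKrullDim (R.A ⧸ Ideal.span {(p : R.A)})

end MZ
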